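import Mathlib

set_option autoImplicit false

/-!
Binary (2-adic) orders on the integers: strict linear orders in which the relative position of two
integers in different residue classes modulo a power of two depends only on the classes.
-/

namespace Pool.Agent.H409Z

structure Bin (R : ℤ → ℤ → Prop) : Prop where
  irrefl : ∀ x, ¬ R x x
  trans : ∀ x y z, R x y → R y z → R x z
  total : ∀ x y, x ≠ y → R x y ∨ R y x
  cls : ∀ (k : ℕ) (x x' y : ℤ), (2 : ℤ) ^ k ∣ x' - x → ¬ (2 : ℤ) ^ k ∣ y - x → R x y → R x' y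

theorem Bin.asymm {R : ℤ → ℤ → Prop} (h : Bin R) {x y : ℤ} (h1 : R x y) (h2 : R y x) : False :=
  h.irrefl x (h.trans _ _ _ h1 h2)

theorem Bin.cls' {R : ℤ → ℤ → Prop} (h : Bin R) (k : ℕ) (x x' y : ℤ) (h1 : (2 : ℤ) ^ k ∣ x' - x)
    (h2 : ¬ (2 : ℤ) ^ k ∣ y - x) (h3 : R y x) : R y x' := by
  have hne : y ≠ x' := by
    rintro rfl
    exact h2 h1
  rcases h.total y x' hne with h4 | h4
  · exact h4
  · exfalso
    have h5 : (2 : ℤ) ^ k ∣ x - x' := by
      have := h1.neg_right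
      rwa [neg_sub] at this
    have h6 : ¬ (2 : ℤ) ^ k ∣ y - x' := by
      intro h7
      apply h2
      have := h7.add h1
      rwa [sub_add_sub_cancel] at this
    exact h.asymm (h.cls k x' x y h5 h6 h4) h3

theorem Bin.rev {R : ℤ → ℤ → Prop} (h : Bin R) : Bin (fun x y => R y x) where
  irrefl := h.irrefl
  trans := fun x y z h1 h2 => h.trans z y x h2 h1
  total := fun x y hne => (h.total x y hne).symm
  cls := fun k x x' y h1 h2 h3 => h.cls' k x x' y h1 h2 h3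

theorem Bin.shift {R : ℤ → ℤ → Prop} (h : Bin R) (c : ℤ) : Bin (fun x y => R (x - c) (y - c)) where
  irrefl := fun x => h.irrefl _
  trans := fun x y z h1 h2 => h.trans _ _ _ h1 h2
  total := fun x y hne => h.total _ _ (by omega)
  cls := fun k x x' y h1 h2 h3 => h.cls k (x - c) (x' - c) (y - c) (by simpa using h1)
    (by simpa using h2) h3

theorem exists_not_dvd (d : ℤ) (hd : d ≠ 0) : ∃ k : ℕ, ¬ (2 : ℤ) ^ k ∣ d := by
  refine ⟨d.natAbs, fun h => ?_⟩
  have h1 := Int.le_of_dvd (abs_pos.mpr hd) ((dvd_abs _ _).mpr h)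
  have h2 : d.natAbs < 2 ^ d.natAbs := Nat.lt_two_pow_self
  have h3 : ((d.natAbs : ℕ) : ℤ) < (2 : ℤ) ^ d.natAbs := by exact_mod_cast h2
  rw [Int.natCast_natAbs] at h3
  omega

theorem exists_level (d : ℤ) (hd : d ≠ 0) : ∃ k : ℕ, (2 : ℤ) ^ k ∣ 2 * d ∧ ¬ (2 : ℤ) ^ k ∣ d := by
  classical
  have h := exists_not_dvd d hd
  refine ⟨Nat.find h, ?_, Nat.find_spec h⟩
  rcases Nat.eq_zero_or_pos (Nat.find h) with h0 | h0
  · rw [h0]; simp
  · obtain ⟨m, hm⟩ : ∃ m, Nat.find h = m + 1 := ⟨Nat.find h - 1, by omega⟩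
    have h1 : ¬ ¬ (2 : ℤ) ^ m ∣ d := Nat.find_min h (by omega)
    rw [hm, pow_succ, mul_comm]
    exact mul_dvd_mul_left 2 (not_not.mp h1)

/-- The two ends of a three-term progression lie on the same side of the middle term. -/
theorem Bin.ap {R : ℤ → ℤ → Prop} (h : Bin R) {a b c : ℤ} (hac : a + c = 2 * b) (h1 : R a b) :
    R c b := by
  have hne : b - a ≠ 0 := by
    intro h0
    have : a = b := by omega
    subst this
    exact h.irrefl _ h1
  obtain ⟨k, h2, h3⟩ := exists_level (b - a) hne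
  refine h.cls k a c b ?_ h3 h1
  have : c - a = 2 * (b - a) := by omega
  rwa [this]

theorem Bin.ap' {R : ℤ → ℤ → Prop} (h : Bin R) {a b c : ℤ} (hac : a + c = 2 * b) (h1 : R b a) :
    R b c := h.rev.ap hac h1

/-- The standard binary order, in which `0` comes first. -/
def R0 (x y : ℤ) : Prop :=
  ∃ k : ℕ, (∀ j < k, x % 2 ^ j = y % 2 ^ j) ∧ x % 2 ^ k < y % 2 ^ k

theorem not_R0_zero (x : ℤ) : ¬ R0 x 0 := by
  rintro ⟨k, -, h⟩
  have : 0 ≤ x % 2 ^ k := Int.emod_nonneg _ (by positivity)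
  simp at h
  omega

theorem bin_R0 : Bin R0 where
  irrefl := by
    rintro x ⟨k, -, h⟩
    exact lt_irrefl _ h
  trans := by
    rintro x y z ⟨k, h1, h2⟩ ⟨l, h3, h4⟩
    rcases lt_trichotomy k l with h | h | h
    · exact ⟨k, fun j hj => (h1 j hj).trans (h3 j (hj.trans h)), by rw [← h3 k h]; exact h2⟩
    · subst h
      exact ⟨k, fun j hj => (h1 j hj).trans (h3 j hj), h2.trans h4⟩
    · exact ⟨l, fun j hj => (h1 j (hj.trans h)).trans (h3 j hj), by rw [h1 l h]; exact h4⟩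
  total := by
    classical
    intro x y hne
    have h : ∃ k : ℕ, x % 2 ^ k ≠ y % 2 ^ k := by
      obtain ⟨k, hk⟩ := exists_not_dvd (y - x) (by omega)
      exact ⟨k, fun h => hk (Int.ModEq.dvd h)⟩
    have h1 : ∀ j < Nat.find h, x % 2 ^ j = y % 2 ^ j := fun j hj => not_not.mp (Nat.find_min h hj)
    rcases lt_or_gt_of_ne (Nat.find_spec h) with h2 | h2
    · exact Or.inl ⟨_, h1, h2⟩
    · exact Or.inr ⟨_, fun j hj => (h1 j hj).symm, h2⟩
  cls := by
    rintro k x x' y h1 h2 ⟨i, h3, h4⟩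
    have h5 : ∀ j ≤ k, x % 2 ^ j = x' % 2 ^ j := fun j hj =>
      (Int.modEq_iff_dvd.mpr ((pow_dvd_pow 2 hj).trans h1))
    rcases le_or_gt i k with h | h
    · exact ⟨i, fun j hj => (h5 j (by omega)).symm.trans (h3 j hj), by rw [← h5 i h]; exact h4⟩
    · exact absurd (Int.ModEq.dvd (h3 k h)) h2

/-- The order that follows `R` between different classes modulo `2 ^ k` and `F x` inside the class
of `x`. -/
def glue (R : ℤ → ℤ → Prop) (k : ℕ) (F : ℤ → ℤ → ℤ → Prop) (x y : ℤ) : Prop :=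
  (¬ (2 : ℤ) ^ k ∣ y - x ∧ R x y) ∨ ((2 : ℤ) ^ k ∣ y - x ∧ F x x y)

theorem dvd_symm {m x y : ℤ} (h : m ∣ y - x) : m ∣ x - y := by
  have := h.neg_right
  rwa [neg_sub] at this

theorem dvd_tr {m x y z : ℤ} (h : m ∣ y - x) (h' : m ∣ z - y) : m ∣ z - x := by
  have := h'.add h
  rwa [sub_add_sub_cancel] at this

theorem bin_glue {R : ℤ → ℤ → Prop} (hR : Bin R) (k : ℕ) {F : ℤ → ℤ → ℤ → Prop}
    (hF : ∀ x, Bin (F x)) (hc : ∀ x y, (2 : ℤ) ^ k ∣ y - x → F y = F x) : Bin (glue R k F) where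
  irrefl := by
    rintro x (⟨-, h⟩ | ⟨-, h⟩)
    · exact hR.irrefl _ h
    · exact (hF x).irrefl _ h
  trans := by
    rintro x y z (⟨h1, h2⟩ | ⟨h1, h2⟩) (⟨h3, h4⟩ | ⟨h3, h4⟩)
    · refine Or.inl ⟨fun h => ?_, hR.trans _ _ _ h2 h4⟩
      exact hR.asymm (hR.cls k x z y h h1 h2) h4
    · refine Or.inl ⟨fun h => h1 (dvd_tr h (dvd_symm h3)), ?_⟩
      exact hR.cls' k y z x h3 (fun h => h1 (dvd_symm h)) h2
    · refine Or.inl ⟨fun h => h3 (dvd_tr (dvd_symm h1) h), ?_⟩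
      exact hR.cls k y x z (dvd_symm h1) h3 h4
    · refine Or.inr ⟨dvd_tr h1 h3, ?_⟩
      rw [hc x y h1] at h4
      exact (hF x).trans _ _ _ h2 h4
  total := by
    intro x y hne
    by_cases h : (2 : ℤ) ^ k ∣ y - x
    · rcases (hF x).total x y hne with h1 | h1
      · exact Or.inl (Or.inr ⟨h, h1⟩)
      · refine Or.inr (Or.inr ⟨dvd_symm h, ?_⟩)
        rw [hc x y h]
        exact h1
    · rcases hR.total x y hne with h1 | h1
      · exact Or.inl (Or.inl ⟨h, h1⟩)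
      · exact Or.inr (Or.inl ⟨fun h2 => h (dvd_symm h2), h1⟩)
  cls := by
    rintro m x x' y h1 h2 (⟨h3, h4⟩ | ⟨h3, h4⟩)
    · refine Or.inl ⟨fun h => ?_, hR.cls m x x' y h1 h2 h4⟩
      rcases le_or_gt k m with h5 | h5
      · exact h3 (dvd_tr ((pow_dvd_pow 2 h5).trans h1) h)
      · exact h2 (dvd_tr h1 ((pow_dvd_pow 2 h5.le).trans h))
    · rcases le_or_gt k m with h5 | h5
      · have h6 : (2 : ℤ) ^ k ∣ x' - x := (pow_dvd_pow 2 h5).trans h1
        refine Or.inr ⟨dvd_tr (dvd_symm h6) h3, ?_⟩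
        rw [hc x x' h6]
        exact (hF x).cls m x x' y h1 h2 h4
      · exact absurd ((pow_dvd_pow 2 h5.le).trans h3) h2

open Classical in
/-- The member of `P` in the class of `x` modulo `2 ^ k`, when there is exactly one. -/
noncomputable def cen (P : Finset ℤ) (k : ℕ) (x : ℤ) : ℤ :=
  ∑ p ∈ P.filter (fun p => (2 : ℤ) ^ k ∣ p - x), p

theorem cen_congr (P : Finset ℤ) (k : ℕ) {x y : ℤ} (h : (2 : ℤ) ^ k ∣ y - x) :
    cen P k y = cen P k x := by
  unfold cen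
  congr 1
  apply Finset.filter_congr
  intro p _
  exact ⟨fun h1 => dvd_tr h h1, fun h1 => dvd_tr (dvd_symm h) h1⟩

theorem cen_eq {P : Finset ℤ} {k : ℕ} (hP : ∀ p ∈ P, ∀ q ∈ P, (2 : ℤ) ^ k ∣ q - p → q = p)
    {x p : ℤ} (hp : p ∈ P) (h : (2 : ℤ) ^ k ∣ p - x) : cen P k x = p := by
  classical
  unfold cen
  have : P.filter (fun p => (2 : ℤ) ^ k ∣ p - x) = {p} := by
    ext q
    simp only [Finset.mem_filter, Finset.mem_singleton]
    constructor
    · rintro ⟨h1, h2⟩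
      exact hP p hp q h1 (dvd_tr (dvd_symm h) h2)
    · rintro rfl
      exact ⟨hp, h⟩
  simp [this]

open Classical in
/-- The rank of the class of `x` modulo `2 ^ k` in the order `R`. -/
noncomputable def rk (R : ℤ → ℤ → Prop) (k : ℕ) (x : ℤ) : ℕ :=
  ((Finset.Ico (0 : ℤ) (2 ^ k)).filter (fun y => ¬ (2 : ℤ) ^ k ∣ y - x ∧ R y x)).card

theorem rk_le (R : ℤ → ℤ → Prop) (k : ℕ) (x : ℤ) : rk R k x ≤ 2 ^ k := by
  classical
  unfold rk
  refine (Finset.card_filter_le _ _).trans ?_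
  rw [Int.card_Ico]
  have : ((2 : ℤ) ^ k - 0) = ((2 ^ k : ℕ) : ℤ) := by simp
  rw [this, Int.toNat_natCast]

theorem rk_lt {R : ℤ → ℤ → Prop} (hR : Bin R) (k : ℕ) {e z : ℤ} (h1 : ¬ (2 : ℤ) ^ k ∣ z - e)
    (h2 : R e z) : rk R k e < rk R k z := by
  classical
  unfold rk
  apply Finset.card_lt_card
  rw [Finset.ssubset_iff_of_subset]
  · have hd : (2 : ℤ) ^ k ∣ e % 2 ^ k - e := dvd_symm (Int.ModEq.dvd (Int.mod_modEq e (2 ^ k)))
    refine ⟨e % 2 ^ k, ?_, ?_⟩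
    · simp only [Finset.mem_filter, Finset.mem_Ico]
      refine ⟨⟨Int.emod_nonneg _ (by positivity), Int.emod_lt_of_pos _ (by positivity)⟩, ?_, ?_⟩
      · exact fun h => h1 (dvd_tr hd (dvd_symm h))
      · exact hR.cls k e _ z hd h1 h2
    · simp only [Finset.mem_filter, not_and]
      intro _ h
      exact absurd hd h
  · intro y hy
    simp only [Finset.mem_filter] at hy ⊢
    obtain ⟨h3, h4, h5⟩ := hy
    refine ⟨h3, fun h => ?_, hR.trans _ _ _ h5 h2⟩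
    exact hR.asymm (hR.cls k y z e (dvd_symm h) (fun h6 => h4 (dvd_symm h6)) h5) h2

/-- A modulus separating the members of a bounded finite set. -/
theorem exists_sep (P : Finset ℤ) : ∃ (D : ℤ) (k : ℕ), 0 ≤ D ∧ (∀ p ∈ P, -D ≤ p ∧ p ≤ D) ∧
    ∀ p ∈ P, ∀ q ∈ P, (2 : ℤ) ^ k ∣ q - p → q = p := by
  obtain ⟨D, hD0, hD⟩ : ∃ D : ℤ, 0 ≤ D ∧ ∀ p ∈ P, -D ≤ p ∧ p ≤ D := by
    refine ⟨∑ p ∈ P, |p|, Finset.sum_nonneg fun p _ => abs_nonneg p, fun p hp => ?_⟩
    have := Finset.single_le_sum (f := fun p : ℤ => |p|) (fun p _ => abs_nonneg p) hp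
    exact abs_le.mp this
  refine ⟨D, (2 * D).toNat, hD0, hD, fun p hp q hq h => ?_⟩
  by_contra hne
  have h1 := Int.le_of_dvd (abs_pos.mpr (sub_ne_zero.mpr hne)) ((dvd_abs _ _).mpr h)
  have h2 : (2 * D).toNat < 2 ^ (2 * D).toNat := Nat.lt_two_pow_self
  have h3 : (((2 * D).toNat : ℕ) : ℤ) < (2 : ℤ) ^ (2 * D).toNat := by exact_mod_cast h2
  have h4 := hD p hp
  have h5 := hD q hq
  have h6 : |q - p| ≤ 2 * D := abs_le.mpr ⟨by omega, by omega⟩
  omega

open Classical in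
/-- Position of `y` among the members of `Q` in the order `T`. -/
noncomputable def posn (T : ℤ → ℤ → Prop) (Q : Finset ℤ) (y : ℤ) : ℕ :=
  (Q.filter (fun z => T z y)).card

theorem posn_lt {T : ℤ → ℤ → Prop} (hT : Bin T) {Q : Finset ℤ} {x y : ℤ} (hx : x ∈ Q)
    (h : T x y) : posn T Q x < posn T Q y := by
  classical
  unfold posn
  apply Finset.card_lt_card
  rw [Finset.ssubset_iff_of_subset]
  · refine ⟨x, by simp [hx, h], by simp [hT.irrefl]⟩
  · intro z hz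
    simp only [Finset.mem_filter] at hz ⊢
    exact ⟨hz.1, hT.trans _ _ _ hz.2 h⟩

theorem lt_of_posn_lt {T : ℤ → ℤ → Prop} (hT : Bin T) {Q : Finset ℤ} {x y : ℤ} (hy : y ∈ Q)
    (h : posn T Q x < posn T Q y ∨ (x ≠ y ∧ posn T Q x = posn T Q y)) : T x y := by
  have hne : x ≠ y := by
    rcases h with h | h
    · rintro rfl
      exact lt_irrefl _ h
    · exact h.1
  rcases hT.total x y hne with h1 | h1
  · exact h1
  · have := posn_lt hT hy h1
    omega

/-- The order in which the members of `P` come first, sorted by `g`, and the other integers follow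
in the order `R`. -/
def LtS (P : Finset ℤ) (g : ℤ → ℤ) (R : ℤ → ℤ → Prop) (x y : ℤ) : Prop :=
  (x ∈ P ∧ y ∈ P ∧ g x < g y) ∨ (x ∈ P ∧ y ∉ P) ∨ (x ∉ P ∧ y ∉ P ∧ R x y)

end Pool.Agent.H409Z
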