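import Mathlib
import Pool.Agent.H409Z.Bin

set_option autoImplicit false

/-!
A two-sided arrangement of the integers without monotone four-term progressions.
-/

namespace Pool.Agent.H409Z

def Good (P : Finset ℤ) (g : ℤ → ℤ) (R : ℤ → ℤ → Prop) : Prop :=
  ∀ a b c e : ℤ, a + c = 2 * b → b + e = 2 * c →
    LtS P g R a b → LtS P g R b c → LtS P g R c e → False

theorem pow_sep (m n : ℕ) : (2 : ℤ) ^ m + 2 ^ n ≤ 3 * |(-2 : ℤ) ^ m + (-2) ^ n| := by
  wlog h : m ≤ n generalizing m n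
  · have := this n m (by omega)
    rwa [add_comm ((2 : ℤ) ^ n), add_comm ((-2 : ℤ) ^ n)] at this
  have hm : |(-2 : ℤ) ^ m| = 2 ^ m := by simp [abs_pow]
  have hn : |(-2 : ℤ) ^ n| = 2 ^ n := by simp [abs_pow]
  rcases h.eq_or_lt with rfl | h
  · have : (-2 : ℤ) ^ m + (-2) ^ m = 2 * (-2) ^ m := by ring
    rw [this, abs_mul, hm]
    have : (0 : ℤ) < 2 ^ m := by positivity
    simp
    omega
  · have h1 : (2 : ℤ) ^ (m + 1) ≤ 2 ^ n := pow_le_pow_right₀ (by norm_num) h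
    rw [pow_succ] at h1
    have h2 : |(-2 : ℤ) ^ n| ≤ |(-2 : ℤ) ^ m + (-2) ^ n| + |(-2 : ℤ) ^ m| := by
      have := abs_sub ((-2 : ℤ) ^ m + (-2) ^ n) ((-2 : ℤ) ^ m)
      simpa using this
    omega

theorem exists_S (P : Finset ℤ) (D : ℤ) (hD0 : 0 ≤ D) (hD : ∀ p ∈ P, -D ≤ p ∧ p ≤ D)
    (ρ : ℤ → ℕ) (K : ℕ) (hρ : ∀ x, ρ x ≤ K) (t : ℤ) :
    ∃ S : Finset ℤ, P ⊆ S ∧ t ∈ S ∧ (∃ y ∈ S, y ∉ P) ∧ (∀ b ∈ P, ∀ c ∈ P, 2 * b - c ∈ S) ∧
      ∀ p ∈ P, ∀ e ∈ S, ρ e < ρ (3 * p - 2 * e) → 2 * p - e ∉ S →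
        3 * p - 2 * e ∈ S ∧ 2 * e - p ∉ S := by
  classical
  obtain ⟨α, hα1, hα2⟩ : ∃ α : ℤ, 15 * D < α ∧ |t| ≤ α :=
    ⟨15 * D + 1 + |t|, by have := abs_nonneg t; omega, by omega⟩
  have hα0 : 0 < α := by omega
  let M : Set ℤ := {x | (-α ≤ x ∧ x ≤ α + 2 * D) ∨
    ∃ i : ℕ, i ≤ ρ x ∧ |x - (-2) ^ i * α| ≤ 5 * D * 2 ^ i - 3 * D}
  have hfin : M.Finite := by
    apply (Set.finite_Icc (-(2 ^ K * (α + 5 * D))) (2 ^ K * (α + 5 * D))).subset
    have hK : (1 : ℤ) ≤ 2 ^ K := one_le_pow₀ (by norm_num)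
    rintro x (⟨h1, h2⟩ | ⟨i, h1, h2⟩)
    · constructor <;> nlinarith
    · have h3 : (2 : ℤ) ^ i ≤ 2 ^ K := pow_le_pow_right₀ (by norm_num) (h1.trans (hρ x))
      have h4 : |(-2 : ℤ) ^ i * α| = 2 ^ i * α := by simp [abs_mul, abs_pow, abs_of_pos hα0]
      have h5 : |x| ≤ |x - (-2) ^ i * α| + |(-2 : ℤ) ^ i * α| := by
        have := abs_add_le (x - (-2) ^ i * α) ((-2 : ℤ) ^ i * α)
        simpa using this
      have h6 : |x| ≤ 2 ^ K * (α + 5 * D) := by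
        have : (2 : ℤ) ^ i * (α + 5 * D) ≤ 2 ^ K * (α + 5 * D) :=
          mul_le_mul_of_nonneg_right h3 (by omega)
        nlinarith
      exact abs_le.mp h6
  have hmem : ∀ x, x ∈ hfin.toFinset ↔ ((-α ≤ x ∧ x ≤ α + 2 * D) ∨
      ∃ i : ℕ, i ≤ ρ x ∧ |x - (-2) ^ i * α| ≤ 5 * D * 2 ^ i - 3 * D) := fun x => by
    rw [Set.Finite.mem_toFinset]; rfl
  refine ⟨hfin.toFinset, ?_, ?_, ⟨α, ?_, ?_⟩, ?_, ?_⟩
  · intro p hp
    have := hD p hp
    rw [hmem]
    left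
    omega
  · rw [hmem]
    left
    have := abs_le.mp hα2
    omega
  · rw [hmem]
    left
    omega
  · intro h
    have := hD α h
    omega
  · intro b hb c hc
    have := hD b hb
    have := hD c hc
    rw [hmem]
    left
    omega
  · intro p hp e he hlt hno
    have hp' := hD p hp
    obtain ⟨i, h1, h2⟩ : ∃ i : ℕ, i ≤ ρ e ∧ |e - (-2) ^ i * α| ≤ 5 * D * 2 ^ i - 3 * D := by
      rcases (hmem e).mp he with h | h
      · refine ⟨0, Nat.zero_le _, ?_⟩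
        rw [hmem, not_or] at hno
        have := hno.1
        simp only [pow_zero, one_mul, mul_one]
        rw [abs_le]
        omega
      · exact h
    have hi : (1 : ℤ) ≤ 2 ^ i := one_le_pow₀ (by norm_num)
    rw [abs_le] at h2
    constructor
    · rw [hmem]
      right
      refine ⟨i + 1, by omega, ?_⟩
      rw [abs_le, pow_succ, pow_succ]
      constructor <;> nlinarith
    · intro h3
      have h4 : |2 * e - p + (-2) ^ (i + 1) * α| ≤ 5 * D * 2 ^ (i + 1) := by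
        rw [abs_le, pow_succ, pow_succ]
        constructor <;> nlinarith
      rcases (hmem _).mp h3 with h | ⟨m, -, h⟩
      · have h5 : |(-2 : ℤ) ^ (i + 1) * α| = 2 ^ (i + 1) * α := by
          simp [abs_mul, abs_pow, abs_of_pos hα0]
        have h6 : |(-2 : ℤ) ^ (i + 1) * α| ≤ |2 * e - p + (-2) ^ (i + 1) * α| + |2 * e - p| := by
          have := abs_sub (2 * e - p + (-2) ^ (i + 1) * α) (2 * e - p)
          simpa using this
        have h7 : |2 * e - p| ≤ α + 2 * D := abs_le.mpr ⟨by omega, by omega⟩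
        rw [h5, pow_succ] at h6
        rw [pow_succ 2] at h4
        nlinarith
      · have h5 := pow_sep m (i + 1)
        have h6 : |((-2 : ℤ) ^ m + (-2) ^ (i + 1)) * α| ≤
            |2 * e - p + (-2) ^ (i + 1) * α| + |2 * e - p - (-2) ^ m * α| := by
          have := abs_sub (2 * e - p + (-2) ^ (i + 1) * α) (2 * e - p - (-2) ^ m * α)
          have h7 : 2 * e - p + (-2) ^ (i + 1) * α - (2 * e - p - (-2) ^ m * α) =
              ((-2 : ℤ) ^ m + (-2) ^ (i + 1)) * α := by ring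
          rwa [h7] at this
        rw [abs_mul, abs_of_pos hα0] at h6
        have h8 : (0 : ℤ) < 2 ^ m + 2 ^ (i + 1) := by positivity
        have h9 : (2 ^ m + 2 ^ (i + 1)) * α ≤ 3 * |(-2 : ℤ) ^ m + (-2) ^ (i + 1)| * α :=
          mul_le_mul_of_nonneg_right h5 hα0.le
        have h10 : (2 ^ m + 2 ^ (i + 1)) * (15 * D) < (2 ^ m + 2 ^ (i + 1)) * α :=
          mul_lt_mul_of_pos_left hα1 h8
        nlinarith

theorem step {P : Finset ℤ} {g : ℤ → ℤ} {R : ℤ → ℤ → Prop} (hR : Bin R)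
    (hg : Set.InjOn g P) (hgood : Good P g R) (t : ℤ) :
    ∃ (S : Finset ℤ) (g' : ℤ → ℤ) (T : ℤ → ℤ → Prop), Bin T ∧ Set.InjOn g' S ∧ Good S g' T ∧
      P ⊆ S ∧ t ∈ S ∧ (∀ x ∈ P, g' x = - g x) ∧ ∃ y ∈ S, ∀ x ∈ P, g' y < g' x := by
  classical
  obtain ⟨D, k, hD0, hD, hsep⟩ := exists_sep P
  let T : ℤ → ℤ → Prop := glue R k (fun c x y => R0 (x - cen P k c) (y - cen P k c))
  have hT : Bin T := bin_glue hR k (fun c => bin_R0.shift _)
    (fun x y h => by simp only [cen_congr P k h])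
  obtain ⟨S, hPS, ht, ⟨y0, hy0, hy0'⟩, hcl, hstar⟩ :=
    exists_S P D hD0 hD (rk R k) (2 ^ k) (rk_le R k) t
  have hstar' : ∀ p ∈ P, ∀ e ∈ S, T e p → 2 * p - e ∉ S → 3 * p - 2 * e ∈ S ∧ 2 * e - p ∉ S := by
    intro p hp e he h1 h2
    refine hstar p hp e he ?_ h2
    rcases h1 with ⟨h3, h4⟩ | ⟨h3, h4⟩
    · apply rk_lt hR k
      · intro h5
        apply h3
        have h6 : 3 * p - 2 * e - e = 3 * (p - e) := by ring
        rw [h6] at h5
        refine IsCoprime.dvd_of_dvd_mul_left ?_ h5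
        exact IsCoprime.pow_left ⟨-1, 1, by norm_num⟩
      · have hne : p - e ≠ 0 := by
          intro h0
          rw [h0] at h3
          exact h3 (dvd_zero _)
        obtain ⟨m, h5, h6⟩ := exists_level (p - e) hne
        refine hR.cls' m p _ e ?_ (fun h => h6 (dvd_symm h)) h4
        have : 3 * p - 2 * e - p = 2 * (p - e) := by ring
        rwa [this]
    · exfalso
      simp only [cen_eq hsep hp h3, sub_self] at h4
      exact not_R0_zero _ h4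
  obtain ⟨B, hB⟩ : ∃ B : ℤ, ∀ p ∈ P, g p < B := by
    refine ⟨∑ p ∈ P, |g p| + 1, fun p hp => ?_⟩
    have := Finset.single_le_sum (f := fun p : ℤ => |g p|) (fun p _ => abs_nonneg _) hp
    have := le_abs_self (g p)
    omega
  let g' : ℤ → ℤ := fun x => if x ∈ P then - g x else - (B + posn T S x)
  have hg1 : ∀ x ∈ P, g' x = - g x := fun x hx => by simp [g', hx]
  have hg2 : ∀ x ∉ P, g' x = - (B + posn T S x) := fun x hx => by simp [g', hx]
  have hlt : ∀ x y, LtS S g' T x y → (x ∈ S ∧ x ∉ P ∧ y ∈ S ∧ y ∉ P ∧ T y x) ∨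
      (x ∈ S ∧ x ∉ P ∧ y ∈ P) ∨ (x ∈ S ∧ x ∉ P ∧ y ∉ S) ∨ (x ∈ P ∧ y ∈ P ∧ g y < g x) ∨
      (x ∈ P ∧ y ∉ S) ∨ (x ∉ S ∧ y ∉ S ∧ T x y) := by
    rintro x y (⟨h1, h2, h3⟩ | ⟨h1, h2⟩ | h)
    · by_cases hx : x ∈ P <;> by_cases hy : y ∈ P
      · rw [hg1 x hx, hg1 y hy] at h3
        exact Or.inr (Or.inr (Or.inr (Or.inl ⟨hx, hy, by omega⟩)))
      · rw [hg1 x hx, hg2 y hy] at h3
        have := hB x hx
        omega
      · exact Or.inr (Or.inl ⟨h1, hx, hy⟩)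
      · rw [hg2 x hx, hg2 y hy] at h3
        exact Or.inl ⟨h1, hx, h2, hy, lt_of_posn_lt hT h1 (Or.inl (by omega))⟩
    · by_cases hx : x ∈ P
      · exact Or.inr (Or.inr (Or.inr (Or.inr (Or.inl ⟨hx, h2⟩))))
      · exact Or.inr (Or.inr (Or.inl ⟨h1, hx, h2⟩))
    · exact Or.inr (Or.inr (Or.inr (Or.inr (Or.inr h))))
  refine ⟨S, g', T, hT, ?_, ?_, hPS, ht, hg1, y0, hy0, ?_⟩
  · intro x hx y hy h
    by_cases hx' : x ∈ P <;> by_cases hy' : y ∈ P
    · rw [hg1 x hx', hg1 y hy'] at h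
      exact hg hx' hy' (by omega)
    · rw [hg1 x hx', hg2 y hy'] at h
      have := hB x hx'
      omega
    · rw [hg2 x hx', hg1 y hy'] at h
      have := hB y hy'
      omega
    · rw [hg2 x hx', hg2 y hy'] at h
      by_contra hne
      have h1 : T x y := lt_of_posn_lt hT hy (Or.inr ⟨hne, by omega⟩)
      have := posn_lt hT hx h1
      omega
  · intro a b c e h1 h2 hab hbc hce
    have hold := hgood e c b a (by omega) (by omega)
    have hS : ∀ x ∈ P, x ∈ S := fun x hx => hPS hx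
    rcases hlt a b hab with ⟨a1, a2, b1, b2, hba⟩ | ⟨a1, a2, b1⟩ | ⟨a1, a2, b1⟩ | ⟨a1, b1, hba⟩ |
      ⟨a1, b1⟩ | ⟨a1, b1, hab'⟩
    · have hbc' : T b c := hT.ap' h1 hba
      rcases hlt b c hbc with ⟨-, -, c1, c2, hcb⟩ | ⟨-, -, c1⟩ | ⟨-, -, c1⟩ | ⟨b3, -⟩ |
        ⟨b3, -⟩ | ⟨b3, -⟩
      · exact hT.asymm hbc' hcb
      · rcases hlt c e hce with ⟨-, c2, -⟩ | ⟨-, c2, -⟩ | ⟨-, c2, -⟩ | ⟨-, e1, hec⟩ |
          ⟨-, e1⟩ | ⟨c2, -⟩
        · exact c2 c1
        · exact c2 c1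
        · exact c2 c1
        · refine hold (Or.inl ⟨e1, c1, hec⟩) (Or.inr (Or.inl ⟨c1, b2⟩))
            (Or.inr (Or.inr ⟨b2, a2, ?_⟩))
          rcases hba with ⟨-, h⟩ | ⟨h, -⟩
          · exact h
          · exfalso
            have h3 : a - b = c - e := by omega
            rw [h3] at h
            have := hsep e e1 c c1 h
            subst this
            exact lt_irrefl _ hec
        · have h3 := hstar' c c1 b b1 hbc' (by rwa [show 2 * c - b = e by omega])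
          exact h3.2 (by rwa [show 2 * b - c = a by omega])
        · exact c2 (hS c c1)
      · rcases hlt c e hce with ⟨c2, -⟩ | ⟨c2, -⟩ | ⟨c2, -⟩ | ⟨c2, -⟩ | ⟨c2, -⟩ | ⟨-, -, hce'⟩
        · exact c1 c2
        · exact c1 c2
        · exact c1 c2
        · exact c1 (hS c c2)
        · exact c1 (hS c c2)
        · exact hT.asymm hbc' (hT.ap' (a := e) (b := c) (c := b) (by omega) hce')
      · exact b2 b3
      · exact b2 b3
      · exact b3 b1
    · rcases hlt b c hbc with ⟨-, b2, -⟩ | ⟨-, b2, -⟩ | ⟨-, b2, -⟩ | ⟨-, c1, hcb⟩ |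
        ⟨-, c1⟩ | ⟨b2, -⟩
      · exact b2 b1
      · exact b2 b1
      · exact b2 b1
      · rcases hlt c e hce with ⟨-, c2, -⟩ | ⟨-, c2, -⟩ | ⟨-, c2, -⟩ | ⟨-, e1, hec⟩ |
          ⟨-, e1⟩ | ⟨c2, -⟩
        · exact c2 c1
        · exact c2 c1
        · exact c2 c1
        · exact hold (Or.inl ⟨e1, c1, hec⟩) (Or.inl ⟨c1, b1, hcb⟩) (Or.inr (Or.inl ⟨b1, a2⟩))
        · exact e1 (by rw [show e = 2 * c - b by omega]; exact hcl c c1 b b1)
        · exact c2 (hS c c1)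
      · rcases hlt c e hce with ⟨c2, -⟩ | ⟨c2, -⟩ | ⟨c2, -⟩ | ⟨c2, -⟩ | ⟨c2, -⟩ | ⟨-, e1, hce'⟩
        · exact c1 c2
        · exact c1 c2
        · exact c1 c2
        · exact c1 (hS c c2)
        · exact c1 (hS c c2)
        · have h3 : T c b := hT.ap' (a := e) (b := c) (c := b) (by omega) hce'
          have h4 : T a b := hT.ap (a := c) (b := b) (c := a) (by omega) h3
          have h5 := hstar' b b1 a a1 h4 (by rwa [show 2 * b - a = c by omega])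
          exact e1 (by rw [show e = 3 * b - 2 * a by omega]; exact h5.1)
      · exact b2 (hS b b1)
    · rcases hlt b c hbc with ⟨b2, -⟩ | ⟨b2, -⟩ | ⟨b2, -⟩ | ⟨b2, -⟩ | ⟨b2, -⟩ | ⟨-, c1, hbc'⟩
      · exact b1 b2
      · exact b1 b2
      · exact b1 b2
      · exact b1 (hS b b2)
      · exact b1 (hS b b2)
      · rcases hlt c e hce with ⟨c2, -⟩ | ⟨c2, -⟩ | ⟨c2, -⟩ | ⟨c2, -⟩ | ⟨c2, -⟩ | ⟨-, e1, hce'⟩
        · exact c1 c2
        · exact c1 c2
        · exact c1 c2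
        · exact c1 (hS c c2)
        · exact c1 (hS c c2)
        · exact hT.asymm hbc' (hT.ap' (a := e) (b := c) (c := b) (by omega) hce')
    · have c1 : c ∈ S := by rw [show c = 2 * b - a by omega]; exact hcl b b1 a a1
      rcases hlt b c hbc with ⟨-, b2, -⟩ | ⟨-, b2, -⟩ | ⟨-, b2, -⟩ | ⟨-, c2, hcb⟩ |
        ⟨-, c2⟩ | ⟨b2, -⟩
      · exact b2 b1
      · exact b2 b1
      · exact b2 b1
      · rcases hlt c e hce with ⟨-, c3, -⟩ | ⟨-, c3, -⟩ | ⟨-, c3, -⟩ | ⟨-, e1, hec⟩ |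
          ⟨-, e1⟩ | ⟨c3, -⟩
        · exact c3 c2
        · exact c3 c2
        · exact c3 c2
        · exact hold (Or.inl ⟨e1, c2, hec⟩) (Or.inl ⟨c2, b1, hcb⟩) (Or.inl ⟨b1, a1, hba⟩)
        · exact e1 (by rw [show e = 2 * c - b by omega]; exact hcl c c2 b b1)
        · exact c3 c1
      · exact c2 c1
      · exact b2 (hS b b1)
    · rcases hlt b c hbc with ⟨b2, -⟩ | ⟨b2, -⟩ | ⟨b2, -⟩ | ⟨b2, -⟩ | ⟨b2, -⟩ | ⟨-, c1, hbc'⟩
      · exact b1 b2
      · exact b1 b2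
      · exact b1 b2
      · exact b1 (hS b b2)
      · exact b1 (hS b b2)
      · rcases hlt c e hce with ⟨c2, -⟩ | ⟨c2, -⟩ | ⟨c2, -⟩ | ⟨c2, -⟩ | ⟨c2, -⟩ | ⟨-, e1, hce'⟩
        · exact c1 c2
        · exact c1 c2
        · exact c1 c2
        · exact c1 (hS c c2)
        · exact c1 (hS c c2)
        · exact hT.asymm hbc' (hT.ap' (a := e) (b := c) (c := b) (by omega) hce')
    · rcases hlt b c hbc with ⟨b2, -⟩ | ⟨b2, -⟩ | ⟨b2, -⟩ | ⟨b2, -⟩ | ⟨b2, -⟩ | ⟨-, c1, hbc'⟩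
      · exact b1 b2
      · exact b1 b2
      · exact b1 b2
      · exact b1 (hS b b2)
      · exact b1 (hS b b2)
      · rcases hlt c e hce with ⟨c2, -⟩ | ⟨c2, -⟩ | ⟨c2, -⟩ | ⟨c2, -⟩ | ⟨c2, -⟩ | ⟨-, e1, hce'⟩
        · exact c1 c2
        · exact c1 c2
        · exact c1 c2
        · exact c1 (hS c c2)
        · exact c1 (hS c c2)
        · exact hT.asymm hbc' (hT.ap' (a := e) (b := c) (c := b) (by omega) hce')
  · intro x hx
    rw [hg1 x hx, hg2 y0 hy0']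
    have := hB x hx
    omega

structure St where
  P : Finset ℤ
  g : ℤ → ℤ
  R : ℤ → ℤ → Prop
  bin : Bin R
  inj : Set.InjOn g P
  good : Good P g R

theorem step2 (s : St) (t : ℤ) : ∃ s' : St, s.P ⊆ s'.P ∧ t ∈ s'.P ∧ (∀ x ∈ s.P, s'.g x = s.g x) ∧
    (∃ y ∈ s'.P, ∀ x ∈ s.P, s'.g y < s'.g x) ∧ (∃ y ∈ s'.P, ∀ x ∈ s.P, s'.g x < s'.g y) := by
  obtain ⟨S, g1, T, h1, h2, h3, h4, h5, h6, y, hy, h7⟩ := step s.bin s.inj s.good t
  obtain ⟨S', g2, T', h1', h2', h3', h4', -, h6', y', hy', h7'⟩ := step h1 h2 h3 t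
  refine ⟨⟨S', g2, T', h1', h2', h3'⟩, h4.trans h4', h4' h5, fun x hx => ?_,
    ⟨y', hy', fun x hx => h7' x (h4 hx)⟩, ⟨y, h4' hy, fun x hx => ?_⟩⟩
  · simp only [h6' x (h4 hx), h6 x hx, neg_neg]
  · have := h7 x hx
    simp only [h6' x (h4 hx), h6' y hy]
    omega

def St0 : St where
  P := ∅
  g := fun _ => 0
  R := R0
  bin := bin_R0
  inj := by simp
  good := by
    intro a b c e h1 h2 hab hbc hce
    simp only [LtS, Finset.notMem_empty, false_and, false_or, not_false_eq_true, true_and]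
      at hab hbc
    exact bin_R0.asymm (bin_R0.ap h1 hab) hbc

theorem exists_key : ∃ G : ℤ → ℤ, Function.Injective G ∧ (∀ x, ∃ y, G y < G x) ∧
    (∀ x, ∃ y, G x < G y) ∧ ∀ a b c e : ℤ, a + c = 2 * b → b + e = 2 * c →
      G a < G b → G b < G c → G c < G e → False := by
  classical
  choose nx h1 h2 h3 h4 h5 using step2
  let s : ℕ → St := fun n => Nat.rec St0 (fun n s => nx s (Denumerable.ofNat ℤ n)) n
  have hs : ∀ n, s (n + 1) = nx (s n) (Denumerable.ofNat ℤ n) := fun n => rfl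
  have hmono : ∀ m n, m ≤ n → ∀ x ∈ (s m).P, x ∈ (s n).P ∧ (s n).g x = (s m).g x := by
    intro m n hmn x hx
    induction n, hmn using Nat.le_induction with
    | base => exact ⟨hx, rfl⟩
    | succ n _ ih =>
      rw [hs]
      exact ⟨h1 _ _ ih.1, (h3 _ _ x ih.1).trans ih.2⟩
  have hex : ∀ x : ℤ, ∃ n, x ∈ (s n).P := by
    intro x
    refine ⟨Encodable.encode x + 1, ?_⟩
    have := h2 (s (Encodable.encode x)) (Denumerable.ofNat ℤ (Encodable.encode x))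
    rw [← hs, Denumerable.ofNat_encode] at this
    exact this
  choose n hn using hex
  let G : ℤ → ℤ := fun x => (s (n x)).g x
  have hG : ∀ m, ∀ x ∈ (s m).P, G x = (s m).g x := by
    intro m x hx
    rcases le_total m (n x) with h | h
    · exact (hmono m (n x) h x hx).2
    · exact (hmono (n x) m h x (hn x)).2.symm
  refine ⟨G, ?_, ?_, ?_, ?_⟩
  · intro x y h
    have hx := (hmono (n x) (n x + n y) (by omega) x (hn x)).1
    have hy := (hmono (n y) (n x + n y) (by omega) y (hn y)).1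
    rw [hG _ x hx, hG _ y hy] at h
    exact (s _).inj hx hy h
  · intro x
    obtain ⟨y, hy, h⟩ := h4 (s (n x)) (Denumerable.ofNat ℤ (n x))
    rw [← hs] at hy h
    refine ⟨y, ?_⟩
    rw [hG (n x + 1) y hy, hG (n x + 1) x (hmono (n x) (n x + 1) (by omega) x (hn x)).1]
    exact h x (hn x)
  · intro x
    obtain ⟨y, hy, h⟩ := h5 (s (n x)) (Denumerable.ofNat ℤ (n x))
    rw [← hs] at hy h
    refine ⟨y, ?_⟩
    rw [hG (n x + 1) y hy, hG (n x + 1) x (hmono (n x) (n x + 1) (by omega) x (hn x)).1]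
    exact h x (hn x)
  · intro a b c e h6 h7 hab hbc hce
    have ha := (hmono (n a) (n a + n b + n c + n e) (by omega) a (hn a)).1
    have hb := (hmono (n b) (n a + n b + n c + n e) (by omega) b (hn b)).1
    have hc := (hmono (n c) (n a + n b + n c + n e) (by omega) c (hn c)).1
    have he := (hmono (n e) (n a + n b + n c + n e) (by omega) e (hn e)).1
    rw [hG _ a ha, hG _ b hb] at hab
    rw [hG _ b hb, hG _ c hc] at hbc
    rw [hG _ c hc, hG _ e he] at hce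
    exact (s _).good a b c e h6 h7 (Or.inl ⟨ha, hb, hab⟩) (Or.inl ⟨hb, hc, hbc⟩)
      (Or.inl ⟨hc, he, hce⟩)

theorem exists_enum (G : ℤ → ℤ) (hG : Function.Injective G) (h1 : ∀ x, ∃ y, G y < G x)
    (h2 : ∀ x, ∃ y, G x < G y) :
    ∃ f : ℤ → ℤ, Function.Bijective f ∧ ∀ i j, i < j → G (f i) < G (f j) := by
  classical
  let A := Set.range G
  have : NoMaxOrder A := ⟨by
    rintro ⟨_, x, rfl⟩
    obtain ⟨y, hy⟩ := h2 x
    exact ⟨⟨G y, y, rfl⟩, hy⟩⟩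
  have : NoMinOrder A := ⟨by
    rintro ⟨_, x, rfl⟩
    obtain ⟨y, hy⟩ := h1 x
    exact ⟨⟨G y, y, rfl⟩, hy⟩⟩
  have : Nonempty A := ⟨⟨G 0, 0, rfl⟩⟩
  let : SuccOrder A := LinearLocallyFiniteOrder.succOrder A
  let : PredOrder A := LinearLocallyFiniteOrder.predOrder A
  let e : A ≃o ℤ := orderIsoIntOfLinearSuccPredArch
  let u : ℤ ≃ A := Equiv.ofInjective G hG
  refine ⟨fun i => u.symm (e.symm i), (e.symm.toEquiv.trans u.symm).bijective, fun i j hij => ?_⟩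
  have h3 : ∀ a : A, G (u.symm a) = a := fun a => Equiv.apply_ofInjective_symm hG a
  rw [h3, h3]
  exact e.symm.strictMono hij

theorem main_dbl : ∃ f : ℤ → ℤ, Function.Bijective f ∧
    ∀ i j k l : ℤ, i < j → j < k → k < l →
      ¬ (f j - f i = f k - f j ∧ f k - f j = f l - f k) := by
  obtain ⟨G, h1, h2, h3, h4⟩ := exists_key
  obtain ⟨f, h5, h6⟩ := exists_enum G h1 h2 h3
  refine ⟨f, h5, fun i j k l hij hjk hkl h => ?_⟩
  exact h4 (f i) (f j) (f k) (f l) (by omega) (by omega) (h6 i j hij) (h6 j k hjk) (h6 k l hkl)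

end Pool.Agent.H409Z
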