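import Mathlib

set_option autoImplicit false
set_option maxHeartbeats 400000

/-! Countable weak pi-bases for unit balls of spaces with a 1-unconditional basis. -/

namespace Pool.Agent.H409Z.PiB

open Filter Topology Finset

variable {X : Type} [NormedAddCommGroup X] [NormedSpace ℝ X] {e : ℕ → X}

theorem flip_le (hs : ∀ (s : Finset ℕ) (a ε : ℕ → ℝ), (∀ n, ε n = 1 ∨ ε n = -1) →
      ‖∑ n ∈ s, (ε n * a n) • e n‖ ≤ ‖∑ n ∈ s, a n • e n‖)
    {c : ℕ → ℝ} {x : X} (h : HasSum (fun n => c n • e n) x) (s : Finset ℕ) :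
    ‖(2 : ℝ) • ∑ n ∈ s, c n • e n - x‖ ≤ ‖x‖ := by
  classical
  have h1 := h.tendsto_sum_nat
  have h2 : Tendsto (fun M => ‖(2 : ℝ) • ∑ n ∈ s, c n • e n - ∑ n ∈ range M, c n • e n‖) atTop
      (𝓝 ‖(2 : ℝ) • ∑ n ∈ s, c n • e n - x‖) := (tendsto_const_nhds.sub h1).norm
  refine le_of_tendsto_of_tendsto h2 h1.norm ?_
  obtain ⟨N, hN⟩ := s.exists_nat_subset_range
  filter_upwards [eventually_ge_atTop N] with M hM
  have h3 : s ⊆ range M := hN.trans (range_mono hM)
  have h4 := hs (range M) c (fun n => if n ∈ s then 1 else -1) (fun n => by split_ifs <;> simp)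
  have h5 : ∑ n ∈ range M, ((if n ∈ s then (1 : ℝ) else -1) * c n) • e n =
      (2 : ℝ) • ∑ n ∈ s, c n • e n - ∑ n ∈ range M, c n • e n := by
    have h6 : ∑ n ∈ s, c n • e n = ∑ n ∈ range M, if n ∈ s then c n • e n else 0 := by
      rw [← Finset.sum_filter, Finset.filter_mem_eq_inter, Finset.inter_eq_right.mpr h3]
    rw [h6, Finset.smul_sum, ← Finset.sum_sub_distrib]
    refine Finset.sum_congr rfl fun n _ => ?_
    split_ifs
    · rw [one_mul, two_smul, add_sub_cancel_right]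
    · rw [neg_one_mul, neg_smul, smul_zero, zero_sub]
  rwa [h5] at h4

theorem proj_le (hs : ∀ (s : Finset ℕ) (a ε : ℕ → ℝ), (∀ n, ε n = 1 ∨ ε n = -1) →
      ‖∑ n ∈ s, (ε n * a n) • e n‖ ≤ ‖∑ n ∈ s, a n • e n‖)
    {c : ℕ → ℝ} {x : X} (h : HasSum (fun n => c n • e n) x) (s : Finset ℕ) :
    ‖∑ n ∈ s, c n • e n‖ ≤ ‖x‖ := by
  have h1 := flip_le hs h s
  have h2 := norm_add_le ((2 : ℝ) • ∑ n ∈ s, c n • e n - x) x
  rw [sub_add_cancel, norm_smul, Real.norm_two] at h2
  linarith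

theorem exists_coord (hb : ∀ x : X, ∃! a : ℕ → ℝ, HasSum (fun n => a n • e n) x)
    (hs : ∀ (s : Finset ℕ) (a ε : ℕ → ℝ), (∀ n, ε n = 1 ∨ ε n = -1) →
      ‖∑ n ∈ s, (ε n * a n) • e n‖ ≤ ‖∑ n ∈ s, a n • e n‖) :
    ∃ a : ℕ → X →L[ℝ] ℝ, (∀ x, HasSum (fun n => a n x • e n) x) ∧
      ∀ i j, a i (e j) = if i = j then 1 else 0 := by
  classical
  choose c hc hu using fun x => (hb x)
  have hsing : ∀ j, HasSum (fun n => (if n = j then (1 : ℝ) else 0) • e n) (e j) := by
    intro j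
    have := hasSum_single (f := fun n => (if n = j then (1 : ℝ) else 0) • e n) j
      (fun n hn => by simp [hn])
    simpa using this
  have he : ∀ j, e j ≠ 0 := by
    intro j h0
    have h1 := hu (e j) _ (hsing j)
    have h2 := hu (e j) (fun _ => 0) (by simpa [h0] using (hasSum_zero (α := X) (β := ℕ)))
    have := congrFun (h1.trans h2.symm) j
    simp at this
  let L : ℕ → X →ₗ[ℝ] ℝ := fun n =>
    { toFun := fun x => c x n
      map_add' := fun x y => by
        have := hu (x + y) (fun n => c x n + c y n)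
          (by simpa [add_smul] using (hc x).add (hc y))
        exact (congrFun this n).symm
      map_smul' := fun r x => by
        have := hu (r • x) (fun n => r * c x n)
          (by simpa [mul_smul] using (hc x).const_smul r)
        exact (congrFun this n).symm }
  refine ⟨fun n => (L n).mkContinuous (‖e n‖⁻¹) fun x => ?_, fun x => hc x, fun i j => ?_⟩
  · have h1 := proj_le hs (hc x) {n}
    rw [Finset.sum_singleton, norm_smul] at h1
    have h2 : 0 < ‖e n‖ := norm_pos_iff.mpr (he n)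
    rw [inv_mul_eq_div, le_div_iff₀ h2]
    exact h1
  · exact (congrFun (hu (e j) _ (hsing j)) i).symm

theorem key (hs : ∀ (s : Finset ℕ) (a ε : ℕ → ℝ), (∀ n, ε n = 1 ∨ ε n = -1) →
      ‖∑ n ∈ s, (ε n * a n) • e n‖ ≤ ‖∑ n ∈ s, a n • e n‖)
    (a : ℕ → X →L[ℝ] ℝ) (ha : ∀ x, HasSum (fun n => a n x • e n) x)
    (hδ : ∀ i j, a i (e j) = if i = j then 1 else 0) {ι : Type} [Fintype ι]
    (T : X →L[ℝ] (ι → ℝ)) (x0 : X) (hx0 : ‖x0‖ ≤ 1) {ε : ℝ} (hε : 0 < ε) :
    ∃ (x : X) (N : ℕ) (δ : ℝ), ‖x‖ ≤ 1 ∧ 0 < δ ∧ ∀ y : X, ‖y‖ ≤ 1 →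
      ‖∑ j ∈ range N, a j y • e j - ∑ j ∈ range N, a j x • e j‖ < δ → ‖T y - T x0‖ < 3 * ε := by
  classical
  let P : ℕ → X → X := fun N x => ∑ j ∈ range N, a j x • e j
  have hPa : ∀ N x i, a i (P N x) = if i < N then a i x else 0 := by
    intro N x i
    simp only [P, map_sum, map_smul, hδ, smul_eq_mul, mul_ite, mul_one, mul_zero]
    rw [Finset.sum_ite_eq]
    simp
  have hP1 : ∀ N x, ‖P N x‖ ≤ ‖x‖ := fun N x => proj_le hs (ha x) _
  have hP2 : ∀ N x, ‖(2 : ℝ) • P N x - x‖ ≤ ‖x‖ := fun N x => flip_le hs (ha x) _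
  have hPt : ∀ x, Tendsto (fun N => T (P N x)) atTop (𝓝 (T x)) := fun x =>
    (T.continuous.tendsto x).comp (ha x).tendsto_sum_nat
  have hext : ∀ u v : X, (∀ i, a i u = a i v) → u = v := fun u v h =>
    (ha u).unique (by simpa only [h] using ha v)
  let G : ℕ → X → ℝ := fun N x => ∑ j ∈ range N, |a j x| * ‖T (e j)‖
  obtain ⟨C, hC0, hC⟩ : ∃ C : ℝ, 0 ≤ C ∧ ∀ N x, ‖x‖ ≤ 1 → G N x ≤ C := by
    refine ⟨Fintype.card ι * ‖T‖, by positivity, fun N x hx => ?_⟩
    have h1 : ∀ j, ‖T (e j)‖ ≤ ∑ i, |T (e j) i| := fun j =>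
      (pi_norm_le_iff_of_nonneg (Finset.sum_nonneg fun i _ => abs_nonneg _)).mpr fun i =>
        Finset.single_le_sum (f := fun i => |T (e j) i|) (fun i _ => abs_nonneg _) (mem_univ i)
    have h2 : ∀ i, ∑ j ∈ range N, |a j x| * |T (e j) i| ≤ ‖T‖ := by
      intro i
      let θ : ℕ → ℝ := fun j => if 0 ≤ a j x * T (e j) i then 1 else -1
      have h3 := hs (range N) (fun j => a j x) θ (fun n => by simp only [θ]; split_ifs <;> simp)
      have h4 : ∑ j ∈ range N, |a j x| * |T (e j) i| =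
          T (∑ j ∈ range N, (θ j * a j x) • e j) i := by
        rw [map_sum, Finset.sum_apply]
        refine Finset.sum_congr rfl fun j _ => ?_
        rw [map_smul, Pi.smul_apply, smul_eq_mul, ← abs_mul]
        simp only [θ]
        split_ifs with h
        · rw [abs_of_nonneg h, one_mul]
        · rw [abs_of_neg (not_le.mp h)]; ring
      rw [h4]
      refine (le_abs_self _).trans ((norm_le_pi_norm _ i).trans ((T.le_opNorm _).trans ?_))
      have h5 := (h3.trans (hP1 N x)).trans hx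
      exact mul_le_of_le_one_right (norm_nonneg _) h5
    calc G N x ≤ ∑ j ∈ range N, |a j x| * ∑ i, |T (e j) i| :=
          Finset.sum_le_sum fun j _ => mul_le_mul_of_nonneg_left (h1 j) (abs_nonneg _)
      _ = ∑ i, ∑ j ∈ range N, |a j x| * |T (e j) i| := by
          rw [Finset.sum_comm]
          exact Finset.sum_congr rfl fun j _ => Finset.mul_sum _ _ _
      _ ≤ ∑ _i : ι, ‖T‖ := Finset.sum_le_sum fun i _ => h2 i
      _ = Fintype.card ι * ‖T‖ := by simp
  let S : Set ℝ := {r | ∃ N x, P N x = x ∧ ‖x‖ ≤ 1 ∧ ‖T x - T x0‖ < ε ∧ r = G N x}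
  have hSb : BddAbove S := ⟨C, by rintro _ ⟨N, x, -, h, -, rfl⟩; exact hC N x h⟩
  have hSn : S.Nonempty := by
    obtain ⟨N, hN⟩ := ((Metric.tendsto_nhds.mp (hPt x0)) ε hε).exists
    refine ⟨_, N, P N x0, hext _ _ fun i => ?_, (hP1 N x0).trans hx0,
      by rwa [dist_eq_norm] at hN, rfl⟩
    rw [hPa, hPa]
    split_ifs <;> rfl
  obtain ⟨_, ⟨N0, x, hx1, hx2, hx3, rfl⟩, hx4⟩ :=
    exists_lt_of_lt_csSup hSn (show sSup S - ε / 8 < sSup S by linarith)
  have hxa : ∀ i, N0 ≤ i → a i x = 0 := fun i hi => by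
    rw [← hx1, hPa, if_neg (by omega)]
  have hxP : ∀ N, N0 ≤ N → P N x = x := fun N hN => hext _ _ fun i => by
    rw [hPa]
    split_ifs with h
    · rfl
    · exact (hxa i (by omega)).symm
  set η := ε - ‖T x - T x0‖ with hη
  have hη0 : 0 < η := by linarith
  obtain ⟨δ, hδ0, hδ1, hδ2, hδ3⟩ : ∃ δ : ℝ, 0 < δ ∧ δ * ‖T‖ < ε ∧ δ * ‖T‖ < η / 2 ∧
      δ * C < ε / 8 := by
    have h1 : Tendsto (fun δ : ℝ => δ * ‖T‖) (𝓝[>] 0) (𝓝 0) := by
      have : Tendsto (fun δ : ℝ => δ * ‖T‖) (𝓝 0) (𝓝 (0 * ‖T‖)) :=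
        (continuous_id.mul continuous_const).tendsto 0
      rw [zero_mul] at this
      exact this.mono_left nhdsWithin_le_nhds
    have h2 : Tendsto (fun δ : ℝ => δ * C) (𝓝[>] 0) (𝓝 0) := by
      have : Tendsto (fun δ : ℝ => δ * C) (𝓝 0) (𝓝 (0 * C)) :=
        (continuous_id.mul continuous_const).tendsto 0
      rw [zero_mul] at this
      exact this.mono_left nhdsWithin_le_nhds
    have h0 : ∀ᶠ δ in 𝓝[>] (0 : ℝ), 0 < δ := self_mem_nhdsWithin
    exact (h0.and
      ((h1.eventually (gt_mem_nhds hε)).and ((h1.eventually (gt_mem_nhds (by linarith))).and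
        (h2.eventually (gt_mem_nhds (by linarith)))))).exists
  by_contra hcon
  push Not at hcon
  have hz : ∀ N, N0 ≤ N → ∃ (M : ℕ) (z : X), N ≤ M ∧ (∀ i, i < N ∨ M ≤ i → a i z = 0) ∧
      ‖x + z‖ ≤ 1 + δ ∧ ε / 2 < ‖T z‖ := by
    intro N hN
    obtain ⟨y, hy1, hy2, hy3⟩ := hcon x N δ hx2 hδ0
    change ‖P N y - P N x‖ < δ at hy2
    rw [hxP N hN] at hy2
    have h1 : ‖T (P N y) - T x‖ < ε := by
      rw [← map_sub]
      refine lt_of_le_of_lt (T.le_opNorm _) (lt_of_le_of_lt ?_ hδ1)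
      rw [mul_comm]
      exact mul_le_mul_of_nonneg_right hy2.le (norm_nonneg _)
    obtain ⟨M, hM1, hM2⟩ := (((Metric.tendsto_nhds.mp (hPt y)) (ε / 2) (by linarith)).and
      (eventually_ge_atTop N)).exists
    rw [dist_eq_norm] at hM1
    refine ⟨M, P M y - P N y, hM2, fun i hi => ?_, ?_, ?_⟩
    · rw [map_sub, hPa, hPa]
      rcases hi with hi | hi
      · rw [if_pos hi, if_pos (by omega), sub_self]
      · rw [if_neg (by omega), if_neg (by omega), sub_self]
    · have h2 : x + (P M y - P N y) = P M y - (P N y - x) := by abel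
      rw [h2]
      have := norm_sub_le (P M y) (P N y - x)
      linarith [hP1 M y]
    · have h2 : T y - T x0 = T (P M y - P N y) - (T (P M y) - T y) + (T (P N y) - T x) +
          (T x - T x0) := by
        rw [map_sub]; abel
      have h3 := norm_add_le (T (P M y - P N y) - (T (P M y) - T y) + (T (P N y) - T x))
        (T x - T x0)
      have h4 := norm_add_le (T (P M y - P N y) - (T (P M y) - T y)) (T (P N y) - T x)
      have h5 := norm_sub_le (T (P M y - P N y)) (T (P M y) - T y)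
      rw [← h2] at h3
      linarith
  choose! M z hz1 hz2 hz3 hz4 using hz
  have hzb : ∀ n, T (z (N0 + n)) ∈ Metric.closedBall (0 : ι → ℝ) (‖T‖ * (2 + δ)) := by
    intro n
    rw [mem_closedBall_zero_iff]
    refine (T.le_opNorm _).trans (mul_le_mul_of_nonneg_left ?_ (norm_nonneg _))
    have := norm_sub_le (x + z (N0 + n)) x
    rw [add_sub_cancel_left] at this
    linarith [hz3 (N0 + n) (by omega)]
  obtain ⟨p, -, φ, hφ, hp⟩ := (isCompact_closedBall _ _).tendsto_subseq hzb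
  have hev := (Metric.tendsto_nhds.mp hp) (η / 2) (by linarith)
  obtain ⟨k1, hk1⟩ := hev.exists
  obtain ⟨k2, hk2, hk3⟩ := (hev.and (hφ.tendsto_atTop.eventually
    (eventually_ge_atTop (M (N0 + φ k1))))).exists
  simp only [Function.comp, dist_eq_norm] at hk1 hk2
  set N1 := N0 + φ k1
  set N2 := N0 + φ k2
  have hN1 : N0 ≤ N1 := by omega
  have hN2 : N0 ≤ N2 := by omega
  have hM12 : M N1 ≤ N2 := by omega
  have h12 := hz1 N1 hN1
  have h22 := hz1 N2 hN2
  have hm : ‖x - z N2‖ ≤ 1 + δ := by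
    have h1 : P N2 (x + z N2) = x := hext _ _ fun i => by
      rw [hPa]
      split_ifs with h
      · rw [map_add, hz2 N2 hN2 i (Or.inl h), add_zero]
      · exact (hxa i (by omega)).symm
    have h2 := hP2 N2 (x + z N2)
    rw [h1, two_smul, add_sub_add_left_eq_sub] at h2
    exact h2.trans (hz3 N2 hN2)
  let w : X := x + (1 / 2 : ℝ) • (z N1 - z N2)
  have hw : ‖w‖ ≤ 1 + δ := by
    have h1 : w = (1 / 2 : ℝ) • ((x + z N1) + (x - z N2)) := by
      simp only [w]
      module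
    rw [h1, norm_smul, Real.norm_of_nonneg (by norm_num)]
    have := norm_add_le (x + z N1) (x - z N2)
    linarith [hz3 N1 hN1]
  have hδp : 0 < 1 + δ := by linarith
  let u : X := (1 + δ)⁻¹ • w
  have hu1 : ‖u‖ ≤ 1 := by
    rw [norm_smul, Real.norm_of_nonneg (by positivity), inv_mul_le_iff₀ hδp]
    linarith
  have hwu : w = u + δ • u := by
    have : (1 + δ) • u = w := by
      simp only [u]
      rw [smul_smul, mul_inv_cancel₀ hδp.ne', one_smul]
    rw [← this, add_smul, one_smul]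
  have hmem : G (M N2) u ∈ S := by
    refine ⟨M N2, u, hext _ _ fun i => ?_, hu1, ?_, rfl⟩
    · rw [hPa]
      split_ifs with h
      · rfl
      · simp only [u, w, map_smul, map_add, map_sub]
        rw [hxa i (by omega), hz2 N1 hN1 i (Or.inr (by omega)), hz2 N2 hN2 i (Or.inr (by omega))]
        simp
    · have h1 : T u - T x0 = (T x - T x0) + (1 / 2 : ℝ) • ((T (z N1) - p) - (T (z N2) - p)) -
          δ • T u := by
        have h2 : T w = T u + δ • T u := by
          rw [← T.map_smul δ u, ← map_add, ← hwu]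
        have h3 : T w = T x + (1 / 2 : ℝ) • (T (z N1) - T (z N2)) := by
          simp only [w, map_add, map_smul, map_sub]
        rw [sub_sub_sub_cancel_right, sub_add_eq_add_sub, ← h3, h2]
        abel
      have h3 := norm_sub_le ((T x - T x0) + (1 / 2 : ℝ) • ((T (z N1) - p) - (T (z N2) - p)))
        (δ • T u)
      have h4 := norm_add_le (T x - T x0) ((1 / 2 : ℝ) • ((T (z N1) - p) - (T (z N2) - p)))
      have h5 := norm_sub_le (T (z N1) - p) (T (z N2) - p)
      rw [norm_smul, Real.norm_of_nonneg (by norm_num)] at h4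
      rw [← h1, norm_smul, Real.norm_of_nonneg hδ0.le] at h3
      have h6 : ‖T u‖ ≤ ‖T‖ := (T.le_opNorm u).trans (mul_le_of_le_one_right (norm_nonneg _) hu1)
      have h7 : δ * ‖T u‖ ≤ δ * ‖T‖ := mul_le_mul_of_nonneg_left h6 hδ0.le
      linarith
  have hle : G (M N2) u ≤ sSup S := le_csSup hSb hmem
  have hGw : G (M N2) w = (1 + δ) * G (M N2) u := by
    simp only [G]
    rw [Finset.mul_sum]
    refine Finset.sum_congr rfl fun j _ => ?_
    have h1 : a j w = (1 + δ) * a j u := by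
      have h2 : a j w = a j u + δ • a j u := by
        rw [← (a j).map_smul δ u, ← map_add, ← hwu]
      rw [smul_eq_mul] at h2
      linarith
    rw [h1, abs_mul, abs_of_pos hδp, mul_assoc]
  have hlow : G N0 x + ε / 4 ≤ G (M N2) w := by
    have h1 : ‖T (z N1)‖ ≤ ∑ j ∈ Ico N1 (M N1), |a j (z N1)| * ‖T (e j)‖ := by
      have h2 : z N1 = ∑ j ∈ Ico N1 (M N1), a j (z N1) • e j := by
        refine (ha (z N1)).unique (hasSum_sum_of_ne_finset_zero fun j hj => ?_)
        rw [hz2 N1 hN1 j (by rw [mem_Ico] at hj; omega), zero_smul]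
      conv_lhs => rw [h2, map_sum]
      refine (norm_sum_le _ _).trans (le_of_eq (Finset.sum_congr rfl fun j _ => ?_))
      rw [map_smul, norm_smul, Real.norm_eq_abs]
    have h3 : G N0 x = ∑ j ∈ range N0, |a j w| * ‖T (e j)‖ := by
      refine Finset.sum_congr rfl fun j hj => ?_
      rw [mem_range] at hj
      simp only [w, map_add, map_smul, map_sub]
      rw [hz2 N1 hN1 j (Or.inl (by omega)), hz2 N2 hN2 j (Or.inl (by omega))]
      simp
    have h4 : ∑ j ∈ Ico N1 (M N1), |a j w| * ‖T (e j)‖ =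
        1 / 2 * ∑ j ∈ Ico N1 (M N1), |a j (z N1)| * ‖T (e j)‖ := by
      rw [Finset.mul_sum]
      refine Finset.sum_congr rfl fun j hj => ?_
      rw [mem_Ico] at hj
      simp only [w, map_add, map_smul, map_sub]
      rw [hxa j (by omega), hz2 N2 hN2 j (Or.inl (by omega)), sub_zero, zero_add, smul_eq_mul,
        abs_mul, abs_of_pos (by norm_num : (0 : ℝ) < 1 / 2), mul_assoc]
    have h5 : ∑ j ∈ range N0 ∪ Ico N1 (M N1), |a j w| * ‖T (e j)‖ ≤ G (M N2) w := by
      refine Finset.sum_le_sum_of_subset_of_nonneg (fun j hj => ?_) fun j _ _ => by positivity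
      simp only [mem_union, mem_range, mem_Ico] at hj ⊢
      omega
    rw [Finset.sum_union (by
      rw [Finset.disjoint_left]
      intro j hj hj'
      simp only [mem_range, mem_Ico] at hj hj'
      omega), ← h3, h4] at h5
    linarith [hz4 N1 hN1]
  have h9 : δ * G (M N2) u ≤ δ * C := mul_le_mul_of_nonneg_left (hC _ _ hu1) hδ0.le
  nlinarith

theorem main_pib [CompleteSpace X]
    (hb : ∀ x : X, ∃! a : ℕ → ℝ, HasSum (fun n => a n • e n) x)
    (hs : ∀ (s : Finset ℕ) (a ε : ℕ → ℝ), (∀ n, ε n = 1 ∨ ε n = -1) →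
      ‖∑ n ∈ s, (ε n * a n) • e n‖ ≤ ‖∑ n ∈ s, a n • e n‖) :
    ∃ U : ℕ → Set (WeakSpace ℝ X),
      (∀ n, IsOpen (U n) ∧
          (U n ∩ (toWeakSpace ℝ X) '' Metric.closedBall (0 : X) 1).Nonempty) ∧
      ∀ V : Set (WeakSpace ℝ X), IsOpen V →
        (V ∩ (toWeakSpace ℝ X) '' Metric.closedBall (0 : X) 1).Nonempty →
          ∃ n, U n ∩ (toWeakSpace ℝ X) '' Metric.closedBall (0 : X) 1 ⊆ V := by
  classical
  obtain ⟨a, ha, hδ⟩ := exists_coord hb hs
  let A : WeakSpace ℝ X → ℕ → ℝ := fun y n => a n ((toWeakSpace ℝ X).symm y)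
  have hA : Continuous A := continuous_pi fun n =>
    WeakBilin.eval_continuous (topDualPairing ℝ X).flip (a n)
  let B : Set (WeakSpace ℝ X) := (toWeakSpace ℝ X) '' Metric.closedBall (0 : X) 1
  let D : Set (Set (ℕ → ℝ)) :=
    insert Set.univ {b ∈ TopologicalSpace.countableBasis (ℕ → ℝ) | (A ⁻¹' b ∩ B).Nonempty}
  have hD : D.Countable :=
    ((TopologicalSpace.countable_countableBasis _).mono (Set.sep_subset _ _)).insert _
  obtain ⟨u, hu⟩ := hD.exists_eq_range (Set.insert_nonempty _ _)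
  refine ⟨fun n => A ⁻¹' u n, fun n => ?_, ?_⟩
  · have h1 : u n ∈ D := hu ▸ Set.mem_range_self n
    rcases h1 with h1 | h1
    · simp only [h1]
      exact ⟨isOpen_univ, toWeakSpace ℝ X 0, trivial, 0, by simp, rfl⟩
    · exact ⟨(TopologicalSpace.isOpen_of_mem_countableBasis h1.1).preimage hA, h1.2⟩
  · rintro V hV ⟨_, hx0V, x0, hx0, rfl⟩
    obtain ⟨W, hW, hWV⟩ := isOpen_induced_iff.mp hV
    rw [← hWV] at hx0V
    obtain ⟨I, v, hv1, hv2⟩ := isOpen_pi_iff.mp hW _ hx0V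
    let T : X →L[ℝ] (I → ℝ) := ContinuousLinearMap.pi fun f : I => (f : X →L[ℝ] ℝ)
    have hO : IsOpen (Set.pi Set.univ fun f : I => v f) :=
      isOpen_set_pi Set.finite_univ fun f _ => (hv1 f f.2).1
    obtain ⟨ε, hε, hball⟩ := Metric.isOpen_iff.mp hO (T x0) fun f _ => (hv1 f f.2).2
    obtain ⟨x, N, δ, hx, hδ0, hy⟩ := key hs a ha hδ T x0 (by simpa using hx0)
      (show 0 < ε / 3 by linarith)
    have hO' : IsOpen {c : ℕ → ℝ |
        ‖∑ j ∈ range N, c j • e j - ∑ j ∈ range N, a j x • e j‖ < δ} :=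
      isOpen_lt (by fun_prop) continuous_const
    obtain ⟨b, hb1, hb2, hb3⟩ := (TopologicalSpace.isBasis_countableBasis (ℕ → ℝ)).exists_subset_of_mem_open
      (show A (toWeakSpace ℝ X x) ∈ _ by simpa [A] using hδ0) hO'
    have h1 : b ∈ D := Or.inr ⟨hb1, toWeakSpace ℝ X x, hb2, x, by simpa using hx, rfl⟩
    rw [hu] at h1
    obtain ⟨n, rfl⟩ := h1
    refine ⟨n, ?_⟩
    rintro _ ⟨h2, y, h3, rfl⟩
    have h4 := hy y (by simpa using h3) (by simpa [A] using hb3 h2)
    have h5 := hball (show T y ∈ Metric.ball (T x0) ε by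
      rw [mem_ball_iff_norm]; linarith)
    rw [← hWV]
    exact hv2 fun f hf => h5 ⟨f, hf⟩ trivial

end Pool.Agent.H409Z.PiB
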