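import Mathlib
import Pool.Agent.H409Z.Bin

set_option autoImplicit false

/-!
A one-sided arrangement of the positive integers without monotone four-term progressions.
-/

namespace Pool.Agent.H409Z

def GoodP (P : Finset ℤ) (g : ℤ → ℤ) (R : ℤ → ℤ → Prop) : Prop :=
  ∀ a b c e : ℤ, 0 < a → 0 < b → 0 < c → 0 < e → a + c = 2 * b → b + e = 2 * c →
    LtS P g R a b → LtS P g R b c → LtS P g R c e → False

theorem exists_SP (ρ : ℤ → ℕ) (K : ℕ) (hρ : ∀ x, ρ x ≤ K) (α : ℤ) (hα : 0 ≤ α) :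
    ∃ S : Finset ℤ, (∀ x ∈ S, 0 < x) ∧ (∀ x, 0 < x → x ≤ α → x ∈ S) ∧
      ∀ b ∈ S, ∀ x, 0 < x → x ≤ 2 * b → ρ x < ρ b → x ∈ S := by
  classical
  refine ⟨(Finset.Icc 1 (α * 2 ^ K)).filter (fun x => x ≤ α * 2 ^ (K - ρ x)), ?_, ?_, ?_⟩
  · intro x hx
    simp only [Finset.mem_filter, Finset.mem_Icc] at hx
    omega
  · intro x h0 h1
    have h2 : ∀ m : ℕ, α ≤ α * 2 ^ m := fun m =>
      le_mul_of_one_le_right hα (one_le_pow₀ (by norm_num))
    simp only [Finset.mem_filter, Finset.mem_Icc]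
    exact ⟨⟨h0, h1.trans (h2 _)⟩, h1.trans (h2 _)⟩
  · intro b hb x h0 h1 h2
    simp only [Finset.mem_filter, Finset.mem_Icc] at hb ⊢
    have h3 := hρ b
    have h4 : (2 : ℤ) ^ (K - ρ b + 1) ≤ 2 ^ (K - ρ x) :=
      pow_le_pow_right₀ (by norm_num) (by omega)
    have h5 : (2 : ℤ) ^ (K - ρ x) ≤ 2 ^ K := pow_le_pow_right₀ (by norm_num) (by omega)
    have h6 : x ≤ α * 2 ^ (K - ρ x) := by
      have := mul_le_mul_of_nonneg_left h4 hα
      rw [pow_succ] at this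
      nlinarith [hb.2]
    exact ⟨⟨h0, h6.trans (mul_le_mul_of_nonneg_left h5 hα)⟩, h6⟩

theorem rk_lt_ap {R : ℤ → ℤ → Prop} (hR : Bin R) (k : ℕ) {a b c : ℤ} (hac : a + c = 2 * b)
    (h1 : ¬ (2 : ℤ) ^ k ∣ b - a) (h2 : R a b) : rk R k c < rk R k b := by
  refine rk_lt hR k (fun h => h1 ?_) (hR.ap hac h2)
  have := h.neg_right
  rwa [show -(b - c) = b - a by omega] at this

theorem stepP {P : Finset ℤ} {g : ℤ → ℤ} {R : ℤ → ℤ → Prop} (hR : Bin R) (hpos : ∀ x ∈ P, 0 < x)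
    (hg0 : ∀ x ∈ P, 0 ≤ g x) (hg : Set.InjOn g P) (hgood : GoodP P g R) (t : ℤ) (ht : 0 < t) :
    ∃ (S : Finset ℤ) (g' : ℤ → ℤ) (T : ℤ → ℤ → Prop), Bin T ∧ (∀ x ∈ S, 0 < x) ∧
      (∀ x ∈ S, 0 ≤ g' x) ∧ Set.InjOn g' S ∧ GoodP S g' T ∧
      P ⊆ S ∧ t ∈ S ∧ (∀ x ∈ P, g' x = g x) := by
  classical
  obtain ⟨D, k, hD0, hD, hsep⟩ := exists_sep P
  let T : ℤ → ℤ → Prop := glue R k (fun c x y => R0 (x - cen P k c) (y - cen P k c))
  have hT : Bin T := bin_glue hR k (fun c => bin_R0.shift _)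
    (fun x y h => by simp only [cen_congr P k h])
  let U : ℤ → ℤ → Prop := glue R k (fun c x y => R0 (y - cen P k c) (x - cen P k c))
  have hU : Bin U := bin_glue hR k (fun c => (bin_R0.shift _).rev)
    (fun x y h => by simp only [cen_congr P k h])
  have hTU : ∀ x y, (2 : ℤ) ^ k ∣ y - x → U x y → T y x := by
    rintro x y h (⟨h1, -⟩ | ⟨-, h1⟩)
    · exact absurd h h1
    · refine Or.inr ⟨dvd_symm h, ?_⟩
      simp only [cen_congr P k h]
      exact h1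
  have hTR : ∀ x y, ¬ (2 : ℤ) ^ k ∣ y - x → T x y → R x y := by
    rintro x y h (⟨-, h1⟩ | ⟨h1, -⟩)
    · exact h1
    · exact absurd h1 h
  have hUR : ∀ x y, ¬ (2 : ℤ) ^ k ∣ y - x → U x y → R x y := by
    rintro x y h (⟨-, h1⟩ | ⟨h1, -⟩)
    · exact h1
    · exact absurd h1 h
  have hfirst : ∀ p ∈ P, ∀ x, (2 : ℤ) ^ k ∣ p - x → ¬ T x p := by
    rintro p hp x h (⟨h1, -⟩ | ⟨-, h1⟩)
    · exact h1 h
    · simp only [cen_eq hsep hp h, sub_self] at h1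
      exact not_R0_zero _ h1
  obtain ⟨S, hS0, hS1, hS2⟩ := exists_SP (rk R k) (2 ^ k) (rk_le R k) (3 * D + t) (by omega)
  have hPS : ∀ x ∈ P, x ∈ S := fun x hx => hS1 x (hpos x hx) (by have := hD x hx; omega)
  obtain ⟨B, hB0, hB⟩ : ∃ B : ℤ, 0 ≤ B ∧ ∀ p ∈ P, g p < B := by
    refine ⟨∑ p ∈ P, |g p| + 1, ?_, fun p hp => ?_⟩
    · have : 0 ≤ ∑ p ∈ P, |g p| := Finset.sum_nonneg fun p _ => abs_nonneg _
      omega
    · have := Finset.single_le_sum (f := fun p : ℤ => |g p|) (fun p _ => abs_nonneg _) hp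
      have := le_abs_self (g p)
      omega
  let g' : ℤ → ℤ := fun x => if x ∈ P then g x else (B + posn T S x)
  have hg1 : ∀ x ∈ P, g' x = g x := fun x hx => by simp [g', hx]
  have hg2 : ∀ x ∉ P, g' x = B + posn T S x := fun x hx => by simp [g', hx]
  have hlt : ∀ x y, LtS S g' U x y → (x ∈ P ∧ y ∈ P ∧ g x < g y) ∨
      (x ∈ P ∧ y ∉ P) ∨ (x ∈ S ∧ x ∉ P ∧ y ∈ S ∧ y ∉ P ∧ T x y) ∨
      (x ∈ S ∧ x ∉ P ∧ y ∉ S) ∨ (x ∉ S ∧ y ∉ S ∧ U x y) := by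
    rintro x y (⟨h1, h2, h3⟩ | ⟨h1, h2⟩ | h)
    · by_cases hx : x ∈ P <;> by_cases hy : y ∈ P
      · rw [hg1 x hx, hg1 y hy] at h3
        exact Or.inl ⟨hx, hy, h3⟩
      · exact Or.inr (Or.inl ⟨hx, hy⟩)
      · rw [hg2 x hx, hg1 y hy] at h3
        have := hB y hy
        omega
      · rw [hg2 x hx, hg2 y hy] at h3
        exact Or.inr (Or.inr (Or.inl
          ⟨h1, hx, h2, hy, lt_of_posn_lt hT h2 (Or.inl (by omega))⟩))
    · by_cases hx : x ∈ P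
      · exact Or.inr (Or.inl ⟨hx, fun h => h2 (hPS y h)⟩)
      · exact Or.inr (Or.inr (Or.inr (Or.inl ⟨h1, hx, h2⟩)))
    · exact Or.inr (Or.inr (Or.inr (Or.inr h)))
  refine ⟨S, g', U, hU, hS0, ?_, ?_, ?_, hPS, hS1 t ht (by omega), hg1⟩
  · intro x hx
    by_cases hx' : x ∈ P
    · rw [hg1 x hx']
      exact hg0 x hx'
    · rw [hg2 x hx']
      omega
  · intro x hx y hy h
    by_cases hx' : x ∈ P <;> by_cases hy' : y ∈ P
    · rw [hg1 x hx', hg1 y hy'] at h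
      exact hg hx' hy' h
    · rw [hg1 x hx', hg2 y hy'] at h
      have := hB x hx'
      omega
    · rw [hg2 x hx', hg1 y hy'] at h
      have := hB y hy'
      omega
    · rw [hg2 x hx', hg2 y hy'] at h
      by_contra hne
      have h1 : T x y := lt_of_posn_lt hT hy (Or.inr ⟨hne, by omega⟩)
      have := posn_lt hT hx h1
      omega
  · intro a b c e a0 b0 c0 e0 h1 h2 hab hbc hce
    have hold := hgood a b c e a0 b0 c0 e0 h1 h2
    have tail3 : b ∉ S → False := by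
      intro b1
      rcases hlt b c hbc with ⟨b2, -⟩ | ⟨b2, -⟩ | ⟨b2, -⟩ | ⟨b2, -⟩ | ⟨-, c1, hbc'⟩
      · exact b1 (hPS b b2)
      · exact b1 (hPS b b2)
      · exact b1 b2
      · exact b1 b2
      · rcases hlt c e hce with ⟨c2, -⟩ | ⟨c2, -⟩ | ⟨c2, -⟩ | ⟨c2, -⟩ | ⟨-, -, hce'⟩
        · exact c1 (hPS c c2)
        · exact c1 (hPS c c2)
        · exact c1 c2
        · exact c1 c2
        · exact hU.asymm hbc' (hU.ap' (a := e) (b := c) (c := b) (by omega) hce')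
    have tail2 : a ∈ S → b ∈ S → b ∉ P → c ∉ S → (a ∈ P ∨ T a b) → False := by
      intro a1 b1 b2 c1 hor
      rcases hlt c e hce with ⟨c2, -⟩ | ⟨c2, -⟩ | ⟨c2, -⟩ | ⟨c2, -⟩ | ⟨-, e1, hce'⟩
      · exact c1 (hPS c c2)
      · exact c1 (hPS c c2)
      · exact c1 c2
      · exact c1 c2
      · have h3 : U c b := hU.ap' (a := e) (b := c) (c := b) (by omega) hce'
        have h4 : U a b := hU.ap (a := c) (b := b) (c := a) (by omega) h3
        by_cases h5 : (2 : ℤ) ^ k ∣ b - a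
        · have h6 := hTU a b h5 h4
          rcases hor with h7 | h7
          · exact hfirst a h7 b (dvd_symm h5) h6
          · exact hT.asymm h6 h7
        · exact c1 (hS2 b b1 c c0 (by omega) (rk_lt_ap hR k h1 h5 (hUR a b h5 h4)))
    rcases hlt a b hab with ⟨a1, b1, hab'⟩ | ⟨a1, b1⟩ | ⟨a1, a2, b1, b2, hab'⟩ | ⟨a1, a2, b1⟩ |
      ⟨a1, b1, -⟩
    · have hnd : ¬ (2 : ℤ) ^ k ∣ e - c := by
        intro h
        rw [show e - c = b - a by omega] at h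
        have := hsep a a1 b b1 h
        subst this
        exact lt_irrefl _ hab'
      have e1 : e ∈ S := hS1 e e0 (by have := hD a a1; have := hD b b1; have := hpos a a1; omega)
      rcases hlt b c hbc with ⟨-, c1, hbc'⟩ | ⟨-, c1⟩ | ⟨-, b2, -⟩ | ⟨-, b2, -⟩ | ⟨b2, -⟩
      · rcases hlt c e hce with ⟨-, e2, hce'⟩ | ⟨-, e2⟩ | ⟨-, c2, -⟩ | ⟨-, c2, -⟩ | ⟨c2, -⟩
        · exact hold (Or.inl ⟨a1, b1, hab'⟩) (Or.inl ⟨b1, c1, hbc'⟩) (Or.inl ⟨c1, e2, hce'⟩)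
        · exact hold (Or.inl ⟨a1, b1, hab'⟩) (Or.inl ⟨b1, c1, hbc'⟩) (Or.inr (Or.inl ⟨c1, e2⟩))
        · exact c2 c1
        · exact c2 c1
        · exact c2 (hPS c c1)
      · rcases hlt c e hce with ⟨c2, -⟩ | ⟨c2, -⟩ | ⟨-, -, -, e2, hce'⟩ | ⟨-, -, e2⟩ | ⟨-, e2, -⟩
        · exact c1 c2
        · exact c1 c2
        · exact hold (Or.inl ⟨a1, b1, hab'⟩) (Or.inr (Or.inl ⟨b1, c1⟩))
            (Or.inr (Or.inr ⟨c1, e2, hTR c e hnd hce'⟩))
        · exact e2 e1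
        · exact e2 e1
      · exact b2 b1
      · exact b2 b1
      · exact b2 (hPS b b1)
    · by_cases b2 : b ∈ S
      · rcases hlt b c hbc with ⟨b3, -⟩ | ⟨b3, -⟩ | ⟨-, -, c1, c2, hbc'⟩ | ⟨-, -, c1⟩ | ⟨b3, -⟩
        · exact b1 b3
        · exact b1 b3
        · rcases hlt c e hce with ⟨c3, -⟩ | ⟨c3, -⟩ | ⟨-, -, -, -, hce'⟩ | ⟨-, -, e2⟩ | ⟨c3, -⟩
          · exact c2 c3
          · exact c2 c3
          · exact hT.asymm hbc' (hT.ap' (a := e) (b := c) (c := b) (by omega) hce')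
          · by_cases h5 : (2 : ℤ) ^ k ∣ c - b
            · refine hfirst a a1 b ?_ (hT.ap' (a := c) (b := b) (c := a) (by omega) hbc')
              have := h5.neg_right
              rwa [show -(c - b) = a - b by omega] at this
            · exact e2 (hS2 c c1 e e0 (by omega) (rk_lt_ap hR k h2 h5 (hTR b c h5 hbc')))
          · exact c3 c1
        · exact tail2 (hPS a a1) b2 b1 c1 (Or.inl a1)
        · exact b3 b2
      · exact tail3 b2
    · rcases hlt b c hbc with ⟨b3, -⟩ | ⟨b3, -⟩ | ⟨-, -, c1, c2, hbc'⟩ | ⟨-, -, c1⟩ | ⟨b3, -⟩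
      · exact b2 b3
      · exact b2 b3
      · exact hT.asymm hbc' (hT.ap h1 hab')
      · exact tail2 a1 b1 b2 c1 (Or.inr hab')
      · exact b3 b1
    · exact tail3 b1
    · exact tail3 b1

structure StP where
  P : Finset ℤ
  g : ℤ → ℤ
  R : ℤ → ℤ → Prop
  bin : Bin R
  pos : ∀ x ∈ P, 0 < x
  nn : ∀ x ∈ P, 0 ≤ g x
  inj : Set.InjOn g P
  good : GoodP P g R

theorem stepP' (s : StP) (t : ℕ) :
    ∃ s' : StP, s.P ⊆ s'.P ∧ (t : ℤ) + 1 ∈ s'.P ∧ (∀ x ∈ s.P, s'.g x = s.g x) := by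
  obtain ⟨S, g1, T, h1, h2, h3, h4, h5, h6, h7, h8⟩ :=
    stepP s.bin s.pos s.nn s.inj s.good ((t : ℤ) + 1) (by omega)
  exact ⟨⟨S, g1, T, h1, h2, h3, h4, h5⟩, h6, h7, h8⟩

def StP0 : StP where
  P := ∅
  g := fun _ => 0
  R := R0
  bin := bin_R0
  pos := by simp
  nn := by simp
  inj := by simp
  good := by
    intro a b c e _ _ _ _ h1 h2 hab hbc hce
    simp only [LtS, Finset.notMem_empty, false_and, false_or, not_false_eq_true, true_and]
      at hab hbc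
    exact bin_R0.asymm (bin_R0.ap h1 hab) hbc

theorem exists_keyP : ∃ G : ℕ+ → ℕ, Function.Injective G ∧
    ∀ a b c e : ℕ+, ((a : ℕ) : ℤ) + (c : ℕ) = 2 * (b : ℕ) → ((b : ℕ) : ℤ) + (e : ℕ) = 2 * (c : ℕ) →
      G a < G b → G b < G c → G c < G e → False := by
  classical
  choose nx h1 h2 h3 using stepP'
  let s : ℕ → StP := fun n => Nat.rec StP0 (fun n s => nx s n) n
  have hs : ∀ n, s (n + 1) = nx (s n) n := fun n => rfl
  have hmono : ∀ m n, m ≤ n → ∀ x ∈ (s m).P, x ∈ (s n).P ∧ (s n).g x = (s m).g x := by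
    intro m n hmn x hx
    induction n, hmn using Nat.le_induction with
    | base => exact ⟨hx, rfl⟩
    | succ n _ ih =>
      rw [hs]
      exact ⟨h1 _ _ ih.1, (h3 _ _ x ih.1).trans ih.2⟩
  have hn : ∀ x : ℕ+, ((x : ℕ) : ℤ) ∈ (s x).P := by
    intro x
    obtain ⟨m, hm⟩ : ∃ m : ℕ, (x : ℕ) = m + 1 := ⟨(x : ℕ) - 1, by have := x.pos; omega⟩
    have := h2 (s m) m
    rw [← hs] at this
    rw [hm]
    exact_mod_cast this
  let G : ℕ+ → ℕ := fun x => ((s x).g ((x : ℕ) : ℤ)).toNat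
  have hG : ∀ (x : ℕ+) (m : ℕ), (x : ℕ) ≤ m →
      ((x : ℕ) : ℤ) ∈ (s m).P ∧ (G x : ℤ) = (s m).g ((x : ℕ) : ℤ) := by
    intro x m h
    have h4 := hmono x m h _ (hn x)
    refine ⟨h4.1, ?_⟩
    rw [h4.2]
    exact Int.toNat_of_nonneg ((s x).nn _ (hn x))
  refine ⟨G, ?_, ?_⟩
  · intro x y h
    have hx := hG x (x + y) (by omega)
    have hy := hG y (x + y) (by omega)
    have h5 := (s _).inj hx.1 hy.1 (by rw [← hx.2, ← hy.2, h])
    exact PNat.eq (by exact_mod_cast h5)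
  · intro a b c e h6 h7 hab hbc hce
    have ha := hG a (a + b + c + e) (by omega)
    have hb := hG b (a + b + c + e) (by omega)
    have hc := hG c (a + b + c + e) (by omega)
    have he := hG e (a + b + c + e) (by omega)
    refine (s (a + b + c + e)).good _ _ _ _ (by exact_mod_cast a.pos) (by exact_mod_cast b.pos)
      (by exact_mod_cast c.pos) (by exact_mod_cast e.pos) h6 h7
      (Or.inl ⟨ha.1, hb.1, ?_⟩) (Or.inl ⟨hb.1, hc.1, ?_⟩) (Or.inl ⟨hc.1, he.1, ?_⟩)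
    · rw [← ha.2, ← hb.2]; exact_mod_cast hab
    · rw [← hb.2, ← hc.2]; exact_mod_cast hbc
    · rw [← hc.2, ← he.2]; exact_mod_cast hce

theorem main_pos : ∃ a : ℕ+ → ℕ+, Function.Bijective a ∧
    ∀ i j k l : ℕ+, i < j → j < k → k < l →
      ¬ ∃ d : ℤ, d ≠ 0 ∧ ((a j : ℕ) : ℤ) = (a i : ℕ) + d ∧ ((a k : ℕ) : ℤ) = (a j : ℕ) + d ∧
        ((a l : ℕ) : ℤ) = (a k : ℕ) + d := by
  classical
  obtain ⟨G, h1, h4⟩ := exists_keyP
  have : Infinite (Set.range G) := (Set.infinite_range_of_injective h1).to_subtype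
  let e : ℕ ≃o Set.range G := Nat.Subtype.orderIsoOfNat (Set.range G)
  let u : ℕ+ ≃ Set.range G := Equiv.ofInjective G h1
  let v : ℕ+ ≃o ℕ := OrderIso.pnatIsoNat
  have h3 : ∀ a : Set.range G, G (u.symm a) = a := fun a => Equiv.apply_ofInjective_symm h1 a
  have h6 : ∀ i j : ℕ+, i < j → G (u.symm (e (v i))) < G (u.symm (e (v j))) := by
    intro i j hij
    rw [h3, h3]
    exact e.strictMono (v.strictMono hij)
  refine ⟨fun i => u.symm (e (v i)), (v.toEquiv.trans (e.toEquiv.trans u.symm)).bijective, ?_⟩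
  rintro i j k l hij hjk hkl ⟨d, -, h7, h8, h9⟩
  beta_reduce at h7 h8 h9
  exact h4 _ _ _ _ (by omega) (by omega) (h6 i j hij) (h6 j k hjk) (h6 k l hkl)

end Pool.Agent.H409Z
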