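import Mathlib

set_option autoImplicit false
set_option maxHeartbeats 400000

/-! Zero is an SCD point of the unit ball of every space with an unconditional basis.
The automatic continuity of the coordinates is the real form of a lemma in Helper692/HpT/Basis. -/

namespace Pool.Agent.H409Z.Scd

open Finset Filter Topology

lemma hasSum_iff_eps {X : Type} [NormedAddCommGroup X] (v : ℕ → X) (x : X) :
    HasSum v x ↔ ∀ ε > 0, ∃ F0 : Finset ℕ, ∀ F ≥ F0, ‖∑ k ∈ F, v k - x‖ < ε := by
  unfold HasSum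
  rw [SummationFilter.unconditional_filter, Metric.tendsto_atTop]
  simp_rw [dist_eq_norm]

variable {X : Type} [NormedAddCommGroup X] [NormedSpace ℝ X] [CompleteSpace X]

omit [NormedSpace ℝ X] in
lemma bdd_of_hasSum (v : ℕ → X) (x : X) (h : HasSum v x) :
    ∃ C : ℝ, ∀ F : Finset ℕ, ‖∑ k ∈ F, v k‖ ≤ C := by
  classical
  obtain ⟨A₀, hA₀⟩ := summable_iff_vanishing_norm.mp h.summable 1 zero_lt_one
  refine ⟨∑ k ∈ A₀, ‖v k‖ + 1, fun F => ?_⟩
  rw [← Finset.sum_inter_add_sum_sdiff F A₀ v]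
  refine (norm_add_le _ _).trans (add_le_add ?_ (hA₀ _ Finset.sdiff_disjoint).le)
  refine (norm_sum_le _ _).trans ?_
  exact Finset.sum_le_sum_of_subset_of_nonneg Finset.inter_subset_right
    fun _ _ _ => norm_nonneg _

/-- a sequence with unique unconditional expansions has uniformly bounded partial sum operators -/
theorem exists_const (e : ℕ → X) (h : ∀ f : X, ∃! c : ℕ → ℝ, HasSum (fun n => c n • e n) f) :
    ∃ (a : ℕ → X →L[ℝ] ℝ) (C : ℝ), 0 ≤ C ∧ (∀ f, HasSum (fun n => a n f • e n) f) ∧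
      (∀ (f : X) (F : Finset ℕ), ‖∑ k ∈ F, a k f • e k‖ ≤ C * ‖f‖) ∧ a 0 ≠ 0 := by
  classical
  choose c hc huniq using h
  have hadd : ∀ f g, c (f + g) = c f + c g := by
    intro f g
    refine (huniq (f + g) _ ?_).symm
    have := (hc f).add (hc g)
    simpa [add_smul] using this
  have hsmul : ∀ (a : ℝ) f, c (a • f) = a • c f := by
    intro a f
    refine (huniq (a • f) _ ?_).symm
    have := (hc f).const_smul a
    simpa [smul_smul] using this
  let cl : X →ₗ[ℝ] (ℕ → ℝ) := { toFun := c, map_add' := hadd, map_smul' := hsmul }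
  have he : ∀ k, e k ≠ 0 := by
    intro k hk
    have h0 : HasSum (fun n => (0 : ℕ → ℝ) n • e n) (0 : X) := by simp
    have h1 : HasSum (fun n => (Pi.single k 1 : ℕ → ℝ) n • e n) (0 : X) := by
      have : (fun n => (Pi.single k 1 : ℕ → ℝ) n • e n) = fun _ => (0 : X) := by
        funext n
        by_cases hn : n = k
        · subst hn; simp [hk]
        · simp [hn]
      rw [this]; exact hasSum_zero
    have h2 := (huniq 0 _ h0).trans (huniq 0 _ h1).symm
    have h3 := congrFun h2 k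
    simp at h3
  have hbdd : ∀ f, ∃ C : ℝ, ∀ F : Finset ℕ, ‖∑ k ∈ F, c f k • e k‖ ≤ C :=
    fun f => bdd_of_hasSum _ f (hc f)
  let T : X →ₗ[ℝ] lp (fun _ : Finset ℕ => X) ⊤ :=
    { toFun := fun f => ⟨fun F => ∑ k ∈ F, c f k • e k, by
        obtain ⟨C, hC⟩ := hbdd f
        exact memℓp_infty ⟨C, by rintro _ ⟨F, rfl⟩; exact hC F⟩⟩
      map_add' := by
        intro f g
        ext F
        simp [hadd, add_smul, Finset.sum_add_distrib]
      map_smul' := by
        intro a f
        ext F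
        simp [hsmul, mul_smul, Finset.smul_sum] }
  have hT : ∀ f F, (T f : Finset ℕ → X) F = ∑ k ∈ F, c f k • e k := fun f F => rfl
  have hcoord : ∀ (u : ℕ → lp (fun _ : Finset ℕ => X) ⊤) (y : lp (fun _ : Finset ℕ => X) ⊤),
      Tendsto u atTop (𝓝 y) → ∀ F, Tendsto (fun n => (u n : Finset ℕ → X) F) atTop
        (𝓝 ((y : Finset ℕ → X) F)) := by
    intro u y hu F
    rw [tendsto_iff_norm_sub_tendsto_zero] at hu ⊢
    refine squeeze_zero (fun _ => norm_nonneg _) (fun n => ?_) hu
    have := lp.norm_apply_le_norm ENNReal.top_ne_zero (u n - y) F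
    simpa using this
  have hTc : Continuous T := by
    refine T.continuous_of_seq_closed_graph ?_
    intro u x y hu hTu
    have hF := hcoord _ y hTu
    -- coordinates converge
    have hline : ∀ k, ∃ d : ℝ, (y : Finset ℕ → X) {k} = d • e k := by
      intro k
      have h1 := hF {k}
      have hclosed : IsClosed ((ℝ ∙ e k : Submodule ℝ X) : Set X) :=
        Submodule.closed_of_finiteDimensional _
      have h2 : (y : Finset ℕ → X) {k} ∈ ((ℝ ∙ e k : Submodule ℝ X) : Set X) := by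
        refine hclosed.mem_of_tendsto h1 (Eventually.of_forall fun n => ?_)
        simp only [Function.comp, hT, Finset.sum_singleton]
        exact Submodule.smul_mem _ _ (Submodule.mem_span_singleton_self _)
      obtain ⟨d, hd⟩ := Submodule.mem_span_singleton.1 h2
      exact ⟨d, hd.symm⟩
    choose d hd using hline
    have hyF : ∀ F : Finset ℕ, (y : Finset ℕ → X) F = ∑ k ∈ F, d k • e k := by
      intro F
      refine tendsto_nhds_unique (hF F) ?_
      simp only [Function.comp, hT]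
      refine tendsto_finsetSum _ fun k _ => ?_
      have := hF {k}
      simp only [Function.comp, hT, Finset.sum_singleton] at this
      rwa [← hd k]
    have hsum : HasSum (fun n => d n • e n) x := by
      rw [hasSum_iff_eps]
      intro ε hε
      rw [Metric.tendsto_atTop] at hu hTu
      obtain ⟨N1, h1⟩ := hu (ε / 3) (by positivity)
      obtain ⟨N2, h2⟩ := hTu (ε / 3) (by positivity)
      set n := max N1 N2
      have h1' := h1 n (le_max_left _ _)
      have h2' := h2 n (le_max_right _ _)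
      have h3 : HasSum (fun k => c (u n) k • e k) (u n) := hc (u n)
      rw [hasSum_iff_eps] at h3
      obtain ⟨F0, h3'⟩ := h3 (ε / 3) (by positivity)
      refine ⟨F0, fun F hFF => ?_⟩
      have h4 := h3' F hFF
      rw [← hyF F]
      rw [dist_eq_norm] at h1' h2'
      have h5 : ‖(y : Finset ℕ → X) F - ∑ k ∈ F, c (u n) k • e k‖ < ε / 3 := by
        have := lp.norm_apply_le_norm ENNReal.top_ne_zero (y - T (u n)) F
        refine lt_of_le_of_lt ?_ h2'
        rw [← norm_neg] at this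
        refine le_trans (le_of_eq ?_) (this.trans (le_of_eq ?_))
        · rw [norm_neg]; rfl
        · rw [← norm_neg, neg_sub]; rfl
      have h6 : (y : Finset ℕ → X) F - x = ((y : Finset ℕ → X) F - ∑ k ∈ F, c (u n) k • e k) +
          (∑ k ∈ F, c (u n) k • e k - u n) + (u n - x) := by abel
      rw [h6]
      refine lt_of_le_of_lt (norm_add_le _ _) ?_
      have := norm_add_le ((y : Finset ℕ → X) F - ∑ k ∈ F, c (u n) k • e k)
        (∑ k ∈ F, c (u n) k • e k - u n)
      linarith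
    have hdc : d = c x := huniq x d hsum
    ext F
    rw [hyF F, hT, hdc]
  let Tc : X →L[ℝ] lp (fun _ : Finset ℕ => X) ⊤ := ⟨T, hTc⟩
  have h3 : ∀ f F, ‖∑ k ∈ F, c f k • e k‖ ≤ ‖Tc‖ * ‖f‖ := fun f F =>
    (lp.norm_apply_le_norm ENNReal.top_ne_zero (Tc f) F).trans (Tc.le_opNorm f)
  refine ⟨fun n => ((LinearMap.proj n).comp cl).mkContinuous (‖Tc‖ / ‖e n‖) fun x => ?_, ‖Tc‖,
    norm_nonneg _, hc, h3, fun h0 => ?_⟩
  · have h1 := h3 x {n}
    rw [Finset.sum_singleton, norm_smul] at h1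
    have h2 : 0 < ‖e n‖ := norm_pos_iff.mpr (he n)
    rw [div_mul_eq_mul_div, le_div_iff₀ h2]
    exact h1
  · have h1 : c (e 0) 0 = 0 := congrArg (fun φ : X →L[ℝ] ℝ => φ (e 0)) h0
    have h2 : HasSum (fun n => (if n = 0 then (1 : ℝ) else 0) • e n) (e 0) := by
      have := hasSum_single (f := fun n => (if n = 0 then (1 : ℝ) else 0) • e n) 0
        (fun n hn => by simp [hn])
      simpa using this
    have h4 := congrFun (huniq (e 0) _ h2) 0
    rw [h1] at h4
    simp at h4

theorem zero_scd (e : ℕ → X) (h : ∀ f : X, ∃! c : ℕ → ℝ, HasSum (fun n => c n • e n) f) :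
    ∃ (f : ℕ → (X →L[ℝ] ℝ)) (α : ℕ → ℝ), (∀ n, f n ≠ 0 ∧ 0 < α n) ∧
      ∀ y : ℕ → X, (∀ n, y n ∈ Metric.closedBall (0 : X) 1 ∧ ‖f n‖ - α n < f n (y n)) →
        (0 : X) ∈ closure (convexHull ℝ (Set.range y)) := by
  classical
  obtain ⟨a, C, hC0, ha, hC, ha0⟩ := exists_const e h
  obtain ⟨D, hD1, hD2⟩ : TopologicalSpace.IsSeparable
      (Submodule.span ℝ (Set.range a) : Set (X →L[ℝ] ℝ)) :=
    (Set.countable_range a).isSeparable.span
  obtain ⟨u, hu⟩ := ((hD1.insert 0).prod (Set.countable_univ (α := ℕ))).exists_eq_range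
    ⟨(0, 0), Set.mem_insert _ _, trivial⟩
  refine ⟨fun n => if (u n).1 = 0 then a 0 else (u n).1, fun n => 1 / (((u n).2 : ℝ) + 1),
    fun n => ⟨?_, by positivity⟩, fun y hy => ?_⟩
  · beta_reduce
    split_ifs with h0
    · exact ha0
    · exact h0
  have hy1 : ∀ n, ‖y n‖ ≤ 1 := fun n => by simpa using (hy n).1
  have hev : ∀ (φ : X →L[ℝ] ℝ) (x : X), ‖x‖ ≤ 1 → |φ x| ≤ ‖φ‖ := fun φ x hx =>
    (φ.le_opNorm x).trans (mul_le_of_le_one_right (norm_nonneg _) hx)
  have hsel : ∀ φ ∈ Submodule.span ℝ (Set.range a), ∀ β : ℝ, 0 < β →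
      ∃ n, ‖φ‖ - β < φ (y n) := by
    intro φ hφ β hβ
    obtain ⟨m, hm⟩ := exists_nat_one_div_lt (show 0 < β / 3 by linarith)
    obtain ⟨f, hf1, hf2⟩ := Metric.mem_closure_iff.mp (hD2 hφ) (β / 3) (by linarith)
    rw [dist_eq_norm] at hf2
    have h1 : (f, m) ∈ Set.range u := hu ▸ ⟨Set.mem_insert_of_mem _ hf1, trivial⟩
    obtain ⟨n, hn⟩ := h1
    refine ⟨n, ?_⟩
    have h2 := abs_le.mp (hev (φ - f) (y n) (hy1 n))
    rw [ContinuousLinearMap.sub_apply] at h2
    have h3 := norm_sub_norm_le φ f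
    by_cases h0 : f = 0
    · subst h0
      simp only [ContinuousLinearMap.zero_apply, norm_zero] at h2 h3
      linarith [h2.1]
    · have h4 := (hy n).2
      simp only [hn, if_neg h0] at h4
      linarith [h2.1]
  by_contra hcon
  obtain ⟨g, c, hc0, hc⟩ := geometric_hahn_banach_point_closed
    (convex_convexHull ℝ (Set.range y)).closure isClosed_closure hcon
  rw [map_zero] at hc0
  have hgy : ∀ n, c < g (y n) := fun n =>
    hc _ (subset_closure (subset_convexHull ℝ _ (Set.mem_range_self n)))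
  let G : ℕ → X → ℝ := fun N x => ∑ j ∈ range N, |a j x * g (e j)|
  have hGb : ∀ N x, ‖x‖ ≤ 1 → G N x ≤ 2 * (‖g‖ * C) := by
    intro N x hx
    have hb : ∀ F : Finset ℕ, |∑ k ∈ F, a k x * g (e k)| ≤ ‖g‖ * C := by
      intro F
      have h1 : ∑ k ∈ F, a k x * g (e k) = g (∑ k ∈ F, a k x • e k) := by
        rw [map_sum]
        exact Finset.sum_congr rfl fun k _ => by rw [map_smul, smul_eq_mul]
      rw [h1]
      refine (g.le_opNorm _).trans (mul_le_mul_of_nonneg_left ?_ (norm_nonneg _))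
      exact (hC x F).trans (mul_le_of_le_one_right hC0 hx)
    have h1 := Finset.sum_filter_add_sum_filter_not (range N) (fun k => 0 ≤ a k x * g (e k))
      (fun k => |a k x * g (e k)|)
    have h2 : ∑ k ∈ range N with 0 ≤ a k x * g (e k), |a k x * g (e k)| =
        ∑ k ∈ range N with 0 ≤ a k x * g (e k), a k x * g (e k) :=
      Finset.sum_congr rfl fun k hk => abs_of_nonneg (Finset.mem_filter.1 hk).2
    have h3 : ∑ k ∈ range N with ¬ 0 ≤ a k x * g (e k), |a k x * g (e k)| =
        - ∑ k ∈ range N with ¬ 0 ≤ a k x * g (e k), a k x * g (e k) := by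
      rw [← Finset.sum_neg_distrib]
      exact Finset.sum_congr rfl fun k hk => abs_of_neg (not_le.1 (Finset.mem_filter.1 hk).2)
    have h4 := abs_le.1 (hb ((range N).filter fun k => 0 ≤ a k x * g (e k)))
    have h5 := abs_le.1 (hb ((range N).filter fun k => ¬ 0 ≤ a k x * g (e k)))
    simp only [G]
    linarith [h4.2, h5.1]
  let S : Set ℝ := {r | ∃ N x, ‖x‖ ≤ 1 ∧ r = G N x}
  have hSb : BddAbove S := ⟨_, by rintro _ ⟨N, x, h1, rfl⟩; exact hGb N x h1⟩
  have hSn : S.Nonempty := ⟨_, 0, 0, by simp, rfl⟩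
  obtain ⟨_, ⟨N, x0, hx0, rfl⟩, hx1⟩ :=
    exists_lt_of_lt_csSup hSn (show sSup S - c / 4 < sSup S by linarith)
  let θ : ℕ → ℝ := fun j => if 0 ≤ a j x0 * g (e j) then 1 else -1
  let hh : X →L[ℝ] ℝ := ∑ j ∈ range N, (θ j * g (e j)) • a j
  let k : X →L[ℝ] ℝ := ∑ j ∈ range N, g (e j) • a j
  have hhs : hh ∈ Submodule.span ℝ (Set.range a) := Submodule.sum_mem _ fun j _ =>
    Submodule.smul_mem _ _ (Submodule.subset_span (Set.mem_range_self j))
  have hks : k ∈ Submodule.span ℝ (Set.range a) := Submodule.sum_mem _ fun j _ =>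
    Submodule.smul_mem _ _ (Submodule.subset_span (Set.mem_range_self j))
  have hhx : ∀ x, hh x = ∑ j ∈ range N, θ j * (a j x * g (e j)) := by
    intro x
    simp only [hh, ContinuousLinearMap.sum_apply, ContinuousLinearMap.smul_apply, smul_eq_mul]
    exact Finset.sum_congr rfl fun j _ => by ring
  have hkx : ∀ x, k x = ∑ j ∈ range N, a j x * g (e j) := by
    intro x
    simp only [k, ContinuousLinearMap.sum_apply, ContinuousLinearMap.smul_apply, smul_eq_mul]
    exact Finset.sum_congr rfl fun j _ => by ring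
  have hh0 : sSup S - c / 4 < ‖hh‖ := by
    have h1 : hh x0 = G N x0 := by
      rw [hhx]
      refine Finset.sum_congr rfl fun j _ => ?_
      simp only [θ]
      split_ifs with h2
      · rw [abs_of_nonneg h2, one_mul]
      · rw [abs_of_neg (not_le.mp h2), neg_one_mul]
    have h2 := (le_abs_self _).trans (hev hh x0 hx0)
    linarith
  have htail : ∀ x, ‖x‖ ≤ 1 → |hh x| + (g x - k x) ≤ sSup S := by
    intro x hx
    have h1 : |hh x| ≤ G N x := by
      rw [hhx]
      refine (Finset.abs_sum_le_sum_abs _ _).trans (le_of_eq (Finset.sum_congr rfl fun j _ => ?_))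
      rw [abs_mul]
      simp only [θ]
      split_ifs <;> simp
    have h2 : Tendsto (fun M => ∑ j ∈ range M, a j x * g (e j)) atTop (𝓝 (g x)) := by
      have := (g.hasSum (ha x)).tendsto_sum_nat
      simpa only [map_smul, smul_eq_mul] using this
    have h3 : g x ≤ sSup S - G N x + k x := by
      refine le_of_tendsto h2 ?_
      filter_upwards [eventually_ge_atTop N] with M hM
      have h4 : G M x ≤ sSup S := le_csSup hSb ⟨M, x, hx, rfl⟩
      have h5 : G M x = G N x + ∑ j ∈ Ico N M, |a j x * g (e j)| :=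
        (Finset.sum_range_add_sum_Ico _ hM).symm
      have h6 : ∑ j ∈ Ico N M, a j x * g (e j) ≤ ∑ j ∈ Ico N M, |a j x * g (e j)| :=
        Finset.sum_le_sum fun j _ => le_abs_self _
      rw [← Finset.sum_range_add_sum_Ico _ hM, ← hkx]
      linarith
    linarith
  obtain ⟨η, hη0, hη1⟩ : ∃ η : ℝ, 0 < η ∧ η * ‖k‖ ≤ c / 8 := by
    refine ⟨c / 8 / (‖k‖ + 1), by positivity, ?_⟩
    rw [div_mul_eq_mul_div, div_le_iff₀ (by positivity)]
    nlinarith [norm_nonneg k]
  obtain ⟨β, hβ0, hβ1, hβ2⟩ : ∃ β : ℝ, 0 < β ∧ β ≤ c / 4 ∧ β ≤ η * (c / 4) :=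
    ⟨min (c / 4) (η * (c / 4)), lt_min (by linarith) (by positivity), min_le_left _ _,
      min_le_right _ _⟩
  obtain ⟨n1, hn1⟩ := hsel (hh - η • k) (sub_mem hhs (Submodule.smul_mem _ _ hks)) β hβ0
  obtain ⟨n2, hn2⟩ := hsel (-hh - η • k)
    (sub_mem (neg_mem hhs) (Submodule.smul_mem _ _ hks)) β hβ0
  simp only [ContinuousLinearMap.sub_apply, ContinuousLinearMap.smul_apply,
    ContinuousLinearMap.neg_apply, smul_eq_mul] at hn1 hn2
  have e0 : ‖η • k‖ = η * ‖k‖ := by rw [norm_smul, Real.norm_of_nonneg hη0.le]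
  have e1 := norm_sub_norm_le hh (η • k)
  have e2 := norm_sub_norm_le (-hh) (η • k)
  rw [norm_neg] at e2
  have e3 : 2 * ‖hh‖ ≤ ‖hh - η • k‖ + ‖-hh - η • k‖ := by
    have h1 := norm_sub_le (hh - η • k) (-hh - η • k)
    have h2 : hh - η • k - (-hh - η • k) = (2 : ℝ) • hh := by module
    rwa [h2, norm_smul, Real.norm_two] at h1
  have e4 := abs_le.mp (hev hh (y n1) (hy1 n1))
  have e5 := abs_le.mp (hev hh (y n2) (hy1 n2))
  have e6 := mul_le_mul_of_nonneg_left (abs_le.mp (hev k (y n1) (hy1 n1))).1 hη0.le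
  have e7 := mul_le_mul_of_nonneg_left (abs_le.mp (hev k (y n2) (hy1 n2))).1 hη0.le
  have e8 := htail (y n1) (hy1 n1)
  have e9 := htail (y n2) (hy1 n2)
  have e10 := le_abs_self (hh (y n1))
  have e11 := neg_le_abs (hh (y n2))
  have e12 : k (y n1) + k (y n2) < c / 2 := by
    have h1 : η * (k (y n1) + k (y n2)) < η * (c / 2) := by linarith [e4.2, e5.1]
    exact lt_of_mul_lt_mul_left h1 hη0.le
  linarith [hgy n1, hgy n2]

end Pool.Agent.H409Z.Scd
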