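import Pool.Agent.H409Z.SlipChk

/-! The maximal rotation number of `(ab)^10 a b^4 a^3 b^4` for `r = s = 1/5` is `25/2`. -/

set_option autoImplicit false
set_option maxHeartbeats 400000

open CircleDeg1Lift

namespace Pool.Agent.H409Z.Slip

theorem orbit (a : CircleDeg1Liftˣ) (ha : translationNumber (a : CircleDeg1Lift) = 1 / 5) :
    ∃ x : ℝ, (∀ (n : ℤ) (i k : ℕ), ((a : CircleDeg1Lift) ^ (i + 5 * k)) (x + n) =
      ((a : CircleDeg1Lift) ^ i) (x + n) + k) ∧
      ∀ z : ℝ, Monotone fun i : ℕ => ((a : CircleDeg1Lift) ^ i) z := by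
  have hc : Continuous (a : CircleDeg1Lift) :=
    (continuous_iff_surjective _).2 (isUnit_iff_bijective.1 a.isUnit).2
  obtain ⟨x, hx⟩ := (translationNumber_eq_rat_iff (a : CircleDeg1Lift) hc (m := 1) (n := 5)
    (by norm_num)).1 (by rw [ha]; norm_num)
  refine ⟨x, fun n i k => ?_, fun z => ?_⟩
  · induction k with
    | zero => simp
    | succ k ih =>
      rw [show i + 5 * (k + 1) = i + 5 * k + 5 by ring, pow_add, mul_apply, map_add_int, hx,
        show x + ((1 : ℤ) : ℝ) + n = x + n + ((1 : ℤ) : ℝ) by ring, map_add_int, ih]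
      push_cast
      ring
  · apply monotone_nat_of_le_succ
    intro i
    rw [pow_succ', mul_apply]
    have := lt_map_of_int_lt_translationNumber (a : CircleDeg1Lift) (n := 0)
      (by rw [ha]; norm_num) (((a : CircleDeg1Lift) ^ i) z)
    simp only [Int.cast_zero, add_zero] at this
    exact this.le

theorem upper (a b : CircleDeg1Liftˣ) (ha : translationNumber (a : CircleDeg1Lift) = 1 / 5)
    (hb : translationNumber (b : CircleDeg1Lift) = 1 / 5) :
    translationNumber (wd a b) ≤ 25 / 2 := by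
  classical
  obtain ⟨x, hx1, hx2⟩ := orbit a ha
  obtain ⟨y, hy1, hy2⟩ := orbit b hb
  obtain ⟨X, hX⟩ : ∃ X : ℕ → ℝ, ∀ i, X i = ((a : CircleDeg1Lift) ^ i) (x + (0 : ℤ)) :=
    ⟨_, fun _ => rfl⟩
  obtain ⟨Y, hY⟩ : ∃ Y : ℕ → ℝ, ∀ i,
      Y i = ((b : CircleDeg1Lift) ^ i) (y + (⌈x - y⌉ - 1 : ℤ)) := ⟨_, fun _ => rfl⟩
  have hXp : ∀ i k : ℕ, X (i + 5 * k) = X i + k := fun i k => by rw [hX, hX, hx1]
  have hYp : ∀ i k : ℕ, Y (i + 5 * k) = Y i + k := fun i k => by rw [hY, hY, hy1]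
  have hXm : Monotone X := fun i j h => by rw [hX, hX]; exact hx2 _ h
  have hYm : Monotone Y := fun i j h => by rw [hY, hY]; exact hy2 _ h
  have hXa : ∀ n i : ℕ, ((a : CircleDeg1Lift) ^ n) (X i) = X (i + n) := fun n i => by
    rw [hX, hX, ← mul_apply, ← pow_add, add_comm]
  have hYb : ∀ n i : ℕ, ((b : CircleDeg1Lift) ^ n) (Y i) = Y (i + n) := fun n i => by
    rw [hY, hY, ← mul_apply, ← pow_add, add_comm]
  have hX0 : X 0 = x := by rw [hX]; simp
  have hY0 : Y 0 = y + ⌈x - y⌉ - 1 := by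
    rw [hY]
    simp only [pow_zero, coe_one, id_eq]
    push_cast
    ring
  have c1 := Int.le_ceil (x - y)
  have c2 := Int.ceil_lt_add_one (x - y)
  have hY5 : Y 5 = Y 0 + 1 := by simpa using hYp 0 1
  have hX5 : X 5 = X 0 + 1 := by simpa using hXp 0 1
  have hex : ∀ i : ℕ, ∃ j, X i ≤ Y j := by
    intro i
    refine ⟨0 + 5 * (i + 1), ?_⟩
    have h1 : X i ≤ X (0 + 5 * i) := hXm (by omega)
    rw [hXp] at h1
    rw [hYp]
    push_cast
    linarith
  obtain ⟨f, hf1, hf2⟩ : ∃ f : ℕ → ℕ, (∀ i, X i ≤ Y (f i)) ∧ ∀ i j, j < f i → Y j < X i :=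
    ⟨fun i => Nat.find (hex i), fun i => Nat.find_spec (hex i),
      fun i j h => not_le.1 (Nat.find_min (hex i) h)⟩
  have hf3 : ∀ i j, X i ≤ Y j → f i ≤ j := fun i j h => by
    by_contra h1
    exact absurd (hf2 i j (not_le.1 h1)) (not_lt.2 h)
  have hfm : ∀ i, f i ≤ f (i + 1) := fun i => hf3 _ _ ((hXm (Nat.le_succ i)).trans (hf1 _))
  have g0 : 1 ≤ f 0 := by
    by_contra h
    have h1 := hf1 0
    rw [show f 0 = 0 by omega] at h1
    linarith
  have g0' : f 0 ≤ 5 := hf3 _ _ (by linarith)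
  have g4 : f 4 ≤ f 0 + 5 := by
    apply hf3
    have h1 : X 4 ≤ X 5 := hXm (by norm_num)
    have h2 := hYp (f 0) 1
    have h3 := hf1 0
    rw [mul_one] at h2
    push_cast at h2
    linarith
  have hF : ∀ i, F (f 0) (f 1) (f 2) (f 3) (f 4) i = f (i % 5) + 5 * (i / 5) := by
    intro i
    unfold F
    have : i % 5 < 5 := Nat.mod_lt _ (by norm_num)
    generalize i % 5 = t at this ⊢
    interval_cases t <;> simp
  have hXi : ∀ i, X i = X (i % 5) + (i / 5 : ℕ) := fun i => by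
    rw [← hXp, Nat.mod_add_div]
  have hf0 : ∀ i, 1 ≤ f i := fun i => by
    induction i with
    | zero => exact g0
    | succ i ih => exact ih.trans (hfm i)
  have hF1 : ∀ i, X i ≤ Y (F (f 0) (f 1) (f 2) (f 3) (f 4) i) := fun i => by
    rw [hF, hYp, hXi]
    linarith [hf1 (i % 5)]
  have hF2 : ∀ j, Y j ≤ X (G (f 0) (f 1) (f 2) (f 3) (f 4) j) := fun j => by
    have h1 := G_spec (f 0) (f 1) (f 2) (f 3) (f 4) j
    generalize G (f 0) (f 1) (f 2) (f 3) (f 4) j = i at h1 ⊢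
    rw [hF] at h1
    have h2 := hf0 (i % 5)
    have h3 : Y j ≤ Y (f (i % 5) - 1 + 5 * (i / 5)) := hYm (by omega)
    have h4 := hf2 (i % 5) (f (i % 5) - 1) (by omega)
    rw [hYp] at h3
    rw [hXi]
    linarith
  have hs := sim (fun N z => z ≤ Y N)
    (fun e => (a : CircleDeg1Lift) ^ e.1 * (b : CircleDeg1Lift) ^ e.2)
    (stp (f 0) (f 1) (f 2) (f 3) (f 4)) (fun e N z hz => by
      rw [mul_apply]
      have h1 : ((b : CircleDeg1Lift) ^ e.2) z ≤ Y (N + e.2) := by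
        rw [← hYb]
        exact mono _ hz
      have h2 := mono ((a : CircleDeg1Lift) ^ e.1) (h1.trans (hF2 _))
      rw [hXa] at h2
      exact h2.trans (hF1 _)) L
  have hg := good_of (f 0) (f 1) (f 2) (f 3) (f 4) g0 g0' (hfm 0) (hfm 1) (hfm 2) (hfm 3) g4
  unfold good at hg
  simp only [List.any_eq_true, decide_eq_true_eq] at hg
  obtain ⟨j, -, hj⟩ := hg
  have hw : ∀ N z, z ≤ Y N → wd a b z ≤ Y (L.foldr (stp (f 0) (f 1) (f 2) (f 3) (f 4)) N) := by
    unfold wd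
    exact hs
  have h1 := (hw _ _ (hw (j + 5) _ le_rfl)).trans (hYm hj)
  rw [hYp] at h1
  have h2 := translationNumber_le_of_le_add_nat (wd a b ^ 2) (x := Y (j + 5)) (m := 25)
    (by rw [pow_two, mul_apply]; exact h1)
  rw [translationNumber_pow] at h2
  push_cast at h2
  linarith

/-! ### The lower bound -/

/-- a steep staircase -/
noncomputable def σ (x : ℝ) : ℝ := ⌊x⌋ + min 1 (30 * Int.fract x)

theorem σ_add (x : ℝ) : σ (x + 1) = σ x + 1 := by
  unfold σ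
  rw [Int.floor_add_one, Int.fract_add_one]
  push_cast
  ring

theorem σ_mono : Monotone σ := by
  intro x y h
  unfold σ
  rcases (Int.floor_mono h).eq_or_lt with h1 | h1
  · have h2 : Int.fract x ≤ Int.fract y := by
      unfold Int.fract
      rw [h1]
      linarith
    rw [h1]
    have : min 1 (30 * Int.fract x) ≤ min 1 (30 * Int.fract y) :=
      min_le_min le_rfl (by linarith)
    linarith
  · have h2 : (⌊x⌋ : ℝ) + 1 ≤ ⌊y⌋ := by exact_mod_cast h1
    have h3 : min 1 (30 * Int.fract x) ≤ 1 := min_le_left _ _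
    have h4 : 0 ≤ min 1 (30 * Int.fract y) :=
      le_min zero_le_one (by linarith [Int.fract_nonneg y])
    linarith

theorem σ_cont : Continuous σ := by
  have h1 : Continuous ((fun t : ℝ => min 1 (30 * t) - t) ∘ Int.fract) :=
    ContinuousOn.comp_fract'' (Continuous.continuousOn (by fun_prop)) (by norm_num)
  have h2 : σ = fun x => x + ((fun t : ℝ => min 1 (30 * t) - t) ∘ Int.fract) x := by
    funext x
    simp only [σ, Function.comp, Int.fract]
    ring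
  rw [h2]
  exact continuous_id.add h1

theorem σ_le0 {x : ℝ} (h : x ≤ 0) : σ x ≤ 0 := by
  have := σ_mono h
  simpa [σ] using this

theorem σ_le1 {x : ℝ} (h : x ≤ 1) : σ x ≤ 1 := by
  have h1 := σ_le0 (x := x - 1) (by linarith)
  have h2 := σ_add (x - 1)
  rw [sub_add_cancel] at h2
  linarith

theorem σ_ge1 {x : ℝ} (h : 1 / 30 ≤ x) : 1 ≤ σ x := by
  refine le_trans (le_of_eq ?_) (σ_mono h)
  have h1 : ⌊(1 / 30 : ℝ)⌋ = 0 := by
    rw [Int.floor_eq_iff]
    norm_num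
  unfold σ Int.fract
  rw [h1]
  norm_num

theorem σ_ge0 {x : ℝ} (h : 1 / 30 - 1 ≤ x) : 0 ≤ σ x := by
  have h1 := σ_ge1 (x := x + 1) (by linarith)
  rw [σ_add] at h1
  linarith

theorem exists_push (p0 p1 p2 p3 p4 : ℝ) (h0 : p0 ≤ p1) (h1 : p1 ≤ p2) (h2 : p2 ≤ p3)
    (h3 : p3 ≤ p4) (h4 : p4 ≤ p0 + 1) (g0 : p0 + 1 / 10 ≤ p1) (g1 : p1 + 1 / 10 ≤ p2)
    (g2 : p2 + 1 / 10 ≤ p3) (g3 : p3 + 1 / 10 ≤ p4) (g4 : p4 + 1 / 10 ≤ p0 + 1) :
    ∃ a : CircleDeg1Liftˣ, translationNumber (a : CircleDeg1Lift) = 1 / 5 ∧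
      (∀ z, p0 + 1 / 30 ≤ z → p2 - 1 / 30 ≤ (a : CircleDeg1Lift) z) ∧
      (∀ z, p1 + 1 / 30 ≤ z → p3 - 1 / 30 ≤ (a : CircleDeg1Lift) z) ∧
      (∀ z, p2 + 1 / 30 ≤ z → p4 - 1 / 30 ≤ (a : CircleDeg1Lift) z) ∧
      (∀ z, p3 + 1 / 30 ≤ z → p0 + 1 - 1 / 30 ≤ (a : CircleDeg1Lift) z) ∧
      (∀ z, p4 + 1 / 30 ≤ z → p1 + 1 - 1 / 30 ≤ (a : CircleDeg1Lift) z) := by
  obtain ⟨J, hJ⟩ : ∃ J : ℝ → ℝ, ∀ x, J x = p1 + (p2 - p1) * σ (x - p0) + (p3 - p2) * σ (x - p1) +
      (p4 - p3) * σ (x - p2) + (p0 + 1 - p4) * σ (x - p3) + (p1 - p0) * σ (x - p4) :=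
    ⟨_, fun _ => rfl⟩
  have w0 : 0 ≤ p2 - p1 := by linarith
  have w1 : 0 ≤ p3 - p2 := by linarith
  have w2 : 0 ≤ p4 - p3 := by linarith
  have w3 : 0 ≤ p0 + 1 - p4 := by linarith
  have w4 : 0 ≤ p1 - p0 := by linarith
  have hJm : Monotone J := by
    intro x y h
    rw [hJ, hJ]
    have := fun p : ℝ => σ_mono (show x - p ≤ y - p by linarith)
    gcongr <;> exact this _
  have hJa : ∀ x, J (x + 1) = J x + 1 := by
    intro x
    have := fun p : ℝ => (show σ (x + 1 - p) = σ (x - p) + 1 by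
      rw [← σ_add]; congr 1; ring)
    rw [hJ, hJ]
    simp only [this]
    ring
  have hJc : Continuous J := by
    have h5 := σ_cont
    rw [show J = _ from funext hJ]
    fun_prop
  have hS : StrictMono fun x => 29 / 30 * J x + 1 / 30 * x := by
    intro x y h
    have := hJm h.le
    show 29 / 30 * J x + 1 / 30 * x < 29 / 30 * J y + 1 / 30 * y
    linarith
  let A : CircleDeg1Lift :=
    { toFun := fun x => 29 / 30 * J x + 1 / 30 * x
      monotone' := hS.monotone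
      map_add_one' := fun x => by
        show 29 / 30 * J (x + 1) + 1 / 30 * (x + 1) = 29 / 30 * J x + 1 / 30 * x + 1
        rw [hJa]
        ring }
  have hAc : Continuous A := by
    show Continuous fun x => 29 / 30 * J x + 1 / 30 * x
    fun_prop
  obtain ⟨a, ha⟩ : IsUnit A :=
    isUnit_iff_bijective.2 ⟨hS.injective, (continuous_iff_surjective A).1 hAc⟩
  have hav : ∀ x, (a : CircleDeg1Lift) x = 29 / 30 * J x + 1 / 30 * x := fun x => by
    rw [ha]
    rfl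
  have up : ∀ (x c0 c1 c2 c3 c4 : ℝ), σ (x - p0) ≤ c0 → σ (x - p1) ≤ c1 → σ (x - p2) ≤ c2 →
      σ (x - p3) ≤ c3 → σ (x - p4) ≤ c4 → J x ≤ p1 + (p2 - p1) * c0 + (p3 - p2) * c1 +
      (p4 - p3) * c2 + (p0 + 1 - p4) * c3 + (p1 - p0) * c4 := by
    intro x c0 c1 c2 c3 c4 e0 e1 e2 e3 e4
    rw [hJ]
    gcongr
  have lo : ∀ (x c0 c1 c2 c3 c4 : ℝ), c0 ≤ σ (x - p0) → c1 ≤ σ (x - p1) → c2 ≤ σ (x - p2) →
      c3 ≤ σ (x - p3) → c4 ≤ σ (x - p4) → p1 + (p2 - p1) * c0 + (p3 - p2) * c1 +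
      (p4 - p3) * c2 + (p0 + 1 - p4) * c3 + (p1 - p0) * c4 ≤ J x := by
    intro x c0 c1 c2 c3 c4 e0 e1 e2 e3 e4
    rw [hJ]
    gcongr
  have u0 := up p0 0 0 0 0 0 (σ_le0 (by linarith)) (σ_le0 (by linarith)) (σ_le0 (by linarith))
    (σ_le0 (by linarith)) (σ_le0 (by linarith))
  have u1 := up p1 1 0 0 0 0 (σ_le1 (by linarith)) (σ_le0 (by linarith)) (σ_le0 (by linarith))
    (σ_le0 (by linarith)) (σ_le0 (by linarith))
  have u2 := up p2 1 1 0 0 0 (σ_le1 (by linarith)) (σ_le1 (by linarith)) (σ_le0 (by linarith))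
    (σ_le0 (by linarith)) (σ_le0 (by linarith))
  have u3 := up p3 1 1 1 0 0 (σ_le1 (by linarith)) (σ_le1 (by linarith)) (σ_le1 (by linarith))
    (σ_le0 (by linarith)) (σ_le0 (by linarith))
  have u4 := up p4 1 1 1 1 0 (σ_le1 (by linarith)) (σ_le1 (by linarith)) (σ_le1 (by linarith))
    (σ_le1 (by linarith)) (σ_le0 (by linarith))
  have l0 := lo (p0 + 1 / 30) 1 0 0 0 0 (σ_ge1 (by linarith)) (σ_ge0 (by linarith))
    (σ_ge0 (by linarith)) (σ_ge0 (by linarith)) (σ_ge0 (by linarith))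
  have l1 := lo (p1 + 1 / 30) 1 1 0 0 0 (σ_ge1 (by linarith)) (σ_ge1 (by linarith))
    (σ_ge0 (by linarith)) (σ_ge0 (by linarith)) (σ_ge0 (by linarith))
  have l2 := lo (p2 + 1 / 30) 1 1 1 0 0 (σ_ge1 (by linarith)) (σ_ge1 (by linarith))
    (σ_ge1 (by linarith)) (σ_ge0 (by linarith)) (σ_ge0 (by linarith))
  have l3 := lo (p3 + 1 / 30) 1 1 1 1 0 (σ_ge1 (by linarith)) (σ_ge1 (by linarith))
    (σ_ge1 (by linarith)) (σ_ge1 (by linarith)) (σ_ge0 (by linarith))
  have l4 := lo (p4 + 1 / 30) 1 1 1 1 1 (σ_ge1 (by linarith)) (σ_ge1 (by linarith))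
    (σ_ge1 (by linarith)) (σ_ge1 (by linarith)) (σ_ge1 (by linarith))
  have m0 : ∀ z, p0 + 1 / 30 ≤ z → p2 - 1 / 30 * (p2 - p0 - 1 / 30) ≤ (a : CircleDeg1Lift) z :=
    fun z hz => le_trans (by rw [hav]; linarith) (mono _ hz)
  have m1 : ∀ z, p1 + 1 / 30 ≤ z → p3 - 1 / 30 * (p3 - p1 - 1 / 30) ≤ (a : CircleDeg1Lift) z :=
    fun z hz => le_trans (by rw [hav]; linarith) (mono _ hz)
  have m2 : ∀ z, p2 + 1 / 30 ≤ z → p4 - 1 / 30 * (p4 - p2 - 1 / 30) ≤ (a : CircleDeg1Lift) z :=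
    fun z hz => le_trans (by rw [hav]; linarith) (mono _ hz)
  have m3 : ∀ z, p3 + 1 / 30 ≤ z →
      p0 + 1 - 1 / 30 * (p0 + 1 - p3 - 1 / 30) ≤ (a : CircleDeg1Lift) z :=
    fun z hz => le_trans (by rw [hav]; linarith) (mono _ hz)
  have m4 : ∀ z, p4 + 1 / 30 ≤ z →
      p1 + 1 - 1 / 30 * (p1 + 1 - p4 - 1 / 30) ≤ (a : CircleDeg1Lift) z :=
    fun z hz => le_trans (by rw [hav]; linarith) (mono _ hz)
  have n0 : ∀ z, z ≤ p0 → (a : CircleDeg1Lift) z ≤ p1 :=
    fun z hz => le_trans (mono _ hz) (by rw [hav]; linarith)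
  have n1 : ∀ z, z ≤ p1 → (a : CircleDeg1Lift) z ≤ p2 :=
    fun z hz => le_trans (mono _ hz) (by rw [hav]; linarith)
  have n2 : ∀ z, z ≤ p2 → (a : CircleDeg1Lift) z ≤ p3 :=
    fun z hz => le_trans (mono _ hz) (by rw [hav]; linarith)
  have n3 : ∀ z, z ≤ p3 → (a : CircleDeg1Lift) z ≤ p4 :=
    fun z hz => le_trans (mono _ hz) (by rw [hav]; linarith)
  have n4 : ∀ z, z ≤ p4 → (a : CircleDeg1Lift) z ≤ p0 + 1 :=
    fun z hz => le_trans (mono _ hz) (by rw [hav]; linarith)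
  have h5 : ∀ z, ((a : CircleDeg1Lift) ^ 5) z = (a : CircleDeg1Lift) ((a : CircleDeg1Lift)
      ((a : CircleDeg1Lift) ((a : CircleDeg1Lift) ((a : CircleDeg1Lift) z)))) := fun z => rfl
  refine ⟨a, ?_, fun z hz => le_trans (by linarith) (m0 z hz),
    fun z hz => le_trans (by linarith) (m1 z hz), fun z hz => le_trans (by linarith) (m2 z hz),
    fun z hz => le_trans (by linarith) (m3 z hz), fun z hz => le_trans (by linarith) (m4 z hz)⟩
  have t1 := translationNumber_le_of_le_add_nat ((a : CircleDeg1Lift) ^ 5) (x := p0) (m := 1) (by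
    rw [h5, Nat.cast_one]
    exact n4 _ (n3 _ (n2 _ (n1 _ (n0 _ le_rfl)))))
  have t2 := le_translationNumber_of_add_nat_le ((a : CircleDeg1Lift) ^ 5) (x := p0 + 1 / 30)
    (m := 1) (by
      rw [h5, Nat.cast_one]
      have k0 := m0 _ le_rfl
      have k1 := m1 _ (le_trans (by linarith) k0)
      have k2 := m2 _ (le_trans (by linarith) k1)
      have k3 := m3 _ (le_trans (by linarith) k2)
      have k4 := m4 _ (le_trans (by linarith) k3)
      linarith)
  rw [translationNumber_pow] at t1 t2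
  push_cast at t1 t2
  linarith

theorem lift_step (a : CircleDeg1Lift) (tab : ℕ → ℕ)
    (h : ∀ ρ : ℕ, ρ < 10 → ∀ z : ℝ, (ρ : ℝ) / 10 - 1 / 30 ≤ z → (tab ρ : ℝ) / 10 - 1 / 30 ≤ a z)
    (n : ℕ) : ∀ (N : ℕ) (z : ℝ), (N : ℝ) / 10 - 1 / 30 ≤ z →
      (((fun M => tab (M % 10) + 10 * (M / 10))^[n] N : ℕ) : ℝ) / 10 - 1 / 30 ≤ (a ^ n) z := by
  induction n with
  | zero => intro N z hz; simpa using hz
  | succ n ih =>
    intro N z hz
    rw [Function.iterate_succ_apply, pow_succ, mul_apply]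
    apply ih
    have h1 : (N : ℝ) = (N % 10 : ℕ) + 10 * (N / 10 : ℕ) := by
      exact_mod_cast (Nat.mod_add_div N 10).symm
    have h2 := h (N % 10) (Nat.mod_lt _ (by norm_num)) (z - (N / 10 : ℕ)) (by linarith)
    rw [map_sub_nat] at h2
    push_cast [-Nat.cast_div] at h2 ⊢
    linarith

/-- the moves of `a` on the letters -/
def tabA (ρ : ℕ) : ℕ := [5, 5, 5, 5, 6, 6, 7, 9, 13, 13].getD ρ 0

/-- the moves of `b` on the letters -/
def tabB (ρ : ℕ) : ℕ := [1, 2, 4, 8, 8, 10, 10, 10, 10, 11].getD ρ 0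

/-- one syllable pair on the letters -/
def stl (e : ℕ × ℕ) (N : ℕ) : ℕ :=
  (fun M => tabA (M % 10) + 10 * (M / 10))^[e.1] ((fun M => tabB (M % 10) + 10 * (M / 10))^[e.2] N)

theorem low_chk : ∃ N, N + 250 ≤ L.foldr stl (L.foldr stl N) := ⟨5, by decide +kernel⟩

theorem lower : ∃ a b : CircleDeg1Liftˣ, translationNumber (a : CircleDeg1Lift) = 1 / 5 ∧
    translationNumber (b : CircleDeg1Lift) = 1 / 5 ∧ 25 / 2 ≤ translationNumber (wd a b) := by
  obtain ⟨a, ha, a0, a1, a2, a3, a4⟩ := exists_push (3 / 10) (5 / 10) (6 / 10) (7 / 10) (9 / 10)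
    (by norm_num) (by norm_num) (by norm_num) (by norm_num) (by norm_num)
    (by norm_num) (by norm_num) (by norm_num) (by norm_num) (by norm_num)
  obtain ⟨b, hb, b0, b1, b2, b3, b4⟩ := exists_push 0 (1 / 10) (2 / 10) (4 / 10) (8 / 10)
    (by norm_num) (by norm_num) (by norm_num) (by norm_num) (by norm_num)
    (by norm_num) (by norm_num) (by norm_num) (by norm_num) (by norm_num)
  have a4' : ∀ z, -1 / 10 + 1 / 30 ≤ z → 5 / 10 - 1 / 30 ≤ (a : CircleDeg1Lift) z := by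
    intro z hz
    have := a4 (z + 1) (by linarith)
    rw [map_add_one] at this
    linarith
  have b4' : ∀ z, -2 / 10 + 1 / 30 ≤ z → 1 / 10 - 1 / 30 ≤ (b : CircleDeg1Lift) z := by
    intro z hz
    have := b4 (z + 1) (by linarith)
    rw [map_add_one] at this
    linarith
  have hA := lift_step (a : CircleDeg1Lift) tabA (by
    intro ρ hρ z hz
    interval_cases ρ <;> simp only [tabA, List.getD_cons_zero, List.getD_cons_succ] <;>
      push_cast at hz ⊢
    · linarith [a4' z (by linarith)]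
    · linarith [a4' z (by linarith)]
    · linarith [a4' z (by linarith)]
    · linarith [a4' z (by linarith)]
    · linarith [a0 z (by linarith)]
    · linarith [a0 z (by linarith)]
    · linarith [a1 z (by linarith)]
    · linarith [a2 z (by linarith)]
    · linarith [a3 z (by linarith)]
    · linarith [a3 z (by linarith)])
  have hB := lift_step (b : CircleDeg1Lift) tabB (by
    intro ρ hρ z hz
    interval_cases ρ <;> simp only [tabB, List.getD_cons_zero, List.getD_cons_succ] <;>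
      push_cast at hz ⊢
    · linarith [b4' z (by linarith)]
    · linarith [b0 z (by linarith)]
    · linarith [b1 z (by linarith)]
    · linarith [b2 z (by linarith)]
    · linarith [b2 z (by linarith)]
    · linarith [b3 z (by linarith)]
    · linarith [b3 z (by linarith)]
    · linarith [b3 z (by linarith)]
    · linarith [b3 z (by linarith)]
    · linarith [b4 z (by linarith)])
  have hs := sim (fun N z => (N : ℝ) / 10 - 1 / 30 ≤ z)
    (fun e => (a : CircleDeg1Lift) ^ e.1 * (b : CircleDeg1Lift) ^ e.2) stl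
    (fun e N z hz => by
      rw [mul_apply]
      exact hA _ _ _ (hB _ _ _ hz)) L
  have hw : ∀ (N : ℕ) (z : ℝ), (N : ℝ) / 10 - 1 / 30 ≤ z →
      ((L.foldr stl N : ℕ) : ℝ) / 10 - 1 / 30 ≤ wd a b z := by
    unfold wd
    exact hs
  obtain ⟨N, hN⟩ := low_chk
  have h1 := hw _ _ (hw N _ le_rfl)
  have h2 : (N : ℝ) + 250 ≤ ((L.foldr stl (L.foldr stl N) : ℕ) : ℝ) := by exact_mod_cast hN
  have h3 := le_translationNumber_of_add_nat_le (wd a b ^ 2) (x := (N : ℝ) / 10 - 1 / 30)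
    (m := 25) (by
      rw [pow_two, mul_apply]
      push_cast
      linarith)
  rw [translationNumber_pow] at h3
  push_cast at h3
  exact ⟨a, b, ha, hb, by linarith⟩

theorem sSup_eq : sSup {t : ℝ | ∃ a b : CircleDeg1Liftˣ,
    translationNumber (a : CircleDeg1Lift) = 1 / 5 ∧
    translationNumber (b : CircleDeg1Lift) = 1 / 5 ∧ t = translationNumber (wd a b)} = 25 / 2 := by
  apply IsGreatest.csSup_eq
  constructor
  · obtain ⟨a, b, ha, hb, h⟩ := lower
    exact ⟨a, b, ha, hb, le_antisymm h (upper a b ha hb)⟩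
  · rintro t ⟨a, b, ha, hb, rfl⟩
    exact upper a b ha hb

end Pool.Agent.H409Z.Slip
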