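import Mathlib

/-! A counterexample to the slippery conjecture of Calegari and Walker: for `r = s = 1/5` and the
word `(ab)^10 a b^4 a^3 b^4` the maximal rotation number is `25/2`. -/

set_option autoImplicit false
set_option maxHeartbeats 400000

open CircleDeg1Lift

namespace Pool.Agent.H409Z.Slip

/-- the exponents of the word -/
def L : List (ℕ × ℕ) :=
  [(1, 1), (1, 1), (1, 1), (1, 1), (1, 1), (1, 1), (1, 1), (1, 1), (1, 1), (1, 1), (1, 4), (3, 4)]

/-- the word evaluated at `a`, `b` -/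
def wd (a b : CircleDeg1Lift) : CircleDeg1Lift := (L.map fun e => a ^ e.1 * b ^ e.2).prod

theorem sim (P : ℕ → ℝ → Prop) (g : ℕ × ℕ → CircleDeg1Lift) (s : ℕ × ℕ → ℕ → ℕ)
    (h : ∀ e N z, P N z → P (s e N) (g e z)) (M : List (ℕ × ℕ)) :
    ∀ N z, P N z → P (M.foldr s N) ((M.map g).prod z) := by
  induction M with
  | nil => intro N z hz; exact hz
  | cons e M ih =>
    intro N z hz
    rw [List.map_cons, List.prod_cons, List.foldr_cons, mul_apply]
    exact h _ _ _ (ih N z hz)

/-! ### The upper bound -/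

/-- index of the first `Y` point above the `i`-th `X` point -/
def F (f0 f1 f2 f3 f4 i : ℕ) : ℕ :=
  (if i % 5 = 0 then f0 else if i % 5 = 1 then f1 else if i % 5 = 2 then f2
    else if i % 5 = 3 then f3 else f4) + 5 * (i / 5)

/-- bounded search -/
def srch (φ : ℕ → ℕ) (j : ℕ) : ℕ → ℕ → ℕ
  | 0, i => i
  | n + 1, i => if j < φ i then i else srch φ j n (i + 1)

theorem srch_spec (φ : ℕ → ℕ) (j : ℕ) : ∀ n i, j < φ (i + n) → j < φ (srch φ j n i) := by
  intro n
  induction n with
  | zero => intro i h; exact h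
  | succ n ih =>
    intro i h
    unfold srch
    split_ifs with h1
    · exact h1
    · apply ih
      rwa [show i + 1 + n = i + (n + 1) by omega]

/-- index of the first `X` point above the `j`-th `Y` point -/
def G (f0 f1 f2 f3 f4 j : ℕ) : ℕ := srch (F f0 f1 f2 f3 f4) j 10 (5 * (j / 5 - 1))

theorem G_spec (f0 f1 f2 f3 f4 j : ℕ) : j < F f0 f1 f2 f3 f4 (G f0 f1 f2 f3 f4 j) := by
  apply srch_spec
  unfold F
  rw [if_pos (by omega)]
  omega

/-- one syllable pair -/
def stp (f0 f1 f2 f3 f4 : ℕ) (e : ℕ × ℕ) (j : ℕ) : ℕ :=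
  F f0 f1 f2 f3 f4 (G f0 f1 f2 f3 f4 (j + e.2) + e.1)

/-- the finite check for one relative position of the two periodic orbits -/
def good (f0 f1 f2 f3 f4 : ℕ) : Bool :=
  (List.range 5).any fun j =>
    decide (L.foldr (stp f0 f1 f2 f3 f4) (L.foldr (stp f0 f1 f2 f3 f4) (j + 5)) ≤ j + 5 + 5 * 25)

/-- the finite check -/
def chk (f0 : ℕ) : Bool :=
  (List.range 6).all fun d1 => (List.range 6).all fun d2 => decide (d2 < d1) ||
    (List.range 6).all fun d3 => decide (d3 < d2) || (List.range 6).all fun d4 =>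
      decide (d4 < d3) || good f0 (f0 + d1) (f0 + d2) (f0 + d3) (f0 + d4)

theorem chk1 : chk 1 = true := by decide +kernel
theorem chk2 : chk 2 = true := by decide +kernel
theorem chk3 : chk 3 = true := by decide +kernel
theorem chk4 : chk 4 = true := by decide +kernel
theorem chk5 : chk 5 = true := by decide +kernel

theorem good_of (f0 f1 f2 f3 f4 : ℕ) (h0 : 1 ≤ f0) (h0' : f0 ≤ 5) (h1 : f0 ≤ f1) (h2 : f1 ≤ f2)
    (h3 : f2 ≤ f3) (h4 : f3 ≤ f4) (h5 : f4 ≤ f0 + 5) : good f0 f1 f2 f3 f4 = true := by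
  have hc : chk f0 = true := by
    interval_cases f0
    exacts [chk1, chk2, chk3, chk4, chk5]
  unfold chk at hc
  simp only [List.all_eq_true, List.mem_range, Bool.or_eq_true, decide_eq_true_eq] at hc
  have a1 := hc (f1 - f0) (by omega) (f2 - f0) (by omega)
  have a2 := a1.resolve_left (by omega) (f3 - f0) (by omega)
  have a3 := a2.resolve_left (by omega) (f4 - f0) (by omega)
  have a4 := a3.resolve_left (by omega)
  rwa [show f0 + (f1 - f0) = f1 by omega, show f0 + (f2 - f0) = f2 by omega,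
    show f0 + (f3 - f0) = f3 by omega, show f0 + (f4 - f0) = f4 by omega] at a4

end Pool.Agent.H409Z.Slip
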