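import Mathlib

set_option autoImplicit false

namespace Pool.Agent.H409Z.Wb

/-- Vertices of the rooted spherically homogeneous tree with alphabets `X 0, X 1, ...`: the words
`x_0 x_1 ... x_(n-1)` with `x_i` in `X i`; such a word lies on level `n`. -/
def Vtx (X : ℕ → Type) : Type := Σ n : ℕ, ((i : Fin n) → X i)

/-- `w` lies in the subtree rooted at `v`: the word `v` is an initial segment of the word `w`. -/
def Below {X : ℕ → Type} (v w : Vtx X) : Prop :=
  ∃ h : v.1 ≤ w.1, ∀ i : Fin v.1, w.2 (Fin.castLE h i) = v.2 i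

/-- A permutation of the vertices that is an automorphism of the rooted tree. -/
def IsTreeAut {X : ℕ → Type} (g : Equiv.Perm (Vtx X)) : Prop :=
  (∀ v, (g v).1 = v.1) ∧ ∀ v w, Below (g v) (g w) ↔ Below v w

/-- `φ` is a faithful action by tree automorphisms, transitive on every level, and the rigid
stabiliser of every vertex is nontrivial. -/
def IsWeaklyBranch {X : ℕ → Type} {G : Type} [Group G] (φ : G →* Equiv.Perm (Vtx X)) : Prop :=
  Function.Injective φ ∧ (∀ g, IsTreeAut (φ g)) ∧
    (∀ v w : Vtx X, v.1 = w.1 → ∃ g, φ g v = w) ∧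
    ∀ v : Vtx X, ∃ g : G, g ≠ 1 ∧ ∀ w, ¬ Below v w → φ g w = w

/-- There is a left-invariant finitely additive probability measure on all subsets of `G`. -/
def IsAmenable (G : Type) [Group G] : Prop :=
  ∃ m : Set G → ℝ, (∀ A, 0 ≤ m A) ∧ m Set.univ = 1 ∧
    (∀ A B, Disjoint A B → m (A ∪ B) = m A + m B) ∧
    ∀ (g : G) (A : Set G), m ((fun x => g * x) '' A) = m A

end Pool.Agent.H409Z.Wb
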