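import Mathlib
import Pool.Agent.Helper889.Br.Amen

set_option autoImplicit false
set_option linter.unusedSectionVars false

/-! Germs at the base ray of the elements of a directed group. -/

namespace Pool.Agent.H409Z.Wb

open Pool.Agent.Helper889.Br

variable {S : Sys}

/-- the directed group -/
def GG (S : Sys) : Subgroup (Equiv.Perm S.Bd) :=
  Subgroup.closure (Set.range (dir (S := S) 0) ∪ Set.range (root (S := S)))

theorem dir_mem (h : S.H) : dir (S := S) 0 h ∈ GG S := Subgroup.subset_closure (Or.inl ⟨h, rfl⟩)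

theorem root_mem (a : Equiv.Perm (S.X 0)) : root (S := S) a ∈ GG S :=
  Subgroup.subset_closure (Or.inr ⟨a, rfl⟩)

theorem TA_of_mem {g : Equiv.Perm S.Bd} (hg : g ∈ GG S) : TA g := by
  unfold GG at hg
  induction hg using Subgroup.closure_induction with
  | mem g hg =>
    rcases hg with ⟨h, rfl⟩ | ⟨a, rfl⟩
    · exact TA_dir h
    · exact TA_root a
  | one => exact TA_one
  | mul a b _ _ iha ihb => exact TA_mul iha ihb
  | inv a _ ih => exact TA_inv ih

/-- the base ray -/
def oo (S : Sys) : S.Bd := fun i => S.o i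

theorem dirPt_shift {n : ℕ} (h : S.H) {z : S.Bd} (hz : z n = S.o n) :
    S.dirPt n h z = S.dirPt (n + 1) h z := by
  have hS : ∀ k, S.Sg n k z ↔ S.Sg (n + 1) k z := by
    intro k
    constructor
    · rintro ⟨h1, h2, h3⟩
      refine ⟨?_, h2, fun j hj hk => h3 j (by omega) hk⟩
      rcases h1.lt_or_eq with h4 | h4
      · exact h4
      · subst h4
        exact absurd (hz.symm.trans h2) (S.hot n)
    · rintro ⟨h1, h2, h3⟩
      refine ⟨by omega, h2, fun j hj hk => ?_⟩
      rcases hj.lt_or_eq with h4 | h4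
      · exact h3 j h4 hk
      · subst h4
        exact hz
  funext i
  cases i with
  | zero => rfl
  | succ k =>
    by_cases hs : S.Sg n k z
    · rw [dirPt_succ_pos _ hs, dirPt_succ_pos _ ((hS k).1 hs)]
    · rw [dirPt_succ_neg _ hs, dirPt_succ_neg _ (fun hc => hs ((hS k).2 hc))]

theorem dirPt_none {n : ℕ} (h : S.H) {z : S.Bd} (hz : ∀ k, ¬ S.Sg n k z) : S.dirPt n h z = z := by
  funext i
  cases i with
  | zero => rfl
  | succ k => exact dirPt_succ_neg h (hz k)

theorem dirPt_other {n k : ℕ} (h : S.H) {z : S.Bd} (hs : S.Sg n k z) {i : ℕ} (hi : i ≠ k + 1) :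
    S.dirPt n h z i = z i := by
  cases i with
  | zero => rfl
  | succ j =>
    refine dirPt_succ_neg h fun hc => hi ?_
    rw [Sg_unique hs hc]

/-- `g` has germ `h` at `x`, seen from level `n` on -/
def GermAt (g : Equiv.Perm S.Bd) (x : S.Bd) (h : S.H) (n : ℕ) : Prop :=
  (∀ i, n ≤ i → x i = S.o i) ∧ (∀ i, n ≤ i → g x i = S.o i) ∧
    ∀ z : S.Bd, (∀ i < n, z i = x i) → g z = fun i => if i < n then g x i else S.dirPt n h z i

theorem GermAt_succ {g : Equiv.Perm S.Bd} {x : S.Bd} {h : S.H} {n : ℕ} (hg : GermAt g x h n) :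
    GermAt g x h (n + 1) := by
  obtain ⟨h1, h2, h3⟩ := hg
  refine ⟨fun i hi => h1 i (by omega), fun i hi => h2 i (by omega), fun z hz => ?_⟩
  rw [h3 z (fun i hi => hz i (by omega))]
  have hzn : z n = S.o n := by rw [hz n (by omega), h1 n le_rfl]
  funext i
  by_cases hi : i < n
  · rw [if_pos hi, if_pos (by omega)]
  · rw [if_neg hi]
    by_cases hi' : i < n + 1
    · have : i = n := by omega
      subst this
      rw [if_pos hi', dirPt_le h z le_rfl, hzn, h2 _ le_rfl]
    · rw [if_neg hi', dirPt_shift h hzn]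

theorem GermAt_mono {g : Equiv.Perm S.Bd} {x : S.Bd} {h : S.H} {n m : ℕ} (hg : GermAt g x h n)
    (hnm : n ≤ m) : GermAt g x h m := by
  induction m, hnm using Nat.le_induction with
  | base => exact hg
  | succ m _ ih => exact GermAt_succ ih

theorem Germ_unique (hf : ∀ h : S.H, h ≠ 1 → ∀ n, ∃ k, n ≤ k ∧ S.ρ k h ≠ 1)
    {g : Equiv.Perm S.Bd} {x : S.Bd} {h h' : S.H} {n n' : ℕ} (hg : GermAt g x h n)
    (hg' : GermAt g x h' n') : h = h' := by
  by_contra hne
  have a1 := GermAt_mono hg (le_max_left n n')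
  have a2 := GermAt_mono hg' (le_max_right n n')
  set m := max n n'
  obtain ⟨k, hk, hρ⟩ := hf (h⁻¹ * h') (fun hc => hne (inv_mul_eq_one.1 hc)) m
  obtain ⟨b, hy⟩ : ∃ y, S.ρ k (h⁻¹ * h') y ≠ y := by
    by_contra hcon
    push Not at hcon
    exact hρ (Equiv.ext hcon)
  set z : S.Bd := Function.update
    (Function.update (fun i => if i < m then x i else S.o i) k (S.t k)) (k + 1) b with hz
  have hzm : ∀ i < m, z i = x i := fun i hi => by
    rw [hz, Function.update_of_ne (by omega), Function.update_of_ne (by omega), if_pos hi]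
  have z1 : z k = S.t k := by rw [hz, Function.update_of_ne (by omega), Function.update_self]
  have z2 : z (k + 1) = b := by rw [hz, Function.update_self]
  have hs : S.Sg m k z := by
    refine ⟨hk, z1, fun j hj hjk => ?_⟩
    rw [hz, Function.update_of_ne (by omega), Function.update_of_ne (by omega), if_neg (by omega)]
  have e1 := a1.2.2 z hzm
  have e2 := a2.2.2 z hzm
  have f2 := congrFun (e1.symm.trans e2) (k + 1)
  rw [if_neg (by omega), if_neg (by omega), dirPt_succ_pos _ hs, dirPt_succ_pos _ hs, z2] at f2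
  apply hy
  rw [map_mul, Equiv.Perm.mul_apply, ← f2, map_inv]
  exact (S.ρ k h).symm_apply_apply _

theorem Germ_mul {g g' : Equiv.Perm S.Bd} {x : S.Bd} {h h' : S.H} {n n' : ℕ}
    (hg : GermAt g x h n) (hg' : GermAt g' (g x) h' n') :
    GermAt (g' * g) x (h' * h) (max n n') := by
  obtain ⟨a1, a2, a3⟩ := GermAt_mono hg (le_max_left n n')
  obtain ⟨b1, b2, b3⟩ := GermAt_mono hg' (le_max_right n n')
  set m := max n n'
  refine ⟨a1, b2, fun z hz => ?_⟩
  have e1 := a3 z hz
  rw [Equiv.Perm.mul_apply, b3 (g z) (fun i hi => by rw [e1]; simp only; rw [if_pos hi])]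
  funext i
  by_cases hi : i < m
  · rw [if_pos hi, if_pos hi]; rfl
  · rw [if_neg hi, if_neg hi, ← dirPt_mul]
    refine dirPt_congr _ (fun j hj _ => ?_) (by omega)
    rw [e1]; simp only
    rw [if_neg (by omega)]

theorem Germ_one {x : S.Bd} {n : ℕ} (hx : ∀ i, n ≤ i → x i = S.o i) :
    GermAt (1 : Equiv.Perm S.Bd) x 1 n := by
  refine ⟨hx, hx, fun z hz => ?_⟩
  funext i
  rw [dirPt_one]
  split_ifs with hi
  · exact hz i hi
  · rfl

theorem Germ_root (a : Equiv.Perm (S.X 0)) {x : S.Bd} {n : ℕ} (hx : ∀ i, n ≤ i → x i = S.o i) :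
    GermAt (root a) x 1 (n + 1) := by
  refine ⟨fun i hi => hx i (by omega), fun i hi => ?_, fun z hz => ?_⟩
  · obtain ⟨k, rfl⟩ : ∃ k, i = k + 1 := ⟨i - 1, by omega⟩
    rw [root_succ, hx _ (by omega)]
  · funext i
    rw [dirPt_one]
    cases i with
    | zero => rw [if_pos (by omega), root_zero, root_zero, hz 0 (by omega)]
    | succ k =>
      rw [root_succ]
      split_ifs with hi
      · rw [root_succ, hz _ hi]
      · rfl

theorem dir_oo (h : S.H) : dir 0 h (oo S) = oo S :=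
  dirPt_none h fun k hk => S.hot k hk.2.1

theorem Germ_dir_oo (h : S.H) : GermAt (dir 0 h) (oo S) h 0 := by
  refine ⟨fun _ _ => rfl, fun i _ => by rw [dir_oo]; rfl, fun z _ => ?_⟩
  funext i
  rw [if_neg (by omega)]
  rfl

theorem Germ_dir_ne (h : S.H) {x : S.Bd} {N : ℕ} (hx : ∀ i, N ≤ i → x i = S.o i)
    (hne : x ≠ oo S) : ∃ m, GermAt (dir 0 h) x 1 m := by
  classical
  have hex : ∃ k, x k ≠ S.o k := by
    by_contra hcon
    push Not at hcon
    exact hne (funext hcon)
  set k := Nat.find hex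
  have hk1 : x k ≠ S.o k := Nat.find_spec hex
  have hk2 : ∀ j < k, x j = S.o j := fun j hj => not_not.mp (Nat.find_min hex hj)
  set m := max N (k + 2) with hm
  have key : ∀ z : S.Bd, (∀ i ≤ k, z i = x i) → ∀ i, i ≠ k + 1 → S.dirPt 0 h z i = z i := by
    intro z hz i hi
    cases i with
    | zero => rfl
    | succ j =>
      refine dirPt_succ_neg h fun hc => ?_
      rcases lt_trichotomy j k with h1 | h1 | h1
      · exact S.hot j (by rw [← hk2 j h1, ← hz j h1.le, hc.2.1])
      · exact hi (by rw [h1])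
      · exact hk1 (by rw [← hz k le_rfl, hc.2.2 k (Nat.zero_le _) h1])
  refine ⟨m, fun i hi => hx i (by omega), fun i hi => ?_, fun z hz => ?_⟩
  · rw [dir_apply, key x (fun _ _ => rfl) i (by omega)]
    exact hx i (by omega)
  · funext i
    rw [dirPt_one, dir_apply, dir_apply]
    by_cases hi : i < m
    · rw [if_pos hi]
      exact dirPt_congr h (fun j _ hj => hz j (by omega)) (Nat.zero_le i)
    · rw [if_neg hi, key z (fun j hj => hz j (by omega)) i (by omega)]

theorem Germ_exists_aux {g : Equiv.Perm S.Bd} (hg : g ∈ GG S) :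
    ∀ x : S.Bd, (∃ n, ∀ i, n ≤ i → x i = S.o i) →
      (∃ h n, GermAt g x h n) ∧ (∃ h n, GermAt g⁻¹ x h n) := by
  unfold GG at hg
  induction hg using Subgroup.closure_induction with
  | mem g hg =>
    rintro x ⟨n, hx⟩
    have hD : ∀ h : S.H, ∃ h' n, GermAt (dir 0 h) x h' n := by
      intro h
      by_cases hxo : x = oo S
      · rw [hxo]
        exact ⟨_, _, Germ_dir_oo h⟩
      · obtain ⟨m, hm⟩ := Germ_dir_ne h hx hxo
        exact ⟨1, m, hm⟩
    rcases hg with ⟨h, rfl⟩ | ⟨a, rfl⟩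
    · exact ⟨hD h, by rw [← map_inv]; exact hD _⟩
    · exact ⟨⟨1, _, Germ_root a hx⟩, by rw [← map_inv]; exact ⟨1, _, Germ_root _ hx⟩⟩
  | one =>
    rintro x ⟨n, hx⟩
    rw [inv_one]
    exact ⟨⟨1, n, Germ_one hx⟩, ⟨1, n, Germ_one hx⟩⟩
  | mul a b _ _ iha ihb =>
    rintro x hx
    constructor
    · obtain ⟨h, n, h1⟩ := (ihb x hx).1
      obtain ⟨h', n', h2⟩ := (iha (b x) ⟨n, h1.2.1⟩).1
      exact ⟨h' * h, _, Germ_mul h1 h2⟩
    · rw [mul_inv_rev]
      obtain ⟨h, n, h1⟩ := (iha x hx).2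
      obtain ⟨h', n', h2⟩ := (ihb (a⁻¹ x) ⟨n, h1.2.1⟩).2
      exact ⟨h' * h, _, Germ_mul h1 h2⟩
  | inv a _ ih =>
    rintro x hx
    rw [inv_inv]
    exact (ih x hx).symm

/-- the germ of `g⁻¹` at the base ray -/
noncomputable def gam (g : GG S) : S.H :=
  (Germ_exists_aux g.2 (oo S) ⟨0, fun _ _ => rfl⟩).2.choose

theorem gam_spec (g : GG S) : ∃ n, GermAt (g : Equiv.Perm S.Bd)⁻¹ (oo S) (gam g) n :=
  (Germ_exists_aux g.2 (oo S) ⟨0, fun _ _ => rfl⟩).2.choose_spec

section
variable (hf : ∀ h : S.H, h ≠ 1 → ∀ n, ∃ k, n ≤ k ∧ S.ρ k h ≠ 1)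
include hf

theorem gam_mul (g s : GG S) {h : S.H} {n : ℕ}
    (hs : GermAt (s : Equiv.Perm S.Bd)⁻¹ ((g : Equiv.Perm S.Bd)⁻¹ (oo S)) h n) :
    gam (g * s) = h * gam g := by
  obtain ⟨m, hm⟩ := gam_spec g
  obtain ⟨m', hm'⟩ := gam_spec (g * s)
  have h1 := Germ_mul hm hs
  have e : ((g * s : GG S) : Equiv.Perm S.Bd)⁻¹ =
      (s : Equiv.Perm S.Bd)⁻¹ * (g : Equiv.Perm S.Bd)⁻¹ := by
    rw [Subgroup.coe_mul, mul_inv_rev]
  rw [e] at hm'
  exact Germ_unique hf hm' h1

theorem gam_root (g : GG S) (a : Equiv.Perm (S.X 0)) :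
    gam (g * ⟨root a, root_mem a⟩) = gam g := by
  obtain ⟨m, hm⟩ := gam_spec g
  have h1 : GermAt ((⟨root a, root_mem a⟩ : GG S) : Equiv.Perm S.Bd)⁻¹
      ((g : Equiv.Perm S.Bd)⁻¹ (oo S)) 1 (m + 1) := by
    show GermAt (root a)⁻¹ _ _ _
    rw [← map_inv]
    exact Germ_root _ hm.2.1
  rw [gam_mul hf g _ h1, one_mul]

theorem gam_dir_eq (g : GG S) (h : S.H) (hg : (g : Equiv.Perm S.Bd)⁻¹ (oo S) = oo S) :
    gam (g * ⟨dir 0 h, dir_mem h⟩) = h⁻¹ * gam g := by
  refine gam_mul hf g _ (n := 0) ?_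
  show GermAt (dir 0 h)⁻¹ _ _ _
  rw [← map_inv, hg]
  exact Germ_dir_oo _

theorem gam_dir_ne (g : GG S) (h : S.H) (hg : (g : Equiv.Perm S.Bd)⁻¹ (oo S) ≠ oo S) :
    gam (g * ⟨dir 0 h, dir_mem h⟩) = gam g := by
  obtain ⟨m, hm⟩ := gam_spec g
  obtain ⟨m', hm'⟩ := Germ_dir_ne h⁻¹ hm.2.1 hg
  rw [map_inv] at hm'
  rw [gam_mul hf g ⟨dir 0 h, dir_mem h⟩ hm', one_mul]

theorem gam_one : gam (1 : GG S) = 1 := by
  obtain ⟨m, hm⟩ := gam_spec (1 : GG S)
  have : GermAt ((1 : GG S) : Equiv.Perm S.Bd)⁻¹ (oo S) (1 : S.H) 0 := by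
    have e : ((1 : GG S) : Equiv.Perm S.Bd)⁻¹ = 1 := by simp
    rw [e]
    exact Germ_one fun _ _ => rfl
  exact Germ_unique hf hm this

theorem gam_dir (h : S.H) : (gam (⟨dir 0 h, dir_mem h⟩ : GG S))⁻¹ = h := by
  have h1 := gam_dir_eq hf (1 : GG S) h (by simp)
  rw [one_mul, gam_one hf, mul_one] at h1
  rw [h1, inv_inv]

end

/-- the generating family -/
noncomputable def gens {J : Type} (gen : J → S.H) : J ⊕ Equiv.Perm (S.X 0) → GG S :=
  Sum.elim (fun j => ⟨dir 0 (gen j), dir_mem _⟩) (fun a => ⟨root a, root_mem a⟩)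

theorem lift_harmonic (hf : ∀ h : S.H, h ≠ 1 → ∀ n, ∃ k, n ≤ k ∧ S.ρ k h ≠ 1) {J : Type}
    [Fintype J] (gen : J → S.H) (F : S.H → ℝ)
    (hF : ∀ v, (∑ j, F (v * gen j)) = Fintype.card J * F v) (g : GG S) :
    (∑ j, F (gam (g * gens gen j))⁻¹) =
      Fintype.card (J ⊕ Equiv.Perm (S.X 0)) * F (gam g)⁻¹ := by
  rw [Fintype.sum_sum_type, Fintype.card_sum]
  simp only [gens, Sum.elim_inl, Sum.elim_inr, gam_root hf]
  rw [Finset.sum_const, nsmul_eq_mul, Finset.card_univ]
  push_cast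
  rw [add_mul]
  congr 1
  by_cases hu : (g : Equiv.Perm S.Bd)⁻¹ (oo S) = oo S
  · simp only [gam_dir_eq hf g _ hu, mul_inv_rev, inv_inv]
    exact hF _
  · simp only [gam_dir_ne hf g _ hu]
    rw [Finset.sum_const, nsmul_eq_mul, Finset.card_univ]

theorem closure_gens {J : Type} (gen : J → S.H) (hgen : Subgroup.closure (Set.range gen) = ⊤) :
    Subgroup.closure (Set.range (gens gen)) = ⊤ := by
  rw [eq_top_iff]
  rintro ⟨g, hg⟩ -
  unfold GG at hg
  induction hg using Subgroup.closure_induction with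
  | mem g hg =>
    rcases hg with ⟨h, rfl⟩ | ⟨a, rfl⟩
    · have h1 : h ∈ Subgroup.closure (Set.range gen) := by rw [hgen]; trivial
      induction h1 using Subgroup.closure_induction with
      | mem x hx =>
        obtain ⟨j, rfl⟩ := hx
        exact Subgroup.subset_closure ⟨Sum.inl j, rfl⟩
      | one =>
        have : (⟨dir 0 1, dir_mem 1⟩ : GG S) = 1 := Subtype.ext (map_one _)
        exact this ▸ one_mem _
      | mul a b _ _ iha ihb =>
        have : (⟨dir 0 (a * b), dir_mem _⟩ : GG S) = ⟨dir 0 a, dir_mem _⟩ * ⟨dir 0 b, dir_mem _⟩ :=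
          Subtype.ext (map_mul _ _ _)
        exact this ▸ mul_mem iha ihb
      | inv a _ ih =>
        have : (⟨dir 0 a⁻¹, dir_mem _⟩ : GG S) = (⟨dir 0 a, dir_mem _⟩ : GG S)⁻¹ :=
          Subtype.ext (map_inv _ _)
        exact this ▸ inv_mem ih
    · exact Subgroup.subset_closure ⟨Sum.inr a, rfl⟩
  | one => exact one_mem _
  | mul a b ha hb iha ihb => exact mul_mem iha ihb
  | inv a ha ih => exact inv_mem ih

section generic
variable {G : Type} {J : Type} [Fintype J]

/-- uniform measure on a finite family -/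
noncomputable def um (s : J → G) : G →₀ ℝ := ∑ j, Finsupp.single (s j) (1 / (Fintype.card J : ℝ))

theorem um_sum (s : J → G) (f : G → ℝ) :
    ((um s).sum fun h a => a * f h) = (∑ j, f (s j)) / Fintype.card J := by
  unfold um
  rw [← Finsupp.sum_finsetSum_index (fun _ => by rw [zero_mul]) (fun _ _ _ => by rw [add_mul]),
    Finset.sum_div]
  refine Finset.sum_congr rfl fun j _ => ?_
  rw [Finsupp.sum_single_index (by rw [zero_mul])]
  ring

theorem um_apply [DecidableEq G] (s : J → G) (g : G) :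
    um s g = ∑ j, if s j = g then 1 / (Fintype.card J : ℝ) else 0 := by
  unfold um
  rw [Finsupp.finsetSum_apply]
  exact Finset.sum_congr rfl fun j _ => Finsupp.single_apply

theorem um_nonneg (s : J → G) (g : G) : 0 ≤ um s g := by
  classical
  rw [um_apply]
  exact Finset.sum_nonneg fun j _ => by split_ifs <;> positivity

theorem um_support [Nonempty J] (s : J → G) : ((um s).support : Set G) = Set.range s := by
  classical
  ext g
  rw [Finset.mem_coe, Finsupp.mem_support_iff, Set.mem_range]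
  constructor
  · intro h
    by_contra hcon
    push Not at hcon
    apply h
    rw [um_apply]
    exact Finset.sum_eq_zero fun j _ => if_neg (hcon j)
  · rintro ⟨j, rfl⟩
    have hc : (0:ℝ) < Fintype.card J := by exact_mod_cast Fintype.card_pos
    have h1 : (if s j = s j then 1 / (Fintype.card J : ℝ) else 0) ≤ um s (s j) := by
      rw [um_apply]
      exact Finset.single_le_sum (f := fun i => if s i = s j then 1 / (Fintype.card J : ℝ) else 0)
        (fun i _ => by split_ifs <;> positivity) (Finset.mem_univ j)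
    rw [if_pos rfl] at h1
    have h2 : 0 < 1 / (Fintype.card J : ℝ) := by positivity
    linarith

theorem um_symm [Group G] (s : J → G) (σ : Equiv.Perm J) (hσ : ∀ j, s (σ j) = (s j)⁻¹) (g : G) :
    um s g⁻¹ = um s g := by
  classical
  rw [um_apply, um_apply, ← Equiv.sum_comp σ]
  refine Finset.sum_congr rfl fun j _ => ?_
  rw [hσ]
  by_cases h : s j = g
  · rw [if_pos h, if_pos (by rw [h])]
  · rw [if_neg h, if_neg (fun hc => h (inv_injective hc))]

theorem semigroup_top [Group G] (T : Set G) (h1 : (1 : G) ∈ T) (hinv : ∀ g ∈ T, g⁻¹ ∈ T)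
    (hT : Subgroup.closure T = ⊤) : Subsemigroup.closure T = ⊤ := by
  rw [eq_top_iff]
  intro g _
  have h2 : g ∈ (Subgroup.closure T).toSubmonoid := by rw [hT]; trivial
  rw [Subgroup.closure_toSubmonoid] at h2
  induction h2 using Submonoid.closure_induction with
  | mem x hx =>
    rcases hx with hx | hx
    · exact Subsemigroup.subset_closure hx
    · exact Subsemigroup.subset_closure (by simpa using hinv _ hx)
  | one => exact Subsemigroup.subset_closure h1
  | mul a b _ _ iha ihb => exact mul_mem (iha trivial) (ihb trivial)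

end generic

end Pool.Agent.H409Z.Wb
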