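import Mathlib
import Pool.Agent.H409Z.WbGerm

set_option autoImplicit false
set_option linter.unusedSectionVars false

/-! Level transitivity and rigid stabilisers of a directed group. -/

namespace Pool.Agent.H409Z.Wb

open Pool.Agent.Helper889.Br
open scoped commutatorElement

variable {S : Sys}

/-- the cylinder of `o^n` -/
def Cy (n : ℕ) (x : S.Bd) : Prop := ∀ i < n, x i = S.o i

/-- the cylinder of `o^n t` -/
def Ct (n : ℕ) (x : S.Bd) : Prop := Cy n x ∧ x n = S.t n

theorem Cy_succ {n : ℕ} {x : S.Bd} : Cy (n + 1) x ↔ Cy n x ∧ x n = S.o n := by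
  constructor
  · intro h
    exact ⟨fun i hi => h i (by omega), h n (by omega)⟩
  · rintro ⟨h1, h2⟩ i hi
    rcases (Nat.lt_succ_iff.mp hi).lt_or_eq with h | h
    · exact h1 i h
    · subst h
      exact h2

theorem Cy_update {n m : ℕ} (hm : n ≤ m) (x : S.Bd) (a : S.X m) :
    Cy n (Function.update x m a) ↔ Cy n x := by
  refine forall_congr' fun i => forall_congr' fun hi => ?_
  rw [Function.update_of_ne (by omega)]

theorem Ct_update {n m : ℕ} (hm : n < m) (x : S.Bd) (a : S.X m) :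
    Ct n (Function.update x m a) ↔ Ct n x := by
  unfold Ct
  rw [Cy_update hm.le, Function.update_of_ne (by omega)]

open Classical in
/-- permutations of the letter at place `n`, applied only where `p` holds -/
noncomputable def Lr (n : ℕ) (p : S.Bd → Prop)
    (hp : ∀ x a, p (Function.update x n a) ↔ p x) : Equiv.Perm (S.X n) →* Equiv.Perm S.Bd where
  toFun := fun π =>
    { toFun := fun x => if p x then Function.update x n (π (x n)) else x
      invFun := fun x => if p x then Function.update x n (π.symm (x n)) else x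
      left_inv := fun x => by
        by_cases h : p x
        · simp [h, hp]
        · simp [h]
      right_inv := fun x => by
        by_cases h : p x
        · simp [h, hp]
        · simp [h] }
  map_one' := by
    ext x : 1
    by_cases h : p x <;> simp
  map_mul' := fun a b => by
    ext x : 1
    by_cases h : p x <;> simp [h, hp]

theorem Lr_pos {n : ℕ} {p : S.Bd → Prop} (hp : ∀ x a, p (Function.update x n a) ↔ p x)
    (π : Equiv.Perm (S.X n)) {x : S.Bd} (h : p x) :
    Lr n p hp π x = Function.update x n (π (x n)) := if_pos h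

theorem Lr_neg {n : ℕ} {p : S.Bd → Prop} (hp : ∀ x a, p (Function.update x n a) ↔ p x)
    (π : Equiv.Perm (S.X n)) {x : S.Bd} (h : ¬ p x) : Lr n p hp π x = x := if_neg h

/-- rooted at `o^n` -/
noncomputable def Ro (n : ℕ) : Equiv.Perm (S.X n) →* Equiv.Perm S.Bd :=
  Lr n (Cy n) (fun x a => Cy_update le_rfl x a)

/-- rooted at `o^n t` -/
noncomputable def Et (n : ℕ) : Equiv.Perm (S.X (n + 1)) →* Equiv.Perm S.Bd :=
  Lr (n + 1) (Ct n) (fun x a => Ct_update (Nat.lt_succ_self n) x a)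

open Classical in
/-- directed below `o^n` -/
noncomputable def Do (n : ℕ) : S.H →* Equiv.Perm S.Bd where
  toFun := fun h => DD n (fun v => if v = ow n then h else 1)
  map_one' := by
    ext x : 1
    rw [DD_apply, ite_self, dirPt_one]
    rfl
  map_mul' := fun a b => by
    rw [DD_mul]
    congr 1
    funext v
    split_ifs <;> simp

theorem Cy_iff {n : ℕ} {x : S.Bd} : Cy n x ↔ pre n x = ow n :=
  ⟨fun h => funext fun i => h i i.2, fun h i hi => congrFun h ⟨i, hi⟩⟩

open Classical in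
theorem Do_apply (n : ℕ) (h : S.H) (x : S.Bd) :
    Do n h x = S.dirPt n (if pre n x = ow n then h else 1) x := rfl

theorem Do_pos {n : ℕ} (h : S.H) {x : S.Bd} (hx : Cy n x) : Do n h x = S.dirPt n h x := by
  rw [Do_apply, if_pos (Cy_iff.mp hx)]

theorem Do_neg {n : ℕ} (h : S.H) {x : S.Bd} (hx : ¬ Cy n x) : Do n h x = x := by
  rw [Do_apply, if_neg (fun hc => hx (Cy_iff.mpr hc)), dirPt_one]

theorem Do_zero (h : S.H) : Do 0 h = dir (S := S) 0 h := by
  ext x : 1
  rw [Do_pos h (fun i hi => absurd hi (by omega)), dir_apply]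

theorem Ro_zero (a : Equiv.Perm (S.X 0)) : Ro 0 a = root (S := S) a := by
  ext x : 1
  unfold Ro
  rw [Lr_pos _ _ (fun i hi => absurd hi (by omega))]
  funext i
  cases i with
  | zero => rw [Function.update_self, root_zero]
  | succ k => rw [Function.update_of_ne (by omega), root_succ]

theorem Do_split (n : ℕ) (h : S.H) : Do n h = Do (n + 1) h * Et n (S.ρ n h) := by
  ext x : 1
  rw [Equiv.Perm.mul_apply]
  unfold Et
  by_cases h1 : Ct n x
  · rw [Lr_pos _ _ h1, Do_pos h h1.1, Do_neg]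
    · have hs : S.Sg n n x := ⟨le_rfl, h1.2, fun j h2 h3 => absurd h3 (by omega)⟩
      funext i
      by_cases hi : i = n + 1
      · subst hi
        rw [Function.update_self, dirPt_succ_pos _ hs]
      · rw [Function.update_of_ne hi, dirPt_other h hs hi]
    · rw [Cy_update le_rfl, Cy_succ]
      exact fun hc => S.hot n (hc.2.symm.trans h1.2)
  · rw [Lr_neg _ _ h1]
    by_cases h2 : Cy (n + 1) x
    · rw [Do_pos h h2, Do_pos h (Cy_succ.mp h2).1, dirPt_shift h (Cy_succ.mp h2).2]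
    · rw [Do_neg h h2]
      by_cases h3 : Cy n x
      · rw [Do_pos h h3]
        refine dirPt_none h fun k hk => ?_
        rcases hk.1.lt_or_eq with h4 | h4
        · exact h2 (Cy_succ.mpr ⟨h3, hk.2.2 n le_rfl h4⟩)
        · subst h4
          exact h1 ⟨h3, hk.2.1⟩
      · rw [Do_neg h h3]

theorem disj_Do_Et (n : ℕ) (h : S.H) (π : Equiv.Perm (S.X (n + 1))) :
    (Do (n + 1) h).Disjoint (Et n π) := by
  intro x
  by_cases h1 : Ct n x
  · left
    refine Do_neg h fun hc => S.hot n ((Cy_succ.mp hc).2.symm.trans h1.2)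
  · right
    exact Lr_neg _ _ h1

theorem disj_Do_Ro (n : ℕ) (h : S.H) (r : Equiv.Perm (S.X n)) (hr : r (S.o n) = S.o n) :
    (Do (n + 1) h).Disjoint (Ro n r) := by
  intro x
  by_cases h1 : Cy (n + 1) x
  · right
    unfold Ro
    rw [Lr_pos _ _ (Cy_succ.mp h1).1, (Cy_succ.mp h1).2, hr, ← (Cy_succ.mp h1).2,
      Function.update_eq_self]
  · left
    exact Do_neg h h1

theorem disj_Et_conj (n : ℕ) (π π' : Equiv.Perm (S.X (n + 1))) (r : Equiv.Perm (S.X n))
    (hr : r (S.t n) ≠ S.t n) : (Et n π).Disjoint (Ro n r * Et n π' * (Ro n r)⁻¹) := by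
  intro x
  by_cases h1 : Ct n x
  · right
    have h2 : ¬ Ct n ((Ro n r)⁻¹ x) := by
      rw [← map_inv]
      unfold Ro
      rw [Lr_pos _ _ h1.1]
      intro hc
      have h3 := hc.2
      rw [Function.update_self, h1.2] at h3
      exact hr (by simpa using (congrArg r h3).symm)
    rw [Equiv.Perm.mul_apply, Equiv.Perm.mul_apply]
    unfold Et
    rw [Lr_neg _ _ h2]
    simp
  · left
    exact Lr_neg _ _ h1

theorem Ro_conj (n : ℕ) (π : Equiv.Perm (S.X (n + 1))) (r : Equiv.Perm (S.X n))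
    (hr : r (S.t n) = S.o n) : Ro n r * Et n π = Ro (n + 1) π * Ro n r := by
  ext x : 1
  rw [Equiv.Perm.mul_apply, Equiv.Perm.mul_apply]
  unfold Ro Et
  by_cases h1 : Ct n x
  · rw [Lr_pos _ _ h1, Lr_pos _ _ h1.1, Lr_pos _ _ ((Cy_update (by omega) _ _).mpr h1.1), Lr_pos]
    · rw [Function.update_of_ne (by omega), Function.update_of_ne (by omega),
        Function.update_comm (by omega)]
    · rw [Cy_succ, Cy_update le_rfl, Function.update_self, h1.2]
      exact ⟨h1.1, hr⟩
  · rw [Lr_neg _ _ h1]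
    by_cases h2 : Cy n x
    · rw [Lr_pos _ _ h2, Lr_neg]
      rw [Cy_succ, Function.update_self]
      intro hc
      exact h1 ⟨h2, r.injective (hc.2.trans hr.symm)⟩
    · rw [Lr_neg _ _ h2, Lr_neg]
      exact fun hc => h2 (Cy_succ.mp hc).1

theorem comm_split {G : Type} [Group G] (a b e f : G) (_h1 : Commute a e) (h2 : Commute a f)
    (h3 : Commute b e) (_h4 : Commute b f) (h5 : Commute e f) : ⁅a * e, b * f⁆ = ⁅a, b⁆ := by
  rw [commutatorElement_def, commutatorElement_def, mul_inv_rev, mul_inv_rev]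
  have e1 : e * (b * f) * e⁻¹ = b * f := by
    rw [mul_inv_eq_iff_eq_mul]
    exact (h3.symm.mul_right h5).eq
  have e2 : f * a⁻¹ * f⁻¹ = a⁻¹ := by
    rw [mul_inv_eq_iff_eq_mul]
    exact h2.symm.inv_right.eq
  calc a * e * (b * f) * (e⁻¹ * a⁻¹) * (f⁻¹ * b⁻¹)
      = a * (e * (b * f) * e⁻¹) * a⁻¹ * (f⁻¹ * b⁻¹) := by group
    _ = a * b * (f * a⁻¹ * f⁻¹) * b⁻¹ := by rw [e1]; group
    _ = a * b * a⁻¹ * b⁻¹ := by rw [e2]

theorem local_mem {A : Type} [Group A] (hA : commutator A = ⊤) (ι : A →* S.H)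
    (β : ∀ n, A →* Equiv.Perm (S.X n)) (hβ : ∀ n c, β (n + 1) c = S.ρ n (ι c)) (r r' : A)
    (hr1 : ∀ n, β n r (S.o n) = S.o n) (hr2 : ∀ n, β n r (S.t n) ≠ S.t n)
    (hr3 : ∀ n, β n r' (S.t n) = S.o n) (n : ℕ) :
    (∀ c, Do n (ι c) ∈ GG S) ∧ ∀ c, Ro n (β n c) ∈ GG S := by
  induction n with
  | zero =>
    exact ⟨fun c => by rw [Do_zero]; exact dir_mem _, fun c => by rw [Ro_zero]; exact root_mem _⟩
  | succ n ih =>
    obtain ⟨ih1, ih2⟩ := ih
    have key : ∀ c c' : A, Do (n + 1) (ι ⁅c, c'⁆) ∈ GG S := by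
      intro c c'
      have hR := (disj_Do_Ro n (ι c') (β n r) (hr1 n)).commute
      have e1 : Ro n (β n r) * Do n (ι c') * (Ro n (β n r))⁻¹ =
          Do (n + 1) (ι c') * (Ro n (β n r) * Et n (S.ρ n (ι c')) * (Ro n (β n r))⁻¹) := by
        rw [Do_split n, ← mul_assoc, ← hR.eq]
        group
      have hc : ∀ d : A, Commute (Do (n + 1) (ι d))
          (Ro n (β n r) * Et n (S.ρ n (ι c')) * (Ro n (β n r))⁻¹) := fun d =>
        ((disj_Do_Ro n (ι d) (β n r) (hr1 n)).commute.mul_right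
          (disj_Do_Et n _ _).commute).mul_right
          (disj_Do_Ro n (ι d) (β n r) (hr1 n)).commute.inv_right
      have e2 := comm_split (Do (n + 1) (ι c)) (Do (n + 1) (ι c')) (Et n (S.ρ n (ι c)))
        (Ro n (β n r) * Et n (S.ρ n (ι c')) * (Ro n (β n r))⁻¹) (disj_Do_Et n _ _).commute (hc c)
        (disj_Do_Et n _ _).commute (hc c') (disj_Et_conj n _ _ _ (hr2 n)).commute
      rw [map_commutatorElement, map_commutatorElement, ← e2, ← e1, ← Do_split,
        commutatorElement_def]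
      have m1 := ih1 c
      have m2 : Ro n (β n r) * Do n (ι c') * (Ro n (β n r))⁻¹ ∈ GG S :=
        mul_mem (mul_mem (ih2 r) (ih1 c')) (inv_mem (ih2 r))
      exact mul_mem (mul_mem (mul_mem m1 m2) (inv_mem m1)) (inv_mem m2)
    have h1 : ∀ c, Do (n + 1) (ι c) ∈ GG S := by
      intro c
      have h2 : commutator A ≤ (GG S).comap ((Do (n + 1)).comp ι) := by
        rw [commutator_def, Subgroup.commutator_le]
        intro g1 _ g2 _
        exact key g1 g2
      rw [hA] at h2
      exact h2 (Subgroup.mem_top c)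
    refine ⟨h1, fun c => ?_⟩
    have e1 : Et n (S.ρ n (ι c)) = (Do (n + 1) (ι c))⁻¹ * Do n (ι c) := by
      rw [Do_split n]
      group
    have e2 : Ro (n + 1) (β (n + 1) c) =
        Ro n (β n r') * Et n (S.ρ n (ι c)) * (Ro n (β n r'))⁻¹ := by
      rw [Ro_conj n _ _ (hr3 n), hβ]
      group
    rw [e2, e1]
    exact mul_mem (mul_mem (ih2 r') (mul_mem (inv_mem (h1 c)) (ih1 c))) (inv_mem (ih2 r'))

theorem level_trans (hρ : ∀ k (a b : S.X (k + 1)), ∃ h, S.ρ k h a = b) (n : ℕ) :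
    ∀ x y : S.Bd, ∃ g ∈ GG S, ∀ i < n + 1, g x i = y i := by
  induction n with
  | zero =>
    intro x y
    refine ⟨root (Equiv.swap (x 0) (y 0)), root_mem _, fun i hi => ?_⟩
    have : i = 0 := by omega
    subst this
    rw [root_zero, Equiv.swap_apply_left]
  | succ n ih =>
    intro x y
    let w : S.Bd := Function.update (oo S) n (S.t n)
    obtain ⟨g1, hg1, h1⟩ := ih x w
    obtain ⟨g2, hg2, h2⟩ := ih y w
    obtain ⟨h, hh⟩ := hρ n (g1 x (n + 1)) (g2 y (n + 1))
    have hs : S.Sg 0 n (g1 x) := by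
      refine ⟨Nat.zero_le _, ?_, fun j _ hj => ?_⟩
      · rw [h1 n (by omega)]
        exact Function.update_self _ _ _
      · rw [h1 j (by omega)]
        exact Function.update_of_ne (by omega) _ _
    have h3 : ∀ i < n + 1 + 1, dir 0 h (g1 x) i = g2 y i := by
      intro i hi
      rw [dir_apply]
      by_cases h4 : i = n + 1
      · subst h4
        rw [dirPt_succ_pos _ hs, hh]
      · rw [dirPt_other h hs h4, h1 i (by omega), h2 i (by omega)]
    refine ⟨g2⁻¹ * dir 0 h * g1, mul_mem (mul_mem (inv_mem hg2) (dir_mem h)) hg1, ?_⟩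
    have h4 := (TA_inv (TA_of_mem hg2) _ _ _).mp h3
    intro i hi
    have h5 := h4 i hi
    simpa using h5

theorem level_trans' (hρ : ∀ k (a b : S.X (k + 1)), ∃ h, S.ρ k h a = b) (n : ℕ) (x y : S.Bd) :
    ∃ g ∈ GG S, ∀ i < n, g x i = y i := by
  obtain ⟨g, hg, h⟩ := level_trans hρ n x y
  exact ⟨g, hg, fun i hi => h i (by omega)⟩

theorem rist_ne (hρ : ∀ k (a b : S.X (k + 1)), ∃ h, S.ρ k h a = b)
    (hloc : ∀ n, ∃ π : Equiv.Perm (S.X n), π (S.t n) ≠ S.t n ∧ Ro n π ∈ GG S) (n : ℕ) (y : S.Bd) :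
    ∃ g ∈ GG S, g ≠ 1 ∧ ∀ x : S.Bd, ¬ (∀ i < n, x i = y i) → g x = x := by
  obtain ⟨π, hπ, hmem⟩ := hloc n
  obtain ⟨k, hk, h1⟩ := level_trans' hρ n (oo S) y
  refine ⟨k * Ro n π * k⁻¹, mul_mem (mul_mem hk hmem) (inv_mem hk), ?_, fun x hx => ?_⟩
  · intro hc
    have h2 : Ro n π = 1 := by
      have : Ro n π = k⁻¹ * (k * Ro n π * k⁻¹) * k := by group
      rw [this, hc]
      group
    have h3 := congrArg (fun g : Equiv.Perm S.Bd => g (Function.update (oo S) n (S.t n)) n) h2
    unfold Ro at h3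
    have h4 : Cy n (Function.update (oo S) n (S.t n)) :=
      (Cy_update le_rfl (oo S) (S.t n)).mpr fun i _ => rfl
    rw [Lr_pos _ _ h4] at h3
    simp at h3
    exact hπ h3
  · have h2 : ¬ Cy n (k⁻¹ x) := by
      intro hc
      apply hx
      have h3 := (TA_of_mem hk (k⁻¹ x) (oo S) n).mp hc
      intro i hi
      rw [← h1 i hi, ← h3 i hi]
      simp
    rw [Equiv.Perm.mul_apply, Equiv.Perm.mul_apply]
    unfold Ro
    rw [Lr_neg _ _ h2]
    simp

end Pool.Agent.H409Z.Wb
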