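import Mathlib
import Pool.Agent.H409Z.WbDefs
import Pool.Agent.H409Z.WbRist
import Pool.Agent.Helper889.Br.Folner
import Pool.Agent.Helper889.Br.Harm

set_option autoImplicit false
set_option linter.unusedSectionVars false
set_option maxHeartbeats 400000

namespace Pool.Agent.H409Z.Wb

open Pool.Agent.Helper889.Br

section general
variable {S : Sys}

theorem ind_pre (n : ℕ) (g : GG S) (x : S.Bd) :
    ind n (g : Equiv.Perm S.Bd) (TA_of_mem g.2) (pre n x) = pre n ((g : Equiv.Perm S.Bd) x) :=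
  (pre_apply n _ x).symm

/-- the action on the vertices -/
noncomputable def vact (S : Sys) : GG S →* Equiv.Perm (Vtx S.X) where
  toFun := fun g => Equiv.sigmaCongrRight fun n => ind n (g : Equiv.Perm S.Bd) (TA_of_mem g.2)
  map_one' := by
    ext1 v
    obtain ⟨n, v⟩ := v
    show (⟨n, ind n _ (TA_of_mem (1 : GG S).2) v⟩ : Vtx S.X) = ⟨n, v⟩
    rw [← pre_up n v, ind_pre]
    rfl
  map_mul' := fun a b => by
    ext1 v
    obtain ⟨n, v⟩ := v
    show (⟨n, ind n _ (TA_of_mem (a * b).2) v⟩ : Vtx S.X) =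
      ⟨n, ind n _ (TA_of_mem a.2) (ind n _ (TA_of_mem b.2) v)⟩
    rw [← pre_up n v, ind_pre, ind_pre, ind_pre]
    rfl

theorem vact_pre (g : GG S) (n : ℕ) (x : S.Bd) :
    vact S g ⟨n, pre n x⟩ = ⟨n, pre n ((g : Equiv.Perm S.Bd) x)⟩ := by
  show (⟨n, ind n _ (TA_of_mem g.2) (pre n x)⟩ : Vtx S.X) = _
  rw [ind_pre]

theorem vtx_eq (v : Vtx S.X) : ∃ (n : ℕ) (x : S.Bd), v = ⟨n, pre n x⟩ :=
  ⟨v.1, up v.1 v.2, by rw [pre_up]; rfl⟩

theorem below_pre (n m : ℕ) (x y : S.Bd) :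
    Below (X := S.X) ⟨n, pre n x⟩ ⟨m, pre m y⟩ ↔ n ≤ m ∧ ∀ i < n, y i = x i := by
  constructor
  · rintro ⟨h, h1⟩
    exact ⟨h, fun i hi => h1 ⟨i, hi⟩⟩
  · rintro ⟨h, h1⟩
    exact ⟨h, fun i => h1 i i.2⟩

theorem weaklyBranch (hρ : ∀ k (a b : S.X (k + 1)), ∃ h, S.ρ k h a = b)
    (hloc : ∀ n, ∃ π : Equiv.Perm (S.X n), π (S.t n) ≠ S.t n ∧ Ro n π ∈ GG S) :
    IsWeaklyBranch (vact S) := by
  refine ⟨?_, fun g => ⟨fun v => rfl, fun v w => ?_⟩, fun v w h => ?_, fun v => ?_⟩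
  · rw [injective_iff_map_eq_one]
    intro g hg
    apply Subtype.ext
    ext x i
    have h1 := vact_pre g (i + 1) x
    rw [hg] at h1
    have h2 : pre (i + 1) x = pre (i + 1) ((g : Equiv.Perm S.Bd) x) :=
      eq_of_heq (Sigma.mk.inj h1).2
    exact (congrFun h2 ⟨i, by omega⟩).symm
  · obtain ⟨n, x, rfl⟩ := vtx_eq v
    obtain ⟨m, y, rfl⟩ := vtx_eq w
    rw [vact_pre, vact_pre, below_pre, below_pre, ← TA_of_mem g.2]
  · obtain ⟨n, x, rfl⟩ := vtx_eq v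
    obtain ⟨m, y, rfl⟩ := vtx_eq w
    obtain rfl : n = m := h
    obtain ⟨g, hg, h1⟩ := level_trans' hρ n x y
    refine ⟨⟨g, hg⟩, ?_⟩
    rw [vact_pre, pre_eq_iff.mpr h1]
  · obtain ⟨n, y, rfl⟩ := vtx_eq v
    obtain ⟨g, hg, h1, h2⟩ := rist_ne hρ hloc n y
    refine ⟨⟨g, hg⟩, fun hc => h1 (congrArg Subtype.val hc), fun w hw => ?_⟩
    obtain ⟨m, x, rfl⟩ := vtx_eq w
    rw [vact_pre]
    rw [below_pre] at hw
    by_cases h3 : ∀ i < n, x i = y i
    · have h4 : m < n := by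
        by_contra h5
        exact hw ⟨by omega, h3⟩
      have h5 : ∀ i < n, g x i = y i := by
        by_contra h6
        have h7 := g.injective (h2 _ h6)
        rw [h7] at h6
        exact h6 h3
      congr 1
      rw [pre_eq_iff]
      intro i hi
      exact (h5 i (by omega)).trans (h3 i (by omega)).symm
    · show (⟨m, pre m (g x)⟩ : Vtx S.X) = _
      rw [h2 x h3]

theorem isAmenable_of {G : Type} [Group G] (h : Amenable G) : IsAmenable G := by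
  obtain ⟨m, h0, h1, h2, h3⟩ := h
  refine ⟨m, h0, h1, h2, fun g A => ?_⟩
  rw [← h3 g ((fun x => g * x) '' A), Set.preimage_image_eq _ (mul_right_injective g)]

theorem general_wb (S : Sys) (hf : ∀ h : S.H, h ≠ 1 → ∀ n, ∃ k, n ≤ k ∧ S.ρ k h ≠ 1)
    (hρ : ∀ k (a b : S.X (k + 1)), ∃ h, S.ρ k h a = b)
    (hloc : ∀ n, ∃ π : Equiv.Perm (S.X n), π (S.t n) ≠ S.t n ∧ Ro n π ∈ GG S)
    (T : Set S.H) (hT1 : Fol S.H T) (hT2 : Subgroup.closure T = ⊤) {J : Type} [Fintype J]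
    (gen : J → S.H) (hgen : Subgroup.closure (Set.range gen) = ⊤) (τ : Equiv.Perm J)
    (hτ : ∀ j, gen (τ j) = (gen j)⁻¹) (F : S.H → ℝ)
    (hF1 : ∀ v, (∑ j, F (v * gen j)) = Fintype.card J * F v) (hF2 : ∀ v, 0 ≤ F v ∧ F v ≤ 1)
    (c : S.H) (hF3 : F c ≠ F 1) :
    ∃ (X : ℕ → Type) (G : Type) (_ : Group G) (φ : G →* Equiv.Perm (Vtx X)),
    (∀ i, Finite (X i) ∧ Nontrivial (X i)) ∧ IsWeaklyBranch φ ∧ Group.FG G ∧ IsAmenable G ∧
    ∃ μ : G →₀ ℝ, (∀ g, 0 ≤ μ g) ∧ (μ.sum fun _ w => w) = 1 ∧ (∀ g, μ g⁻¹ = μ g) ∧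
      Subsemigroup.closure (μ.support : Set G) = ⊤ ∧
      ∃ f : G → ℝ, (∃ C : ℝ, ∀ g, |f g| ≤ C) ∧ (∀ g, f g = μ.sum fun h w => w * f (g * h)) ∧
        ∃ a b : G, f a ≠ f b := by
  classical
  let s := gens (S := S) gen
  have hs : Subgroup.closure (Set.range s) = ⊤ := closure_gens gen hgen
  let σ : Equiv.Perm (J ⊕ Equiv.Perm (S.X 0)) := Equiv.sumCongr τ (Equiv.inv _)
  have hσ : ∀ j, s (σ j) = (s j)⁻¹ := by
    rintro (j | a)
    · apply Subtype.ext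
      show dir (S := S) 0 (gen (τ j)) = (dir (S := S) 0 (gen j))⁻¹
      rw [hτ, map_inv]
    · apply Subtype.ext
      show root (S := S) a⁻¹ = (root (S := S) a)⁻¹
      rw [map_inv]
  have hc : (0 : ℝ) < Fintype.card (J ⊕ Equiv.Perm (S.X 0)) := by exact_mod_cast Fintype.card_pos
  refine ⟨S.X, GG S, inferInstance, vact S,
    fun i => ⟨inferInstance, ⟨S.o i, S.t i, S.hot i⟩⟩, weaklyBranch hρ hloc, ?_, ?_,
    um s, um_nonneg s, ?_, um_symm s σ hσ, ?_, fun g => F (gam g)⁻¹, ⟨1, fun g => ?_⟩, fun g => ?_,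
    ⟨dir 0 c, dir_mem _⟩, 1, ?_⟩
  · rw [Group.fg_iff]
    exact ⟨Set.range s, hs, Set.finite_range s⟩
  · exact isAmenable_of (amenable_closure (S := S) T hT1 hT2)
  · have := um_sum s (fun _ => 1)
    simp only [mul_one, Finset.sum_const, Finset.card_univ, nsmul_eq_mul] at this
    rw [this, div_self hc.ne']
  · rw [um_support]
    refine semigroup_top _ ⟨Sum.inr 1, Subtype.ext (map_one (root (S := S)))⟩ ?_ hs
    rintro _ ⟨j, rfl⟩
    exact ⟨σ j, hσ j⟩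
  · have := hF2 (gam g)⁻¹
    rw [abs_le]
    constructor <;> linarith [this.1, this.2]
  · rw [um_sum s (fun h => F (gam (g * h))⁻¹), lift_harmonic hf gen F hF1 g]
    field_simp
  · show F (gam _)⁻¹ ≠ F (gam 1)⁻¹
    rw [gam_dir hf, gam_one hf, inv_one]
    exact hF3

end general

theorem S0_trans (k : ℕ) (a b : S0.X (k + 1)) : ∃ h, S0.ρ k h a = b := by
  obtain ⟨i, e, y⟩ := a
  obtain ⟨i', e', y'⟩ := b
  let n' : B5 := fun j => ((i' j).val : ℤ)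
  let n : B5 := fun j => (((i' - i) j).val : ℤ)
  have h1 : pr (k + 1 + 2) n' = i' := by
    funext j
    simp [pr, n']
  have h2 : pr (k + 1 + 2) n = i' - i := by
    funext j
    simp [pr, n]
  refine ⟨(⟨Finsupp.single n' (e' - e), n⟩, Equiv.swap y y'), ?_⟩
  show act (k + 1 + 2) _ _ = _
  rw [act_apply]
  simp only [h2, sub_add_cancel, Equiv.swap_apply_left, bar, Finsupp.mapDomain_single, h1,
    Finsupp.single_eq_same, add_sub_cancel]

/-- the alternating group inside the germ group -/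
noncomputable def ιA : alternatingGroup (Fin 5) →* Hl :=
  (MonoidHom.inr Lp (Equiv.Perm (Fin 5))).comp (alternatingGroup (Fin 5)).subtype

theorem act_ιA (m : ℕ) (c : alternatingGroup (Fin 5)) (y : Fin 5) :
    act m (ιA c) (0, 0, y) = (0, 0, (c : Equiv.Perm (Fin 5)) y) := by
  rw [act_apply]
  show (pr m (1 : Lp).n + 0, 0 + bar m (1 : Lp).f (pr m (1 : Lp).n + 0), _) = _
  rw [Lp.one_n, Lp.one_f, pr_zero]
  simp [bar]
  rfl

theorem S0_loc (n : ℕ) : ∃ π : Equiv.Perm (S0.X n), π (S0.t n) ≠ S0.t n ∧ Ro n π ∈ GG S0 := by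
  have hA : commutator (alternatingGroup (Fin 5)) = ⊤ :=
    commutator_alternatingGroup_eq_top (by simp)
  let r : alternatingGroup (Fin 5) :=
    ⟨Equiv.swap 1 2 * Equiv.swap 2 3, by rw [Equiv.Perm.mem_alternatingGroup]; decide⟩
  let r' : alternatingGroup (Fin 5) :=
    ⟨Equiv.swap 1 0 * Equiv.swap 2 3, by rw [Equiv.Perm.mem_alternatingGroup]; decide⟩
  have hr2 : ∀ n, (act (n + 2)).comp ιA r (S0.t n) ≠ S0.t n := by
    intro n h
    have h1 : act (n + 2) (ιA r) (0, 0, 1) = (0, 0, 1) := h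
    rw [act_ιA] at h1
    have h2 : (Equiv.swap 1 2 * Equiv.swap 2 3 : Equiv.Perm (Fin 5)) 1 = 1 :=
      congrArg (fun z => z.2.2) h1
    revert h2
    decide
  have h := local_mem (S := S0) hA ιA (fun n => (act (n + 2)).comp ιA) (fun _ _ => rfl) r r'
    (fun n => by
      show act (n + 2) (ιA r) (0, 0, 0) = (0, 0, 0)
      rw [act_ιA]
      rfl)
    hr2
    (fun n => by
      show act (n + 2) (ιA r') (0, 0, 1) = (0, 0, 0)
      rw [act_ιA]
      rfl) n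
  exact ⟨_, hr2 n, h.2 r⟩

theorem gH_gen : Subgroup.closure (Set.range gH) = ⊤ := by
  apply Hl_gen
  rintro _ ((rfl | ⟨i, rfl⟩) | ⟨q, rfl⟩)
  · exact Subgroup.subset_closure ⟨Sum.inl (), rfl⟩
  · exact Subgroup.subset_closure ⟨Sum.inr (Sum.inl (i, true)), rfl⟩
  · exact Subgroup.subset_closure ⟨Sum.inr (Sum.inr q), rfl⟩

/-- inversion on the indices of the generators -/
def σH : Equiv.Perm JH :=
  Equiv.sumCongr (Equiv.refl _)
    (Equiv.sumCongr (Equiv.prodCongr (Equiv.refl _) Equiv.boolNot) (Equiv.inv _))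

theorem σH_spec (j : JH) : gH (σH j) = (gH j)⁻¹ := by
  rcases j with _ | ⟨i, b⟩ | q
  · show ((la, 1) : Hl) = (la⁻¹, 1⁻¹)
    rw [la_inv, inv_one]
  · show ((lt (stp (i, !b)), 1) : Hl) = ((lt (stp (i, b)))⁻¹, 1⁻¹)
    rw [lt_inv, inv_one]
    congr 2
    unfold stp
    cases b <;> simp [sg, Pi.single_neg]
  · show ((1, q⁻¹) : Hl) = (1⁻¹, q⁻¹)
    rw [inv_one]

theorem main_wb : ∃ (X : ℕ → Type) (G : Type) (_ : Group G) (φ : G →* Equiv.Perm (Vtx X)),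
    (∀ i, Finite (X i) ∧ Nontrivial (X i)) ∧ IsWeaklyBranch φ ∧ Group.FG G ∧ IsAmenable G ∧
    ∃ μ : G →₀ ℝ, (∀ g, 0 ≤ μ g) ∧ (μ.sum fun _ w => w) = 1 ∧ (∀ g, μ g⁻¹ = μ g) ∧
      Subsemigroup.closure (μ.support : Set G) = ⊤ ∧
      ∃ f : G → ℝ, (∃ C : ℝ, ∀ g, |f g| ≤ C) ∧ (∀ g, f g = μ.sum fun h w => w * f (g * h)) ∧
        ∃ a b : G, f a ≠ f b := by
  obtain ⟨F, hF1, hF2, hF3⟩ := exists_harm
  exact general_wb S0 S0_faithful S0_trans S0_loc Tg Fol_Hl (Hl_gen _ Subgroup.subset_closure)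
    gH gH_gen σH σH_spec F hF1 hF2 _ hF3

end Pool.Agent.H409Z.Wb
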